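import Pool.Agent.R554.BoggleRed

/-!
# Boggle puzzles: the decision problem
-/

set_option autoImplicit false

open Finset

namespace Pool.Agent.R554.Boggle

/-- Two cells of the board touch, horizontally, vertically or diagonally. -/
def Touch {n : ℕ} (c d : Fin n × Fin n) : Prop :=
  max |((c.1 : ℕ) : ℤ) - ((d.1 : ℕ) : ℤ)| |((c.2 : ℕ) : ℤ) - ((d.2 : ℕ) : ℤ)| = 1

/-- A board: a bijection from the cells to the letters `1, ..., n ^ 2`. -/
abbrev Board (n : ℕ) : Type := Fin n × Fin n ≃ Set.Icc 1 (n ^ 2)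

/-- A word: a sequence of pairwise distinct letters of length at least `2`. -/
def IsWord (n : ℕ) (w : List ℕ) : Prop :=
  2 ≤ w.length ∧ w.Nodup ∧ ∀ x ∈ w, x ∈ Set.Icc 1 (n ^ 2)

/-- A word occurs in the board: consecutive letters of the word sit on touching cells. -/
def Occurs {n : ℕ} (B : Board n) (w : List ℕ) : Prop :=
  w.IsChain fun x y => ∃ c d : Fin n × Fin n, (B c : ℕ) = x ∧ (B d : ℕ) = y ∧ Touch c d

/-- The decision problem BOGGLE-SOLVE: the number `n` is given in unary, as the length of the first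
component; the second component is the list of words. -/
def BoggleSolve (I : List Bool × List (List ℕ)) : Prop :=
  1 ≤ I.1.length ∧ (∀ w ∈ I.2, IsWord I.1.length w) ∧
    ∃ B : Board I.1.length, ∀ w ∈ I.2, Occurs B w

/-- the letters -/
def lett (n : ℕ) : Fin (n * n) ≃ Set.Icc 1 (n ^ 2) where
  toFun x := ⟨x.1 + 1, by have := x.2; constructor <;> [omega; (rw [sq]; omega)]⟩
  invFun y := ⟨y.1 - 1, by
    have h1 := y.2.1
    have h2 : y.1 ≤ n * n := le_of_le_of_eq y.2.2 (sq n)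
    omega⟩
  left_inv x := by ext; simp
  right_inv y := by
    have h1 := y.2.1
    apply Subtype.ext
    show y.1 - 1 + 1 = y.1
    omega

theorem lett_val (n : ℕ) (x : Fin (n * n)) : (lett n x : ℕ) = x.1 + 1 := rfl

theorem touch_iff {n : ℕ} (c d : Fin n × Fin n) :
    Touch c d ↔ adjN n (finProdFinEquiv c : Fin (n * n)) (finProdFinEquiv d : Fin (n * n)) := by
  have hn : 0 < n := lt_of_le_of_lt (Nat.zero_le _) c.1.2
  have h1 : ∀ e : Fin n × Fin n, cell n (finProdFinEquiv e : Fin (n * n)) =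
      (((e.1 : ℕ) : ℤ), ((e.2 : ℕ) : ℤ)) := by
    intro e
    have he1 := e.1.2
    have he2 := e.2.2
    unfold cell
    rw [finProdFinEquiv_apply_val]
    have e1 : ((e.2 : ℕ) + n * e.1) / n = e.1 := by
      rw [Nat.add_mul_div_left _ _ hn, Nat.div_eq_of_lt he2, zero_add]
    have e2 : ((e.2 : ℕ) + n * e.1) % n = e.2 := by
      rw [Nat.add_mul_mod_self_left, Nat.mod_eq_of_lt he2]
    rw [e1, e2]
  rw [adjN_iff, h1, h1, kadj_iff, Touch, ne_eq, Prod.mk.injEq]
  simp only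
  set a : ℤ := ((c.1 : ℕ) : ℤ)
  set b : ℤ := ((c.2 : ℕ) : ℤ)
  set a' : ℤ := ((d.1 : ℕ) : ℤ)
  set b' : ℤ := ((d.2 : ℕ) : ℤ)
  rcases le_total |a - a'| |b - b'| with h | h
  · rw [max_eq_right h]
    have h2 := abs_nonneg (a - a')
    rcases abs_cases (a - a') with h3 | h3 <;> rcases abs_cases (b - b') with h4 | h4 <;>
      rw [h3.1, h4.1] at h <;> rw [h4.1] <;> constructor <;> intro h5 <;> omega
  · rw [max_eq_left h]
    have h2 := abs_nonneg (b - b')
    rcases abs_cases (a - a') with h3 | h3 <;> rcases abs_cases (b - b') with h4 | h4 <;>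
      rw [h3.1, h4.1] at h <;> rw [h3.1] <;> constructor <;> intro h5 <;> omega

/-- A solution, by the cells of the letters. -/
def ZSol (n : ℕ) (P : List (List ℕ)) (z : ℕ → ℕ) : Prop :=
  (∀ x < n * n, z x < n * n) ∧ (∀ x < n * n, ∀ y < n * n, z x = z y → x = y) ∧
    ∀ w ∈ P, ∀ i (h : i + 1 < w.length), adjN n (z (w[i] - 1)) (z (w[i + 1] - 1))

theorem zsol_of_board {n : ℕ} {P : List (List ℕ)} (B : Board n)
    (hB : ∀ w ∈ P, Occurs B w) :
    ∃ z, ZSol n P z := by
  classical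
  let z : ℕ → ℕ := fun x => if h : x < n * n then
    ((finProdFinEquiv (B.symm (lett n ⟨x, h⟩)) : Fin (n * n)) : ℕ) else 0
  have hz : ∀ x (h : x < n * n), z x = ((finProdFinEquiv (B.symm (lett n ⟨x, h⟩)) :
      Fin (n * n)) : ℕ) := fun x h => dif_pos h
  refine ⟨z, ?_, ?_, ?_⟩
  · intro x hx
    rw [hz x hx]
    exact Fin.is_lt _
  · intro x hx y hy hxy
    rw [hz x hx, hz y hy] at hxy
    have h1 := finProdFinEquiv.injective (Fin.ext hxy)
    have h2 := (lett n).injective (B.symm.injective h1)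
    exact congrArg Fin.val h2
  · intro w hw i hi
    have h1 := List.isChain_iff_getElem.1 (hB w hw) i hi
    obtain ⟨c, d, hc, hd, hcd⟩ := h1
    have key : ∀ (c : Fin n × Fin n), z ((B c : ℕ) - 1) = (finProdFinEquiv c : Fin (n * n)) := by
      intro c
      have h2 := (B c).2.1
      have h3 : (B c).1 ≤ n * n := le_of_le_of_eq (B c).2.2 (sq n)
      have h4 : (B c : ℕ) - 1 < n * n := by omega
      rw [hz _ h4]
      have h5 : lett n ⟨(B c : ℕ) - 1, h4⟩ = B c := by
        apply Subtype.ext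
        rw [lett_val]
        show (B c : ℕ) - 1 + 1 = (B c : ℕ)
        omega
      rw [h5, Equiv.symm_apply_apply]
    rw [← hc, ← hd, key, key]
    exact (touch_iff c d).1 hcd

theorem board_of_zsol {n : ℕ} {P : List (List ℕ)} (hP : ∀ w ∈ P, IsWord n w) {z : ℕ → ℕ}
    (hz : ZSol n P z) : ∃ B : Board n, ∀ w ∈ P, Occurs B w := by
  obtain ⟨h1, h2, h3⟩ := hz
  let e : Fin (n * n) → Fin (n * n) := fun x => ⟨z x, h1 x x.2⟩
  have he : Function.Injective e := fun x y hxy =>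
    Fin.ext (h2 x x.2 y y.2 (congrArg Fin.val hxy))
  let E : Fin (n * n) ≃ Fin (n * n) := Equiv.ofBijective e (Finite.injective_iff_bijective.1 he)
  let B : Board n := (finProdFinEquiv.trans E.symm).trans (lett n)
  have hB : ∀ x (hx : x ∈ Set.Icc 1 (n ^ 2)), ∃ c, (B c : ℕ) = x ∧
      ((finProdFinEquiv c : Fin (n * n)) : ℕ) = z (x - 1) := by
    intro x hx
    refine ⟨B.symm ⟨x, hx⟩, by rw [Equiv.apply_symm_apply], ?_⟩
    show ((finProdFinEquiv (finProdFinEquiv.symm (E ((lett n).symm ⟨x, hx⟩))) : Fin (n * n)) : ℕ)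
      = z (x - 1)
    rw [Equiv.apply_symm_apply]
    rfl
  refine ⟨B, fun w hw => List.isChain_iff_getElem.2 fun i hi => ?_⟩
  obtain ⟨c, hc1, hc2⟩ := hB w[i] ((hP w hw).2.2 _ (List.getElem_mem _))
  obtain ⟨d, hd1, hd2⟩ := hB w[i + 1] ((hP w hw).2.2 _ (List.getElem_mem _))
  refine ⟨c, d, hc1, hd1, ?_⟩
  rw [touch_iff, hc2, hd2]
  exact h3 w hw i hi

theorem boggle_iff (I : List Bool × List (List ℕ)) : BoggleSolve I ↔
    1 ≤ I.1.length ∧ (∀ w ∈ I.2, IsWord I.1.length w) ∧ ∃ z, ZSol I.1.length I.2 z := by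
  constructor
  · rintro ⟨h1, h2, B, hB⟩
    exact ⟨h1, h2, zsol_of_board B hB⟩
  · rintro ⟨h1, h2, z, hz⟩
    exact ⟨h1, h2, board_of_zsol h2 hz⟩

end Pool.Agent.R554.Boggle
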