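import Pool.Agent.R554.KingRigid

/-!
# The frame is rigid
-/

set_option autoImplicit false

namespace Pool.Agent.R554.Boggle

/-- The cells of the frame: all cells of the board but those of the slots; there are `b` slots of
`C` cells each. -/
def Fr (b C n : ℕ) (u : ℤ × ℤ) : Prop :=
  0 ≤ u.1 ∧ u.1 < n ∧ 0 ≤ u.2 ∧ u.2 < n ∧
    ¬ (u.1 < 4 * b ∧ u.1 % 4 = 3 ∧ 3 ≤ u.2 ∧ u.2 < C + 3)

variable {b C n : ℕ} (hb : 4 * b + 3 ≤ n) (hC : C + 6 ≤ n) {p : ℤ × ℤ → ℤ × ℤ}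
  (hinj : ∀ u v, Fr b C n u → Fr b C n v → p u = p v → u = v)
  (hadj : ∀ u v, Fr b C n u → Fr b C n v → kadj u v = true → kadj (p u) (p v) = true)

include hinj hadj in
theorem step' {m : ℤ × ℤ × ℤ × ℤ} {o : ℤ × ℤ} (r c r' c' : ℤ)
    (hstep : (r' = r ∧ c' = c + 1) ∨ (r' = r + 1 ∧ c' = c))
    (hW : ∀ u, Win r' c' u → Fr b C n u)
    (h : ∀ u, Win r c u → p u = o + ap m u) : ∀ u, Win r' c' u → p u = o + ap m u :=
  step p r c r' c' hstep h (fun u v hu hv => hinj u v (hW u hu) (hW v hv))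
    (fun u v hu hv => hadj u v (hW u hu) (hW v hv))

include hb hC hinj hadj in
theorem frame : ∃ m ∈ mats, ∃ o : ℤ × ℤ, ∀ u, Fr b C n u → p u = o + ap m u := by
  have w0 : ∀ u, Win 0 0 u → Fr b C n u := by
    rintro ⟨x, y⟩ ⟨h1, h2, h3, h4⟩
    simp only [Fr] at *
    omega
  obtain ⟨m, hm, o, h0⟩ := window p 0 0 (fun u v hu hv => hinj u v (w0 u hu) (w0 v hv))
    (fun u v hu hv => hadj u v (w0 u hu) (w0 v hv))
  refine ⟨m, hm, o, ?_⟩
  have s1 : ∀ r : ℕ, r + 3 ≤ n → ∀ u, Win r 0 u → p u = o + ap m u := by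
    intro r
    induction r with
    | zero => intro _; exact_mod_cast h0
    | succ r ih =>
      intro hr
      refine step' hinj hadj (r : ℤ) 0 _ _ (Or.inr ⟨by push_cast; rfl, rfl⟩) ?_ (ih (by omega))
      rintro ⟨x, y⟩ ⟨h1, h2, h3, h4⟩
      simp only [Fr] at *
      push_cast at *
      omega
  have s2 : ∀ r : ℕ, r + 3 ≤ n → (r % 4 = 0 ∨ 4 * b ≤ r) → ∀ c : ℕ, c + 3 ≤ n →
      ∀ u, Win r c u → p u = o + ap m u := by
    intro r hr hr' c
    induction c with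
    | zero => intro _; exact_mod_cast s1 r hr
    | succ c ih =>
      intro hc
      refine step' hinj hadj (r : ℤ) (c : ℤ) _ _ (Or.inl ⟨rfl, by push_cast; rfl⟩) ?_
        (ih (by omega))
      rintro ⟨x, y⟩ ⟨h1, h2, h3, h4⟩
      simp only [Fr] at *
      push_cast at *
      omega
  have s3 : ∀ c : ℕ, c + 3 ≤ n → C + 3 ≤ c → ∀ r : ℕ, r + 3 ≤ n →
      ∀ u, Win r c u → p u = o + ap m u := by
    intro c hc hc' r
    induction r with
    | zero => intro hr; exact s2 0 hr (Or.inl rfl) c hc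
    | succ r ih =>
      intro hr
      refine step' hinj hadj (r : ℤ) (c : ℤ) _ _ (Or.inr ⟨by push_cast; rfl, rfl⟩) ?_
        (ih (by omega))
      rintro ⟨x, y⟩ ⟨h1, h2, h3, h4⟩
      simp only [Fr] at *
      push_cast at *
      omega
  rintro ⟨x, y⟩ ⟨h1, h2, h3, h4, h5⟩
  simp only at h1 h2 h3 h4 h5
  obtain ⟨x, rfl⟩ := Int.eq_ofNat_of_zero_le h1
  obtain ⟨y, rfl⟩ := Int.eq_ofNat_of_zero_le h3
  by_cases c1 : y ≤ 2
  · refine s1 (min x (n - 3)) (by omega) _ ?_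
    simp only [Win]
    omega
  by_cases c2 : C + 3 ≤ y
  · refine s3 (min y (n - 3)) (by omega) (by omega) (min x (n - 3)) (by omega) _ ?_
    simp only [Win]
    omega
  by_cases c3 : 4 * b ≤ x
  · refine s2 (min x (n - 3)) (by omega) (by omega) y (by omega) _ ?_
    simp only [Win]
    omega
  · refine s2 (4 * (x / 4)) (by omega) (by omega) y (by omega) _ ?_
    simp only [Win]
    omega

/-- The inverse of an isometry. -/
def inv (m : ℤ × ℤ × ℤ × ℤ) (o u : ℤ × ℤ) : ℤ × ℤ :=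
  (m.1 * (u.1 - o.1) + m.2.2.1 * (u.2 - o.2), m.2.1 * (u.1 - o.1) + m.2.2.2 * (u.2 - o.2))

theorem inv_ap {m : ℤ × ℤ × ℤ × ℤ} (hm : m ∈ mats) (o u : ℤ × ℤ) : inv m o (o + ap m u) = u := by
  simp only [mats, List.mem_cons, List.not_mem_nil, or_false] at hm
  obtain ⟨x, y⟩ := u
  obtain ⟨s, t⟩ := o
  rcases hm with rfl | rfl | rfl | rfl | rfl | rfl | rfl | rfl <;>
    simp [inv, ap]

theorem ap_inv {m : ℤ × ℤ × ℤ × ℤ} (hm : m ∈ mats) (o u : ℤ × ℤ) : o + ap m (inv m o u) = u := by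
  simp only [mats, List.mem_cons, List.not_mem_nil, or_false] at hm
  obtain ⟨x, y⟩ := u
  obtain ⟨s, t⟩ := o
  rcases hm with rfl | rfl | rfl | rfl | rfl | rfl | rfl | rfl <;>
    simp [inv, ap]

theorem inv_kadj {m : ℤ × ℤ × ℤ × ℤ} (hm : m ∈ mats) (o u v : ℤ × ℤ) (h : kadj u v = true) :
    kadj (inv m o u) (inv m o v) = true := by
  have hne : inv m o u ≠ inv m o v := by
    intro h'
    have h1 := ap_inv hm o u
    have h2 := ap_inv hm o v
    rw [kadj_iff] at h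
    apply h.1
    rw [← h1, ← h2, h']
  rw [kadj_iff] at h ⊢
  refine ⟨hne, ?_⟩
  obtain ⟨-, h1, h2, h3, h4⟩ := h
  simp only [mats, List.mem_cons, List.not_mem_nil, or_false] at hm
  rcases hm with rfl | rfl | rfl | rfl | rfl | rfl | rfl | rfl <;>
    simp only [inv] <;> omega

include hb hC in
/-- The isometry maps the board to itself. -/
theorem inv_board {m : ℤ × ℤ × ℤ × ℤ} (hm : m ∈ mats) {o : ℤ × ℤ}
    (hp : ∀ u, Fr b C n u → p u = o + ap m u)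
    (hr : ∀ u, Fr b C n u → 0 ≤ (p u).1 ∧ (p u).1 < n ∧ 0 ≤ (p u).2 ∧ (p u).2 < n) (v : ℤ × ℤ)
    (hv : 0 ≤ v.1 ∧ v.1 < n ∧ 0 ≤ v.2 ∧ v.2 < n) :
    0 ≤ (inv m o v).1 ∧ (inv m o v).1 < n ∧ 0 ≤ (inv m o v).2 ∧ (inv m o v).2 < n := by
  have c1 : Fr b C n (0, 0) := by simp only [Fr]; omega
  have c2 : Fr b C n (0, (n : ℤ) - 1) := by simp only [Fr]; omega
  have c3 : Fr b C n ((n : ℤ) - 1, 0) := by simp only [Fr]; omega
  have c4 : Fr b C n ((n : ℤ) - 1, (n : ℤ) - 1) := by simp only [Fr]; omega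
  have d1 := hr _ c1
  have d2 := hr _ c2
  have d3 := hr _ c3
  have d4 := hr _ c4
  rw [hp _ c1] at d1
  rw [hp _ c2] at d2
  rw [hp _ c3] at d3
  rw [hp _ c4] at d4
  obtain ⟨s, t⟩ := o
  obtain ⟨x, y⟩ := v
  simp only [mats, List.mem_cons, List.not_mem_nil, or_false] at hm
  rcases hm with rfl | rfl | rfl | rfl | rfl | rfl | rfl | rfl <;>
    simp [inv, ap] at * <;> omega

end Pool.Agent.R554.Boggle
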