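import Pool.Agent.R554.BoggleDef
import Pool.Agent.H43R3.SN.SRC
import Pool.Agent.H243R3.SN.Poly

/-!
# Boggle puzzles: NP-completeness
-/

set_option autoImplicit false

open Finset

namespace Pool.Agent.NPC.R554Boggle

open Pool.Agent.R554.Boggle
open Pool.Agent.NPC Pool.Agent.NPC.H632 Pool.Agent.H557R2.Tri Pool.Agent.H692R2
open Pool.Agent.H43R3.SN

/-! ### The labels -/

/-- The labels: `2 a_i` copies of `i`, for all `i`. -/
def labs (a : List ℕ) : List ℕ :=
  (List.range a.length).flatMap fun i => (List.range (2 * a.getD i 0)).map fun _ => i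

theorem labs_length (a : List ℕ) : (labs a).length = 2 * a.sum := by
  unfold labs
  rw [List.length_flatMap]
  simp only [List.length_map, List.length_range]
  induction a using List.reverseRecOn with
  | nil => rfl
  | append_singleton a x ih =>
    rw [List.length_append, List.length_singleton, List.range_succ, List.map_append,
      List.sum_append, List.map_singleton, List.sum_singleton, List.sum_append, List.sum_singleton,
      mul_add, ← ih]
    congr 1
    · congr 1
      refine List.map_congr_left fun i hi => ?_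
      rw [List.mem_range] at hi
      rw [List.getD_append _ _ _ _ hi]
    · rw [List.getD_append_right _ _ _ _ le_rfl, Nat.sub_self]
      rfl

theorem labs_sorted (a : List ℕ) : (labs a).Pairwise (· ≤ ·) := by
  unfold labs
  rw [List.pairwise_flatMap]
  constructor
  · intro i _
    rw [List.pairwise_map]
    exact List.Pairwise.imp (fun _ => le_rfl) (List.pairwise_lt_range)
  · refine List.Pairwise.imp ?_ (List.pairwise_lt_range)
    intro i j hij x hx y hy
    rw [List.mem_map] at hx hy
    obtain ⟨_, _, rfl⟩ := hx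
    obtain ⟨_, _, rfl⟩ := hy
    exact hij.le

theorem labs_count (a : List ℕ) (p : ℕ → Prop) [DecidablePred p] :
    ((labs a).filter (fun i => decide (p i))).length =
      2 * ∑ i ∈ (range a.length).filter p, a.getD i 0 := by
  unfold labs
  rw [List.filter_flatMap, List.length_flatMap, Finset.mul_sum, Finset.sum_filter,
    ← List.sum_toFinset _ List.nodup_range, List.toFinset_range]
  refine Finset.sum_congr rfl fun i _ => ?_
  split_ifs with h
  · rw [List.filter_eq_self.2, List.length_map, List.length_range]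
    intro x hx
    rw [List.mem_map] at hx
    obtain ⟨_, _, rfl⟩ := hx
    simpa using h
  · rw [List.filter_eq_nil_iff.2, List.length_nil]
    intro x hx
    rw [List.mem_map] at hx
    obtain ⟨_, _, rfl⟩ := hx
    simpa using h

theorem card_filter_getD (l : List ℕ) (p : ℕ → Prop) [DecidablePred p] :
    ((range l.length).filter (fun k => p (l.getD k 0))).card =
      (l.filter (fun i => decide (p i))).length := by
  induction l with
  | nil => rfl
  | cons x l ih =>
    rw [List.length_cons, Finset.card_filter, Finset.sum_range_succ']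
    simp only [List.getD_cons_succ, List.getD_cons_zero]
    rw [← Finset.card_filter, ih]
    by_cases h : p x <;> simp [h]

/-- **Bin packing and solutions.** -/
theorem bp_iff {a : List ℕ} {b B n : ℕ} (hb0 : 1 ≤ b) (hs : a.sum = b * B)
    (hb : 4 * b + 3 ≤ n) (hC : 2 * B + 6 ≤ n) :
    BPk a b B ↔ ∃ z, Sol n (R554.Boggle.EE b (2 * B) n (fun k => (labs a).getD k 0)) z := by
  classical
  have hlen : (labs a).length = b * (2 * B) := by rw [labs_length, hs]; ring
  have hcard : ∀ (F : ℕ → ℕ) (j : ℕ),
      ((range (b * (2 * B))).filter (fun k => F ((labs a).getD k 0) = j)).card =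
        2 * ∑ i ∈ (range a.length).filter (fun i => F i = j), a.getD i 0 := by
    intro F j
    rw [← hlen, card_filter_getD (labs a) (fun i => F i = j), labs_count a (fun i => F i = j)]
  have hmem : ∀ k < b * (2 * B), (labs a).getD k 0 < a.length := by
    intro k hk
    rw [List.getD_eq_getElem _ _ (by omega)]
    have h1 := List.getElem_mem (l := labs a) (n := k) (by omega)
    unfold labs at h1
    rw [List.mem_flatMap] at h1
    obtain ⟨i, hi, h2⟩ := h1
    rw [List.mem_map] at h2
    obtain ⟨_, _, h3⟩ := h2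
    rw [List.mem_range] at hi
    have h4 : (labs a)[k]'(by omega) = i := h3.symm
    rw [h4]
    exact hi
  constructor
  · rintro ⟨f, hf1, hf2⟩
    refine complete hb hC (F := f) ?_ ?_
    · intro k hk
      exact hf1 _ (hmem k hk)
    · intro j hj
      rw [hcard]
      have := hf2 j hj
      omega
  · rintro ⟨z, hz⟩
    obtain ⟨F, hF1, hF2⟩ := sound hb hC (L := fun k => (labs a).getD k 0) (z := z) (by
      intro k l hkl hl
      rcases Nat.lt_or_ge k l with h | h
      · have h1 := List.pairwise_iff_getElem.1 (labs_sorted a) k l (by omega) (by omega) h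
        show (labs a).getD k 0 ≤ (labs a).getD l 0
        rw [List.getD_eq_getElem _ _ (by omega), List.getD_eq_getElem _ _ (by omega)]
        exact h1
      · have : k = l := by omega
        rw [this]) hz
    refine ⟨fun i => if F i < b then F i else 0, ?_, ?_⟩
    · intro i _
      simp only
      split_ifs with h
      · exact h
      · omega
    · intro j hj
      have h1 := hF2 j hj
      have h2 : ((range (b * (2 * B))).filter (fun k => F ((labs a).getD k 0) = j)) =
          ((range (b * (2 * B))).filter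
            (fun k => (fun i => if F i < b then F i else 0) ((labs a).getD k 0) = j)) := by
        refine Finset.filter_congr fun k hk => ?_
        rw [mem_range] at hk
        simp only
        rw [if_pos (hF1 k hk)]
      rw [h2, hcard (fun i => if F i < b then F i else 0) j] at h1
      have h3 : 2 * ∑ i ∈ (range a.length).filter (fun i => (if F i < b then F i else 0) = j),
        a.getD i 0 ≤ 2 * B := h1
      exact Nat.le_of_mul_le_mul_left h3 (by norm_num)

/-! ### The instance -/

/-- The words of the frame. -/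
def fw (b C n : ℕ) : List (List ℕ) :=
  (List.range (n * n)).flatMap fun x =>
    ((List.range (n * n)).filter fun y => decide (frN b C n x) && decide (frN b C n y) &&
      decide (adjN n x y)).map fun y => [x + 1, y + 1]

/-- The words of the items. -/
def iw (b C n : ℕ) (l : List ℕ) : List (List ℕ) :=
  ((List.range (b * C)).filter fun k => decide (k + 1 < b * C) &&
    decide (l.getD k 0 = l.getD (k + 1) 0)).map fun k => [sl C n k + 1, sl C n (k + 1) + 1]

/-- The words. -/
def words (b C n : ℕ) (l : List ℕ) : List (List ℕ) := fw b C n ++ iw b C n l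

theorem mem_words {b C n : ℕ} {l : List ℕ} (hb : 4 * b + 3 ≤ n) (hC : C + 6 ≤ n) (w : List ℕ) :
    w ∈ words b C n l ↔ ∃ x y, x < n * n ∧ y < n * n ∧ w = [x + 1, y + 1] ∧
      R554.Boggle.EE b C n (fun k => l.getD k 0) x y := by
  unfold words fw iw R554.Boggle.EE
  simp only [List.mem_append, List.mem_flatMap, List.mem_map, List.mem_filter, List.mem_range,
    Bool.and_eq_true, decide_eq_true_eq]
  constructor
  · rintro (⟨x, hx, y, ⟨hy, ⟨h1, h2⟩, h3⟩, rfl⟩ | ⟨k, ⟨hk, h1, h2⟩, rfl⟩)
    · exact ⟨x, y, hx, hy, rfl, Or.inl ⟨h1, h2, h3⟩⟩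
    · exact ⟨_, _, sl_lt hb hC hk, sl_lt hb hC h1, rfl, Or.inr ⟨k, h1, h2, rfl, rfl⟩⟩
  · rintro ⟨x, y, hx, hy, rfl, (⟨h1, h2, h3⟩ | ⟨k, h1, h2, rfl, rfl⟩)⟩
    · exact Or.inl ⟨x, hx, y, ⟨hy, ⟨h1, h2⟩, h3⟩, rfl⟩
    · exact Or.inr ⟨k, ⟨by omega, h1, h2⟩, rfl⟩

theorem words_valid {b C n : ℕ} {l : List ℕ} (hb : 4 * b + 3 ≤ n) (hC : C + 6 ≤ n) :
    ∀ w ∈ words b C n l, IsWord n w := by
  intro w hw
  rw [mem_words hb hC] at hw
  obtain ⟨x, y, hx, hy, rfl, h⟩ := hw
  have hne : x ≠ y := by
    rcases h with ⟨_, _, h⟩ | ⟨k, h1, _, rfl, rfl⟩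
    · exact h.1
    · intro h
      have := sl_inj hC (show k < b * C by omega) h1 h
      omega
  refine ⟨by simp, by simpa using hne, ?_⟩
  intro z hz
  simp only [List.mem_cons, List.not_mem_nil, or_false] at hz
  rw [Set.mem_Icc, sq]
  rcases hz with rfl | rfl <;> omega

theorem zsol_words {b C n : ℕ} {l : List ℕ} (hb : 4 * b + 3 ≤ n) (hC : C + 6 ≤ n) (z : ℕ → ℕ) :
    ZSol n (words b C n l) z ↔ Sol n (R554.Boggle.EE b C n (fun k => l.getD k 0)) z := by
  constructor
  · rintro ⟨h1, h2, h3⟩
    refine ⟨h1, h2, fun x hx y hy hxy => ?_⟩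
    exact h3 _ ((mem_words hb hC _).2 ⟨x, y, hx, hy, rfl, hxy⟩) 0 (by simp)
  · rintro ⟨h1, h2, h3⟩
    refine ⟨h1, h2, fun w hw i hi => ?_⟩
    obtain ⟨x, y, hx, hy, rfl, h⟩ := (mem_words hb hC _).1 hw
    have h4 : i = 0 := by
      simp only [List.length_cons, List.length_nil] at hi
      omega
    subst h4
    exact h3 x hx y hy h

/-- The instance. -/
def inst (a : List ℕ) (b B : ℕ) : List Bool × List (List ℕ) :=
  ((List.range (4 * b + 2 * B + 6)).map (fun _ => true),
    words b (2 * B) (4 * b + 2 * B + 6) (labs a))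

theorem inst_iff {a : List ℕ} {b B : ℕ} (hb0 : 1 ≤ b) (hs : a.sum = b * B) :
    BoggleSolve (inst a b B) ↔ BPk a b B := by
  have hn : (inst a b B).1.length = 4 * b + 2 * B + 6 := by simp [inst]
  rw [boggle_iff, hn, bp_iff hb0 hs (n := 4 * b + 2 * B + 6) (by omega) (by omega)]
  constructor
  · rintro ⟨-, -, z, hz⟩
    exact ⟨z, (zsol_words (by omega) (by omega) z).1 hz⟩
  · rintro ⟨z, hz⟩
    exact ⟨by omega, words_valid (by omega) (by omega), z,
      (zsol_words (by omega) (by omega) z).2 hz⟩

/-! ### Polynomial time -/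

section

variable {α : Type} [TEnc α]

theorem poly_labs {a : α → List ℕ} {M : α → ℕ} (ha : Poly a) (hM : UPoly M)
    (h : ∀ x i, (a x).getD i 0 ≤ M x) : Poly (fun x => labs (a x)) := by
  unfold labs
  have r3 : Poly (fun x => List.range (a x).length) := (UPoly.length ha).range
  have r4 : Poly (fun p : α × ℕ => List.range (2 * (a p.1).getD p.2 0)) := by
    refine UPoly.range (UPoly.mul (UPoly.const 2) ?_)
    refine UPoly.of_le (n := fun p : α × ℕ => M p.1) ?_ (hM.comp (Poly.fst Poly.id))
      fun p => h p.1 p.2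
    exact Poly.getD (ha.comp (Poly.fst Poly.id)) (Poly.snd Poly.id) (Poly.const 0)
  refine Poly.flatMap (F := fun x i => (List.range (2 * (a x).getD i 0)).map (fun _ => i)) r3 ?_
  exact Poly.map (F := fun (p : α × ℕ) _ => p.2) r4 (by fun_prop)

theorem poly_frN {b C n x : α → ℕ} (hb : Poly b) (hC : Poly C) (hn : Poly n) (hx : Poly x) :
    Poly (fun s => decide (frN (b s) (C s) (n s) (x s))) := by
  have h : Poly (fun s => !(decide (x s / n s < 4 * b s) && decide (x s / n s % 4 = 3) &&
      decide (3 ≤ x s % n s) && decide (x s % n s < C s + 3))) := by fun_prop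
  refine h.congr fun s => ?_
  rw [Bool.eq_iff_iff, decide_eq_true_eq]
  simp only [frN, Bool.not_eq_true', Bool.and_eq_true, decide_eq_true_eq, ← Bool.not_eq_true,
    and_assoc]

theorem poly_adjN {n x y : α → ℕ} (hn : Poly n) (hx : Poly x) (hy : Poly y) :
    Poly (fun s => decide (adjN (n s) (x s) (y s))) := by
  have h : Poly (fun s => !decide (x s = y s) && (decide (x s / n s ≤ y s / n s + 1) &&
      (decide (y s / n s ≤ x s / n s + 1) && (decide (x s % n s ≤ y s % n s + 1) &&
      decide (y s % n s ≤ x s % n s + 1))))) := by fun_prop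
  refine h.congr fun s => ?_
  rw [Bool.eq_iff_iff, decide_eq_true_eq]
  simp only [adjN, Bool.not_eq_true', Bool.and_eq_true, decide_eq_true_eq,
    decide_eq_false_iff_not, ne_eq]

theorem poly_sl {C n k : α → ℕ} (hC : Poly C) (hn : Poly n) (hk : Poly k) :
    Poly (fun s => sl (C s) (n s) (k s)) := by
  unfold sl
  fun_prop

theorem poly_fw {b C n : α → ℕ} (hb : Poly b) (hC : Poly C) (hn : UPoly n) :
    Poly (fun s => fw (b s) (C s) (n s)) := by
  unfold fw
  have r : Poly (fun s => List.range (n s * n s)) := (UPoly.mul hn hn).range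
  have hn' := hn.toPoly
  refine Poly.flatMap (F := fun s x => ((List.range (n s * n s)).filter fun y =>
    decide (frN (b s) (C s) (n s) x) && decide (frN (b s) (C s) (n s) y) &&
      decide (adjN (n s) x y)).map fun y => [x + 1, y + 1]) r ?_
  refine Poly.map (F := fun (p : α × ℕ) y => [p.2 + 1, y + 1]) ?_ (by fun_prop)
  refine Poly.filter (p := fun (p : α × ℕ) y => decide (frN (b p.1) (C p.1) (n p.1) p.2) &&
    decide (frN (b p.1) (C p.1) (n p.1) y) && decide (adjN (n p.1) p.2 y))
    (r.comp (Poly.fst Poly.id)) ?_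
  have hi : Poly (fun p : (α × ℕ) × ℕ => p.1.2) := by fun_prop
  have hj : Poly (fun p : (α × ℕ) × ℕ => p.2) := by fun_prop
  have hx : Poly (fun p : (α × ℕ) × ℕ => p.1.1) := by fun_prop
  exact Poly.and (Poly.and (poly_frN (hb.comp hx) (hC.comp hx) (hn'.comp hx) hi)
    (poly_frN (hb.comp hx) (hC.comp hx) (hn'.comp hx) hj)) (poly_adjN (hn'.comp hx) hi hj)

theorem poly_iw {b C n : α → ℕ} {l : α → List ℕ} (hb : UPoly b) (hC : UPoly C) (hn : UPoly n)
    (hl : Poly l) : Poly (fun s => iw (b s) (C s) (n s) (l s)) := by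
  unfold iw
  have r : Poly (fun s => List.range (b s * C s)) := (UPoly.mul hb hC).range
  have hn' := hn.toPoly
  have hb' := hb.toPoly
  have hC' := hC.toPoly
  refine Poly.map (F := fun s k => [sl (C s) (n s) k + 1, sl (C s) (n s) (k + 1) + 1]) ?_ ?_
  · refine Poly.filter (p := fun s k => decide (k + 1 < b s * C s) &&
      decide ((l s).getD k 0 = (l s).getD (k + 1) 0)) r ?_
    have hk : Poly (fun p : α × ℕ => p.2) := by fun_prop
    have hx : Poly (fun p : α × ℕ => p.1) := by fun_prop
    exact Poly.and (Poly.decide_lt (Poly.add hk (Poly.const 1))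
      (Poly.mul (hb'.comp hx) (hC'.comp hx)))
      (Poly.decide_eq (Poly.getD (hl.comp hx) hk (Poly.const 0))
        (Poly.getD (hl.comp hx) (Poly.add hk (Poly.const 1)) (Poly.const 0)))
  · have hk : Poly (fun p : α × ℕ => p.2) := by fun_prop
    have hx : Poly (fun p : α × ℕ => p.1) := by fun_prop
    have h1 := poly_sl (hC'.comp hx) (hn'.comp hx) hk
    have h2 := poly_sl (hC'.comp hx) (hn'.comp hx) (Poly.add hk (Poly.const 1))
    exact Poly.cons (Poly.add h1 (Poly.const 1)) (Poly.cons (Poly.add h2 (Poly.const 1))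
      (Poly.const []))

theorem poly_inst {a : α → List ℕ} {b B M : α → ℕ} (ha : Poly a) (hb : UPoly b) (hB : UPoly B)
    (hM : UPoly M) (h : ∀ x i, (a x).getD i 0 ≤ M x) :
    Poly (fun x => inst (a x) (b x) (B x)) := by
  unfold inst
  have hn : UPoly (fun x => 4 * b x + 2 * B x + 6) :=
    UPoly.add (UPoly.add (UPoly.mul (UPoly.const 4) hb) (UPoly.mul (UPoly.const 2) hB))
      (UPoly.const 6)
  have hC : UPoly (fun x => 2 * B x) := UPoly.mul (UPoly.const 2) hB
  refine Poly.pair (Poly.map (F := fun _ _ => true) hn.range (by fun_prop)) ?_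
  unfold words
  exact Poly.append (poly_fw hb.toPoly hC.toPoly hn) (poly_iw hb hC hn (poly_labs ha hM h))

end

/-- The reduction. -/
def redB (I : List (ℕ × ℕ × ℕ) × ℕ) : List Bool × List (List ℕ) :=
  if Pool.Agent.NPC.SNP.tst I then
    inst (sizes (Pool.Agent.NPC.SNP.clip I)) (bb (Pool.Agent.NPC.SNP.clip I))
      (BB (Pool.Agent.NPC.SNP.clip I))
  else ([], [])

open Pool.Agent.NPC.SNP in
theorem poly_redB : Poly redB := by
  unfold redB
  have hs : Poly (fun I : List (ℕ × ℕ × ℕ) × ℕ => sizes (clip I)) := poly_sizes.comp poly_clip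
  exact Poly.ite poly_tst (poly_inst hs ubb uBB (UPoly.mul ubb uBB) fun I i =>
    (getD_le_sum _ i).trans (clip_tst I).1.le) (Poly.const _)

open Pool.Agent.NPC.SNP in
theorem redB_correct (I : List (ℕ × ℕ × ℕ) × ℕ) (hI : Pr I.1 I.2) :
    X3C I ↔ BoggleSolve (redB I) := by
  have hbd : bd I = I := by
    unfold bd
    rw [Nat.min_eq_left (q_le hI)]
  rw [Pool.Agent.H43R3.SN.SRC.taskSRC I hI]
  have hb : 1 ≤ bb I := by
    have := hI.ne
    have h2 : 0 < I.1.length := List.length_pos_iff.2 this
    unfold bb
    omega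
  by_cases ht : tst I
  · have hc : clip I = I := by unfold clip; rw [if_pos ht, hbd]
    have hs : (sizes I).sum = bb I * BB I := by
      unfold tst at ht
      rwa [hbd] at ht
    unfold redB
    rw [if_pos ht, hc, inst_iff hb hs]
    exact ⟨fun h => h.2, fun h => ⟨hs, h⟩⟩
  · unfold redB
    rw [if_neg ht]
    constructor
    · rintro ⟨h, -⟩
      exfalso
      apply ht
      unfold tst
      rw [hbd]
      exact h
    · rintro ⟨h, -⟩
      simp at h

theorem npHard_boggle : NPHardP BoggleSolve :=
  (Pool.Agent.H557R2.Tri.hardPr_X3Cr.trans (Pr' := fun _ => True) poly_redB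
    (fun _ _ => trivial) redB_correct).toHardI.toNPHardP

/-! ### Membership -/

/-- Word check. -/
def wordB (n : ℕ) (w : List ℕ) : Bool :=
  decide (2 ≤ w.length) && (List.range w.length).all (fun i => (List.range w.length).all fun j =>
    decide (i = j) || !decide (w.getD i 0 = w.getD j 0)) &&
    w.all fun x => decide (1 ≤ x) && decide (x ≤ n * n)

theorem nodup_chk (w : List ℕ) : ((List.range w.length).all (fun i =>
    (List.range w.length).all fun j => decide (i = j) || !decide (w.getD i 0 = w.getD j 0))) = true ↔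
      w.Nodup := by
  simp only [List.all_eq_true, List.mem_range, Bool.or_eq_true, decide_eq_true_eq,
    Bool.not_eq_true', decide_eq_false_iff_not]
  rw [List.nodup_iff_injective_getElem]
  constructor
  · intro h i j hij
    rcases h i.1 i.2 j.1 j.2 with h1 | h1
    · exact Fin.ext h1
    · exfalso
      rw [List.getD_eq_getElem _ _ i.2, List.getD_eq_getElem _ _ j.2] at h1
      exact h1 hij
  · intro h i hi j hj
    by_cases hij : i = j
    · exact Or.inl hij
    · right
      rw [List.getD_eq_getElem _ _ hi, List.getD_eq_getElem _ _ hj]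
      intro h1
      exact hij (congrArg Fin.val (h (a₁ := ⟨i, hi⟩) (a₂ := ⟨j, hj⟩) h1))

theorem wordB_iff (n : ℕ) (w : List ℕ) : wordB n w = true ↔ IsWord n w := by
  unfold wordB IsWord
  rw [Bool.and_eq_true, Bool.and_eq_true, nodup_chk, decide_eq_true_eq, and_assoc]
  refine and_congr_right fun _ => and_congr_right fun _ => ?_
  simp only [List.all_eq_true, Bool.and_eq_true, decide_eq_true_eq, Set.mem_Icc, sq]

/-- The verifier. -/
def chk (s : (List Bool × List (List ℕ)) × List ℕ) : Bool :=
  decide (1 ≤ s.1.1.length) && s.1.2.all (fun w => wordB s.1.1.length w) &&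
    decide (s.2.length = s.1.1.length * s.1.1.length) &&
    s.2.all (fun x => decide (x < s.1.1.length * s.1.1.length)) &&
    (List.range s.2.length).all (fun i => (List.range s.2.length).all fun j =>
      decide (i = j) || !decide (s.2.getD i 0 = s.2.getD j 0)) &&
    s.1.2.all fun w => (List.range w.length).all fun i => decide (w.length ≤ i + 1) ||
      decide (adjN s.1.1.length (s.2.getD (w.getD i 0 - 1) 0) (s.2.getD (w.getD (i + 1) 0 - 1) 0))

theorem poly_wordB {α : Type} [TEnc α] {n : α → ℕ} {w : α → List ℕ} (hn : Poly n) (hw : Poly w) :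
    Poly (fun s => wordB (n s) (w s)) := by
  unfold wordB
  have r : Poly (fun s => List.range (w s).length) := (UPoly.length hw).range
  refine Poly.and (Poly.and (by fun_prop) ?_) ?_
  · refine Poly.all (p := fun s i => (List.range (w s).length).all fun j =>
      decide (i = j) || !decide ((w s).getD i 0 = (w s).getD j 0)) r ?_
    refine Poly.all (p := fun (q : α × ℕ) j => decide (q.2 = j) ||
      !decide ((w q.1).getD q.2 0 = (w q.1).getD j 0)) (r.comp (Poly.fst Poly.id)) ?_
    have hi : Poly (fun p : (α × ℕ) × ℕ => p.1.2) := by fun_prop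
    have hj : Poly (fun p : (α × ℕ) × ℕ => p.2) := by fun_prop
    have hx : Poly (fun p : (α × ℕ) × ℕ => p.1.1) := by fun_prop
    have hwx := hw.comp hx
    exact Poly.or (Poly.decide_eq hi hj) (Poly.not (Poly.decide_eq
      (Poly.getD hwx hi (Poly.const 0)) (Poly.getD hwx hj (Poly.const 0))))
  · refine Poly.all (p := fun s x => decide (1 ≤ x) && decide (x ≤ n s * n s)) hw ?_
    have hi : Poly (fun p : α × ℕ => p.2) := by fun_prop
    have hn' := hn.comp (Poly.fst (Poly.id (α := α × ℕ)))
    exact Poly.and (Poly.decide_le (Poly.const 1) hi) (Poly.decide_le hi (Poly.mul hn' hn'))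

theorem chk_poly : Poly chk := by
  unfold chk
  have h1 : Poly (fun s : (List Bool × List (List ℕ)) × List ℕ => s.1.1.length) := by fun_prop
  have hz : Poly (fun s : (List Bool × List (List ℕ)) × List ℕ => s.2) := by fun_prop
  have hP : Poly (fun s : (List Bool × List (List ℕ)) × List ℕ => s.1.2) := by fun_prop
  have r : Poly (fun s : (List Bool × List (List ℕ)) × List ℕ => List.range s.2.length) :=
    (UPoly.length hz).range
  refine Poly.and (Poly.and (Poly.and (Poly.and (Poly.and (by fun_prop) ?_) (by fun_prop))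
    ?_) ?_) ?_
  · refine Poly.all (p := fun (s : (List Bool × List (List ℕ)) × List ℕ) w =>
      wordB s.1.1.length w) hP ?_
    exact poly_wordB (h1.comp (Poly.fst Poly.id)) (Poly.snd Poly.id)
  · refine Poly.all (p := fun (s : (List Bool × List (List ℕ)) × List ℕ) x =>
      decide (x < s.1.1.length * s.1.1.length)) hz ?_
    have h2 := h1.comp (Poly.fst (Poly.id (α := ((List Bool × List (List ℕ)) × List ℕ) × ℕ)))
    exact Poly.decide_lt (Poly.snd Poly.id) (Poly.mul h2 h2)
  · refine Poly.all (p := fun (s : (List Bool × List (List ℕ)) × List ℕ) i =>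
      (List.range s.2.length).all fun j =>
        decide (i = j) || !decide (s.2.getD i 0 = s.2.getD j 0)) r ?_
    refine Poly.all (p := fun (q : ((List Bool × List (List ℕ)) × List ℕ) × ℕ) j =>
      decide (q.2 = j) || !decide (q.1.2.getD q.2 0 = q.1.2.getD j 0))
      (r.comp (Poly.fst Poly.id)) ?_
    have hi : Poly (fun p : (((List Bool × List (List ℕ)) × List ℕ) × ℕ) × ℕ => p.1.2) := by
      fun_prop
    have hj : Poly (fun p : (((List Bool × List (List ℕ)) × List ℕ) × ℕ) × ℕ => p.2) := by
      fun_prop
    have hx : Poly (fun p : (((List Bool × List (List ℕ)) × List ℕ) × ℕ) × ℕ => p.1.1) := by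
      fun_prop
    have hwx := hz.comp hx
    exact Poly.or (Poly.decide_eq hi hj) (Poly.not (Poly.decide_eq
      (Poly.getD hwx hi (Poly.const 0)) (Poly.getD hwx hj (Poly.const 0))))
  · refine Poly.all (p := fun (s : (List Bool × List (List ℕ)) × List ℕ) w =>
      (List.range w.length).all fun i => decide (w.length ≤ i + 1) ||
      decide (adjN s.1.1.length (s.2.getD (w.getD i 0 - 1) 0)
        (s.2.getD (w.getD (i + 1) 0 - 1) 0))) hP ?_
    have r2 : Poly (fun q : ((List Bool × List (List ℕ)) × List ℕ) × List ℕ =>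
      List.range q.2.length) := (UPoly.length (Poly.snd Poly.id)).range
    refine Poly.all (p := fun (q : ((List Bool × List (List ℕ)) × List ℕ) × List ℕ) i =>
      decide (q.2.length ≤ i + 1) ||
      decide (adjN q.1.1.1.length (q.1.2.getD (q.2.getD i 0 - 1) 0)
        (q.1.2.getD (q.2.getD (i + 1) 0 - 1) 0))) r2 ?_
    have hi : Poly (fun p : (((List Bool × List (List ℕ)) × List ℕ) × List ℕ) × ℕ => p.2) := by
      fun_prop
    have hw : Poly (fun p : (((List Bool × List (List ℕ)) × List ℕ) × List ℕ) × ℕ => p.1.2) := by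
      fun_prop
    have hx : Poly (fun p : (((List Bool × List (List ℕ)) × List ℕ) × List ℕ) × ℕ => p.1.1) := by
      fun_prop
    have hi1 := Poly.add hi (Poly.const 1)
    refine Poly.or (Poly.decide_le (Poly.length hw) hi1) (poly_adjN (h1.comp hx) ?_ ?_)
    · exact Poly.getD (hz.comp hx) (Poly.sub (Poly.getD hw hi (Poly.const 0)) (Poly.const 1))
        (Poly.const 0)
    · exact Poly.getD (hz.comp hx) (Poly.sub (Poly.getD hw hi1 (Poly.const 0)) (Poly.const 1))
        (Poly.const 0)

theorem chk_iff (I : List Bool × List (List ℕ)) (z : List ℕ) : chk (I, z) = true ↔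
    1 ≤ I.1.length ∧ (∀ w ∈ I.2, IsWord I.1.length w) ∧ z.length = I.1.length * I.1.length ∧
      (∀ x ∈ z, x < I.1.length * I.1.length) ∧ z.Nodup ∧
      ∀ w ∈ I.2, ∀ i (h : i + 1 < w.length),
        adjN I.1.length (z.getD (w[i] - 1) 0) (z.getD (w[i + 1] - 1) 0) := by
  unfold chk
  simp only [Bool.and_eq_true, nodup_chk, and_assoc]
  simp only [decide_eq_true_eq, List.all_eq_true, wordB_iff, Bool.or_eq_true, List.mem_range]
  refine and_congr_right fun _ => and_congr_right fun _ => and_congr_right fun _ =>
    and_congr_right fun _ => and_congr_right fun _ => forall_congr' fun w => forall_congr' fun _ => ?_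
  constructor
  · intro h i hi
    have h1 := h i (by omega)
    rw [List.getD_eq_getElem _ _ (by omega : i < w.length), List.getD_eq_getElem _ _ hi] at h1
    rcases h1 with h1 | h1
    · omega
    · exact h1
  · intro h i hi
    by_cases h1 : w.length ≤ i + 1
    · exact Or.inl h1
    · right
      rw [List.getD_eq_getElem _ _ (by omega : i < w.length),
        List.getD_eq_getElem _ _ (by omega : i + 1 < w.length)]
      exact h i (by omega)

theorem boggle_iff_chk (I : List Bool × List (List ℕ)) : BoggleSolve I ↔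
    ∃ z : List ℕ, sz z ≤ ((Polynomial.X * Polynomial.X) * (Polynomial.C 4 *
      (Polynomial.X * Polynomial.X) + Polynomial.C 2) + Polynomial.C 1 :
      Polynomial ℕ).eval (sz I) ∧ chk (I, z) = true := by
  obtain ⟨u, P⟩ := I
  rw [boggle_iff]
  simp only [chk_iff]
  set n := u.length with hn
  constructor
  · rintro ⟨h1, h2, z, hz1, hz2, hz3⟩
    have hg : ∀ x < n * n, ((List.range (n * n)).map z).getD x 0 = z x := by
      intro x hx
      rw [List.getD_eq_getElem _ _ (by simpa using hx)]
      simp
    refine ⟨(List.range (n * n)).map z, ?_, h1, h2, by simp, ?_, ?_, ?_⟩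
    · have h3 := sz_le_length_mul ((List.range (n * n)).map z) (4 * (n * n) + 1) (by
        intro a ha
        rw [List.mem_map] at ha
        obtain ⟨x, hx, rfl⟩ := ha
        rw [List.mem_range] at hx
        have h4 := sz_nat_le (z x)
        have h5 : (z x).size ≤ z x := Nat.size_le.2 Nat.lt_two_pow_self
        have h6 := hz1 x hx
        omega)
      rw [List.length_map, List.length_range] at h3
      have h4 : n ≤ sz (u, P) := by
        have h5 := sz_listBool_ge u
        rw [sz_pair]
        omega
      have h5 : n * n ≤ sz (u, P) * sz (u, P) := Nat.mul_le_mul h4 h4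
      simp only [Polynomial.eval_add, Polynomial.eval_mul, Polynomial.eval_C, Polynomial.eval_X]
      calc _ ≤ n * n * (4 * (n * n) + 1 + 1) + 1 := h3
        _ ≤ _ := by
          have h6 : 4 * (n * n) + 1 + 1 ≤ 4 * (sz (u, P) * sz (u, P)) + 2 := by omega
          exact Nat.add_le_add_right (Nat.mul_le_mul h5 h6) 1
    · intro x hx
      rw [List.mem_map] at hx
      obtain ⟨y, hy, rfl⟩ := hx
      exact hz1 y (List.mem_range.1 hy)
    · refine List.Nodup.map_on ?_ List.nodup_range
      intro x hx y hy hxy
      exact hz2 x (List.mem_range.1 hx) y (List.mem_range.1 hy) hxy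
    · intro w hw i hi
      have h5 := (h2 w hw).2.2
      have h6 := h5 w[i] (List.getElem_mem _)
      have h7 := h5 w[i + 1] (List.getElem_mem _)
      rw [Set.mem_Icc, sq] at h6 h7
      rw [hg _ (by omega), hg _ (by omega)]
      exact hz3 w hw i hi
  · rintro ⟨z, -, h1, h2, h3, h4, h5, h6⟩
    refine ⟨h1, h2, fun x => z.getD x 0, ?_, ?_, h6⟩
    · intro x hx
      simp only
      rw [List.getD_eq_getElem _ _ (by omega)]
      exact h4 _ (List.getElem_mem _)
    · intro x hx y hy hxy
      simp only at hxy
      rw [List.getD_eq_getElem _ _ (by omega), List.getD_eq_getElem _ _ (by omega)] at hxy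
      exact (List.Nodup.getElem_inj_iff h5).1 hxy

theorem inNP_boggle : InNPP BoggleSolve := inNPP_of chk_poly _ boggle_iff_chk

end Pool.Agent.NPC.R554Boggle
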