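import Pool.Agent.R554.BoggleFrame

/-!
# Boggle puzzles and bin packing: correctness of the reduction
-/

set_option autoImplicit false

open Finset

namespace Pool.Agent.R554.Boggle

/-- adjacency of the cells with the numbers `x`, `y` -/
def adjN (n x y : ℕ) : Prop :=
  x ≠ y ∧ x / n ≤ y / n + 1 ∧ y / n ≤ x / n + 1 ∧ x % n ≤ y % n + 1 ∧ y % n ≤ x % n + 1

instance (n x y : ℕ) : Decidable (adjN n x y) := by unfold adjN; infer_instance

/-- the cell with the number `x` belongs to the frame -/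
def frN (b C n x : ℕ) : Prop :=
  ¬ (x / n < 4 * b ∧ x / n % 4 = 3 ∧ 3 ≤ x % n ∧ x % n < C + 3)

instance (b C n x : ℕ) : Decidable (frN b C n x) := by unfold frN; infer_instance

/-- the number of the `k`-th cell of the slots -/
def sl (C n k : ℕ) : ℕ := (4 * (k / C) + 3) * n + (3 + k % C)

/-- the cell with number `x` -/
def cell (n x : ℕ) : ℤ × ℤ := (((x / n : ℕ) : ℤ), ((x % n : ℕ) : ℤ))

/-- the number of a cell -/
def idx (n : ℕ) (u : ℤ × ℤ) : ℕ := u.1.toNat * n + u.2.toNat

theorem idx_lt {n : ℕ} {u : ℤ × ℤ} (h1 : u.1 < n) (h2 : u.2 < n) (h : 0 < n) :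
    idx n u < n * n := by
  unfold idx
  have h3 : u.1.toNat + 1 ≤ n := by omega
  have h4 : u.2.toNat < n := by omega
  calc u.1.toNat * n + u.2.toNat < u.1.toNat * n + n := by omega
    _ = (u.1.toNat + 1) * n := by ring
    _ ≤ n * n := Nat.mul_le_mul_right _ h3

theorem cell_idx {n : ℕ} {u : ℤ × ℤ} (h1 : 0 ≤ u.1) (h2 : 0 ≤ u.2) (h4 : u.2 < n) :
    cell n (idx n u) = u := by
  have hn : 0 < n := by omega
  unfold cell idx
  have e1 : (u.1.toNat * n + u.2.toNat) / n = u.1.toNat := by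
    rw [Nat.mul_comm, Nat.mul_add_div hn, Nat.div_eq_of_lt (by omega), add_zero]
  have e2 : (u.1.toNat * n + u.2.toNat) % n = u.2.toNat := by
    rw [Nat.mul_comm, Nat.mul_add_mod, Nat.mod_eq_of_lt (by omega)]
  rw [e1, e2]
  ext <;> simp <;> omega

theorem idx_cell (n x : ℕ) : idx n (cell n x) = x := by
  unfold cell idx
  simp only [Int.toNat_natCast]
  exact Nat.div_add_mod' x n

theorem cell_lt {n x : ℕ} (h : x < n * n) :
    0 ≤ (cell n x).1 ∧ (cell n x).1 < n ∧ 0 ≤ (cell n x).2 ∧ (cell n x).2 < n := by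
  have hn : 0 < n := Nat.pos_of_ne_zero (by rintro rfl; simp at h)
  have h1 : x / n < n := Nat.div_lt_of_lt_mul h
  have h2 := Nat.mod_lt x hn
  unfold cell
  simp only
  refine ⟨by positivity, by exact_mod_cast h1, by positivity, by exact_mod_cast h2⟩

theorem cell_inj {n x y : ℕ} (h : cell n x = cell n y) : x = y := by
  rw [← idx_cell n x, ← idx_cell n y, h]

theorem adjN_iff (n x y : ℕ) : adjN n x y ↔ kadj (cell n x) (cell n y) = true := by
  rw [kadj_iff, adjN]
  have h : cell n x ≠ cell n y ↔ x ≠ y :=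
    ⟨fun h h' => h (by rw [h']), fun h h' => h (cell_inj h')⟩
  rw [h]
  unfold cell
  simp only
  constructor
  · rintro ⟨h0, h1, h2, h3, h4⟩
    refine ⟨h0, ?_, ?_, ?_, ?_⟩ <;> omega
  · rintro ⟨h0, h1, h2, h3, h4⟩
    refine ⟨h0, ?_, ?_, ?_, ?_⟩ <;> omega

theorem frN_iff {b C n x : ℕ} (h : x < n * n) : frN b C n x ↔ Fr b C n (cell n x) := by
  obtain ⟨h1, h2, h3, h4⟩ := cell_lt h
  unfold frN Fr
  simp only [h1, h2, h3, h4, true_and]
  unfold cell
  simp only
  constructor
  · intro h' h''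
    apply h'
    omega
  · intro h' h''
    apply h'
    omega

/-- A solution of a set of linked pairs of letters: the cell `z x` of each letter `x + 1`. -/
structure Sol (n : ℕ) (E : ℕ → ℕ → Prop) (z : ℕ → ℕ) : Prop where
  lt : ∀ x < n * n, z x < n * n
  inj : ∀ x < n * n, ∀ y < n * n, z x = z y → x = y
  adj : ∀ x < n * n, ∀ y < n * n, E x y → adjN n (z x) (z y)

/-- The linked pairs of the instance made from the labels `L`. -/
def EE (b C n : ℕ) (L : ℕ → ℕ) (x y : ℕ) : Prop :=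
  (frN b C n x ∧ frN b C n y ∧ adjN n x y) ∨
    ∃ k, k + 1 < b * C ∧ L k = L (k + 1) ∧ x = sl C n k ∧ y = sl C n (k + 1)

section

variable {b C n : ℕ} (hb : 4 * b + 3 ≤ n) (hC : C + 6 ≤ n)

include hC in
theorem cell_sl {k : ℕ} (hk : k < b * C) :
    cell n (sl C n k) = (((4 * (k / C) + 3 : ℕ) : ℤ), ((3 + k % C : ℕ) : ℤ)) := by
  have hC0 : 0 < C := Nat.pos_of_ne_zero (by rintro rfl; simp at hk)
  have h1 := Nat.mod_lt k hC0
  have hn : 0 < n := by omega
  have h3 : 3 + k % C < n := by omega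
  have e1 : ((4 * (k / C) + 3) * n + (3 + k % C)) / n = 4 * (k / C) + 3 := by
    rw [Nat.mul_comm (4 * (k / C) + 3) n, Nat.mul_add_div hn, Nat.div_eq_of_lt h3, add_zero]
  have e2 : ((4 * (k / C) + 3) * n + (3 + k % C)) % n = 3 + k % C := by
    rw [Nat.mul_comm (4 * (k / C) + 3) n, Nat.mul_add_mod, Nat.mod_eq_of_lt h3]
  unfold cell sl
  rw [e1, e2]

theorem div_lt {k : ℕ} (hk : k < b * C) : k / C < b :=
  Nat.div_lt_of_lt_mul (by rwa [mul_comm])

include hb hC in
theorem sl_lt {k : ℕ} (hk : k < b * C) : sl C n k < n * n := by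
  have hC0 : 0 < C := Nat.pos_of_ne_zero (by rintro rfl; simp at hk)
  have h1 := Nat.mod_lt k hC0
  have h2 := div_lt hk
  unfold sl
  calc (4 * (k / C) + 3) * n + (3 + k % C) < (4 * (k / C) + 3) * n + n := by omega
    _ = (4 * (k / C) + 3 + 1) * n := by ring
    _ ≤ n * n := Nat.mul_le_mul_right _ (by omega)

include hC in
theorem sl_inj {k l : ℕ} (hk : k < b * C) (hl : l < b * C) (h : sl C n k = sl C n l) : k = l := by
  have h1 := cell_sl hC hk
  rw [h, cell_sl hC hl, Prod.mk.injEq] at h1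
  have h2 : l / C = k / C := by omega
  have h3 : l % C = k % C := by omega
  rw [← Nat.div_add_mod k C, ← Nat.div_add_mod l C, h2, h3]

include hb hC in
theorem sl_not_fr {k : ℕ} (hk : k < b * C) : ¬ frN b C n (sl C n k) := by
  have hC0 : 0 < C := Nat.pos_of_ne_zero (by rintro rfl; simp at hk)
  have h1 := Nat.mod_lt k hC0
  have h2 := div_lt hk
  rw [frN_iff (sl_lt hb hC hk), cell_sl hC hk]
  unfold Fr
  simp only
  push_cast
  omega

/-- the slot coordinates of a cell outside the frame -/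
theorem of_not_fr {u : ℤ × ℤ} (h : 0 ≤ u.1 ∧ u.1 < n ∧ 0 ≤ u.2 ∧ u.2 < n) (h' : ¬ Fr b C n u) :
    u.1 < 4 * b ∧ u.1 % 4 = 3 ∧ 3 ≤ u.2 ∧ u.2 < C + 3 := by
  unfold Fr at h'
  by_contra hc
  exact h' ⟨h.1, h.2.1, h.2.2.1, h.2.2.2, hc⟩

include hb hC in
/-- **Soundness.** -/
theorem sound {L z : ℕ → ℕ} (hL : ∀ k l, k ≤ l → l < b * C → L k ≤ L l)
    (h : Sol n (EE b C n L) z) :
    ∃ F : ℕ → ℕ, (∀ k < b * C, F (L k) < b) ∧
      ∀ j < b, ((range (b * C)).filter (fun k => F (L k) = j)).card ≤ C := by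
  classical
  have hn : 0 < n := by omega
  set p : ℤ × ℤ → ℤ × ℤ := fun u => cell n (z (idx n u)) with hp
  have fr_idx : ∀ u, Fr b C n u → idx n u < n * n ∧ cell n (idx n u) = u := by
    intro u hu
    unfold Fr at hu
    exact ⟨idx_lt hu.2.1 hu.2.2.2.1 hn, cell_idx hu.1 hu.2.2.1 hu.2.2.2.1⟩
  have hinj : ∀ u v, Fr b C n u → Fr b C n v → p u = p v → u = v := by
    intro u v hu hv huv
    obtain ⟨a1, a2⟩ := fr_idx u hu
    obtain ⟨b1, b2⟩ := fr_idx v hv
    rw [← a2, ← b2, h.inj _ a1 _ b1 (cell_inj huv)]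
  have hadj : ∀ u v, Fr b C n u → Fr b C n v → kadj u v = true → kadj (p u) (p v) = true := by
    intro u v hu hv huv
    obtain ⟨a1, a2⟩ := fr_idx u hu
    obtain ⟨b1, b2⟩ := fr_idx v hv
    have := h.adj _ a1 _ b1 (Or.inl ⟨(frN_iff a1).2 (by rwa [a2]), (frN_iff b1).2 (by rwa [b2]),
      (adjN_iff _ _ _).2 (by rwa [a2, b2])⟩)
    exact (adjN_iff _ _ _).1 this
  obtain ⟨m, hm, o, hpm⟩ := frame hb hC hinj hadj
  set q : ℕ → ℤ × ℤ := fun k => inv m o (cell n (z (sl C n k))) with hq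
  have hqb : ∀ k < b * C, 0 ≤ (q k).1 ∧ (q k).1 < n ∧ 0 ≤ (q k).2 ∧ (q k).2 < n := by
    intro k hk
    refine inv_board hb hC hm hpm ?_ _ (cell_lt (h.lt _ (sl_lt hb hC hk)))
    intro u hu
    exact cell_lt (h.lt _ (fr_idx u hu).1)
  have hqf : ∀ k < b * C, ¬ Fr b C n (q k) := by
    intro k hk hf
    have h1 := hpm _ hf
    rw [hq] at h1
    simp only at h1
    rw [ap_inv hm] at h1
    have h2 := h.inj _ (fr_idx _ hf).1 _ (sl_lt hb hC hk) (cell_inj h1)
    have h3 := (fr_idx _ hf).2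
    have h4 := sl_not_fr hb hC hk
    rw [frN_iff (sl_lt hb hC hk), ← h2, h3] at h4
    exact h4 hf
  have hqs : ∀ k < b * C, (q k).1 < 4 * b ∧ (q k).1 % 4 = 3 ∧ 3 ≤ (q k).2 ∧ (q k).2 < C + 3 :=
    fun k hk => of_not_fr (hqb k hk) (hqf k hk)
  have hqi : ∀ k < b * C, ∀ l < b * C, q k = q l → k = l := by
    intro k hk l hl hkl
    have h1 : cell n (z (sl C n k)) = cell n (z (sl C n l)) := by
      rw [← ap_inv hm o (cell n (z (sl C n k))), ← ap_inv hm o (cell n (z (sl C n l)))]
      rw [hq] at hkl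
      simp only at hkl
      rw [hkl]
    exact sl_inj hC hk hl (h.inj _ (sl_lt hb hC hk) _ (sl_lt hb hC hl) (cell_inj h1))
  set G : ℕ → ℕ := fun k => ((q k).1 / 4).toNat with hG
  have hG1 : ∀ k, k + 1 < b * C → L k = L (k + 1) → G k = G (k + 1) := by
    intro k hk hkL
    have h1 := h.adj _ (sl_lt hb hC (k := k) (by omega)) _ (sl_lt hb hC hk)
      (Or.inr ⟨k, hk, hkL, rfl, rfl⟩)
    rw [adjN_iff] at h1
    have h2 := inv_kadj hm o _ _ h1
    have h3 := hqs k (by omega)
    have h4 := hqs (k + 1) hk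
    have h5 : kadj (q k) (q (k + 1)) = true := h2
    rw [kadj_iff] at h5
    rw [hG]
    simp only
    congr 1
    omega
  have hG2 : ∀ k l, k ≤ l → l < b * C → L k = L l → G k = G l := by
    intro k l hkl
    induction l, hkl using Nat.le_induction with
    | base => intro _ _; rfl
    | succ l hkl ih =>
      intro hl he
      have h1 := hL k l hkl (by omega)
      have h2 := hL l (l + 1) (by omega) hl
      rw [ih (by omega) (by omega)]
      exact hG1 l hl (by omega)
  let F : ℕ → ℕ := fun i => if hi : ∃ k, k < b * C ∧ L k = i then G (Nat.find hi) else 0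
  have hF : ∀ k < b * C, F (L k) = G k := by
    intro k hk
    have hi : ∃ k', k' < b * C ∧ L k' = L k := ⟨k, hk, rfl⟩
    show (if hi : ∃ k', k' < b * C ∧ L k' = L k then G (Nat.find hi) else 0) = G k
    rw [dif_pos hi]
    have h1 := Nat.find_spec hi
    have h2 : Nat.find hi ≤ k := Nat.find_min' hi ⟨hk, rfl⟩
    exact hG2 _ _ h2 hk h1.2
  refine ⟨F, ?_, ?_⟩
  · intro k hk
    rw [hF k hk]
    have h1 := hqs k hk
    have h2 := hqb k hk
    rw [hG]
    simp only
    omega
  · intro j hj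
    have h1 : ((range (b * C)).filter (fun k => F (L k) = j)).card ≤ (range C).card := by
      refine Finset.card_le_card_of_injOn (fun k => ((q k).2 - 3).toNat) ?_ ?_
      · intro k hk
        rw [mem_coe, mem_filter, mem_range] at hk
        have h2 := hqs k hk.1
        rw [mem_coe, mem_range]
        show ((q k).2 - 3).toNat < C
        omega
      · intro k hk l hl hkl
        rw [mem_coe, mem_filter, mem_range] at hk hl
        have h2 := hqs k hk.1
        have h3 := hqs l hl.1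
        have h4 := hqb k hk.1
        have h5 := hqb l hl.1
        have h6 : G k = G l := by rw [← hF k hk.1, ← hF l hl.1, hk.2, hl.2]
        simp only [hG] at h6
        simp only at hkl
        refine hqi k hk.1 l hl.1 (Prod.ext ?_ ?_)
        · omega
        · omega
    rwa [card_range] at h1

/-! ### Completeness -/

/-- the position of `k` in its bin -/
def rk (N : ℕ) (G : ℕ → ℕ) (k : ℕ) : ℕ := ((range N).filter (fun l => l < k ∧ G l = G k)).card

theorem rk_lt {N : ℕ} {G : ℕ → ℕ} {k : ℕ} (hk : k < N) :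
    rk N G k < ((range N).filter (fun l => G l = G k)).card := by
  refine Finset.card_lt_card ?_
  rw [Finset.ssubset_iff_of_subset (fun l hl => by
    rw [mem_filter] at hl ⊢
    exact ⟨hl.1, hl.2.2⟩)]
  refine ⟨k, ?_, ?_⟩
  · rw [mem_filter, mem_range]; exact ⟨hk, rfl⟩
  · rw [mem_filter]; intro h; omega

theorem rk_mono {N : ℕ} {G : ℕ → ℕ} {k l : ℕ} (hl : k < N) (hkl : k < l) (h : G k = G l) :
    rk N G k < rk N G l := by
  refine Finset.card_lt_card ?_
  rw [Finset.ssubset_iff_of_subset (fun i hi => by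
    rw [mem_filter] at hi ⊢
    exact ⟨hi.1, by omega, by rw [hi.2.2, h]⟩)]
  refine ⟨k, ?_, ?_⟩
  · rw [mem_filter, mem_range]; exact ⟨hl, hkl, h⟩
  · rw [mem_filter]; intro h; omega

theorem rk_succ {N : ℕ} {G : ℕ → ℕ} {k : ℕ} (hk : k + 1 < N) (h : G k = G (k + 1)) :
    rk N G (k + 1) = rk N G k + 1 := by
  unfold rk
  have : (range N).filter (fun l => l < k + 1 ∧ G l = G (k + 1)) =
      insert k ((range N).filter (fun l => l < k ∧ G l = G k)) := by
    ext l
    rw [mem_insert, mem_filter, mem_filter, mem_range, ← h]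
    constructor
    · rintro ⟨h1, h2, h3⟩
      rcases Nat.lt_succ_iff_lt_or_eq.1 h2 with h4 | h4
      · exact Or.inr ⟨h1, h4, h3⟩
      · exact Or.inl h4
    · rintro (rfl | ⟨h1, h2, h3⟩)
      · exact ⟨by omega, by omega, rfl⟩
      · exact ⟨h1, by omega, h3⟩
  rw [this, Finset.card_insert_of_notMem]
  rw [mem_filter]
  intro h
  omega

include hb hC in
/-- **Completeness.** -/
theorem complete {L : ℕ → ℕ} {F : ℕ → ℕ} (hF1 : ∀ k < b * C, F (L k) < b)
    (hF2 : ∀ j < b, ((range (b * C)).filter (fun k => F (L k) = j)).card ≤ C) :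
    ∃ z, Sol n (EE b C n L) z := by
  classical
  have hn : 0 < n := by omega
  set G : ℕ → ℕ := fun k => F (L k) with hG
  set hh : ℕ → ℕ := fun k => G k * C + rk (b * C) G k with hhh
  have hr : ∀ k < b * C, rk (b * C) G k < C := fun k hk =>
    lt_of_lt_of_le (rk_lt hk) (hF2 _ (hF1 k hk))
  have hlt : ∀ k < b * C, hh k < b * C := by
    intro k hk
    have h1 := hr k hk
    have h2 : G k + 1 ≤ b := hF1 k hk
    calc hh k < G k * C + C := by rw [hhh]; simp only; omega
      _ = (G k + 1) * C := by ring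
      _ ≤ b * C := Nat.mul_le_mul_right _ h2
  have hdiv : ∀ k < b * C, hh k / C = G k ∧ hh k % C = rk (b * C) G k := by
    intro k hk
    have h1 := hr k hk
    have hC0 : 0 < C := by omega
    have e1 : (G k * C + rk (b * C) G k) / C = G k := by
      rw [Nat.mul_comm, Nat.mul_add_div hC0, Nat.div_eq_of_lt h1, add_zero]
    have e2 : (G k * C + rk (b * C) G k) % C = rk (b * C) G k := by
      rw [Nat.mul_comm, Nat.mul_add_mod, Nat.mod_eq_of_lt h1]
    exact ⟨e1, e2⟩
  have hhinj : ∀ k < b * C, ∀ l < b * C, hh k = hh l → k = l := by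
    intro k hk l hl hkl
    have h1 := hdiv k hk
    have h2 := hdiv l hl
    rw [hkl] at h1
    have h3 : G k = G l := by rw [← h1.1, ← h2.1]
    have h4 : rk (b * C) G k = rk (b * C) G l := by rw [← h1.2, ← h2.2]
    rcases lt_trichotomy k l with h5 | h5 | h5
    · have := rk_mono hk h5 h3
      omega
    · exact h5
    · have := rk_mono hl h5 h3.symm
      omega
  -- the slot index of a cell
  set si : ℕ → ℕ := fun x => (x / n / 4) * C + (x % n - 3) with hsi
  have hsi1 : ∀ x < n * n, ¬ frN b C n x → si x < b * C ∧ sl C n (si x) = x := by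
    intro x hx hf
    unfold frN at hf
    rw [not_not] at hf
    obtain ⟨h1, h2, h3, h4⟩ := hf
    have h5 : x / n / 4 + 1 ≤ b := by omega
    have h6 : x % n - 3 < C := by omega
    have h7 : si x < b * C := by
      calc si x < x / n / 4 * C + C := by rw [hsi]; simp only; omega
        _ = (x / n / 4 + 1) * C := by ring
        _ ≤ b * C := Nat.mul_le_mul_right _ h5
    refine ⟨h7, ?_⟩
    have hC0 : 0 < C := by omega
    have e1 : (x / n / 4 * C + (x % n - 3)) / C = x / n / 4 := by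
      rw [Nat.mul_comm, Nat.mul_add_div hC0, Nat.div_eq_of_lt h6, add_zero]
    have e2 : (x / n / 4 * C + (x % n - 3)) % C = x % n - 3 := by
      rw [Nat.mul_comm, Nat.mul_add_mod, Nat.mod_eq_of_lt h6]
    show (4 * ((x / n / 4 * C + (x % n - 3)) / C) + 3) * n +
      (3 + (x / n / 4 * C + (x % n - 3)) % C) = x
    rw [e1, e2]
    have e3 : 4 * (x / n / 4) + 3 = x / n := by omega
    have e4 : 3 + (x % n - 3) = x % n := by omega
    rw [e3, e4]
    exact Nat.div_add_mod' x n
  set z : ℕ → ℕ := fun x => if frN b C n x then x else sl C n (hh (si x)) with hz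
  have hzsl : ∀ k < b * C, z (sl C n k) = sl C n (hh k) := by
    intro k hk
    rw [hz]
    simp only
    rw [if_neg (sl_not_fr hb hC hk)]
    obtain ⟨h1, h2⟩ := hsi1 _ (sl_lt hb hC hk) (sl_not_fr hb hC hk)
    rw [sl_inj hC h1 hk h2]
  refine ⟨z, ?_, ?_, ?_⟩
  · intro x hx
    rw [hz]
    simp only
    split_ifs with hf
    · exact hx
    · exact sl_lt hb hC (hlt _ (hsi1 x hx hf).1)
  · intro x hx y hy hxy
    rw [hz] at hxy
    simp only at hxy
    split_ifs at hxy with hf hg hg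
    · exact hxy
    · exfalso
      exact sl_not_fr hb hC (hlt _ (hsi1 y hy hg).1) (by rw [← hxy]; exact hf)
    · exfalso
      exact sl_not_fr hb hC (hlt _ (hsi1 x hx hf).1) (by rw [hxy]; exact hg)
    · have h1 := sl_inj hC (hlt _ (hsi1 x hx hf).1) (hlt _ (hsi1 y hy hg).1) hxy
      have h2 := hhinj _ (hsi1 x hx hf).1 _ (hsi1 y hy hg).1 h1
      rw [← (hsi1 x hx hf).2, ← (hsi1 y hy hg).2, h2]
  · rintro x hx y hy (⟨h1, h2, h3⟩ | ⟨k, hk, hkL, rfl, rfl⟩)
    · rw [hz]
      simp only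
      rw [if_pos h1, if_pos h2]
      exact h3
    · rw [hzsl k (by omega), hzsl (k + 1) hk, adjN_iff, cell_sl hC (hlt k (by omega)),
        cell_sl hC (hlt (k + 1) hk), kadj_iff, (hdiv k (by omega)).1, (hdiv k (by omega)).2,
        (hdiv (k + 1) hk).1, (hdiv (k + 1) hk).2]
      have h1 : G k = G (k + 1) := by rw [hG]; simp only; rw [hkL]
      rw [rk_succ hk h1, ← h1]
      refine ⟨?_, ?_, ?_, ?_, ?_⟩
      · rw [ne_eq, Prod.mk.injEq]
        push_cast
        omega
      all_goals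
        push_cast
        omega

end

end Pool.Agent.R554.Boggle
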