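import Pool.Agent.NPC.Dec
import Pool.Agent.H671R2.PolyAuto

/-!
# A `coNP`-hard problem in `P` gives `P = NP`
-/

set_option autoImplicit false

namespace Pool.Agent.R554

open Pool.Agent.NPC

/-- `P` is closed under complements. -/
theorem InP.compl {L : Set (List Bool)} (h : InP Lᶜ) : InP L := by
  obtain ⟨V, hV, hVL⟩ := h
  have hg : Poly (fun y : List Bool => !decide (y = [true])) := by fun_prop
  refine ⟨_, polyTime_test hV hg, fun x => ?_⟩
  have h1 := hVL x
  by_cases hx : x ∈ L
  · have : V x ≠ [true] := fun h => (h1.2 h) hx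
    simp [hx, this]
  · have : V x = [true] := h1.1 hx
    simp [hx, this]

/-- If a `coNP`-hard language is in `P` then all of `NP` is in `P`. -/
theorem CoNPHard.collapse {L : Set (List Bool)} (h : CoNPHard L) (h' : InP L) :
    ∀ L' : Set (List Bool), InNP L' → InP L' := by
  intro L' hL'
  have h1 : InCoNP L'ᶜ := by
    unfold InCoNP
    rwa [compl_compl]
  exact InP.compl (InP.of_reduces (h _ h1) h')

end Pool.Agent.R554
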