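import Pool.Agent.Helper743.Lim

set_option autoImplicit false

/-! A 1-generic set below the halting problem, and functions recursive in it which are bounds. -/

namespace Pool.Agent.R554

open Nat.Partrec (Code)
open Nat.Partrec.Code

/-! ### Bounded quantifiers, search, boolean combinators -/

/-- bounded universal quantifier -/
def ball (n : ℕ) (q : ℕ → Bool) : Bool :=
  Nat.rec (motive := fun _ => Bool) true (fun k acc => acc && q k) n

theorem ball_iff (n : ℕ) (q : ℕ → Bool) : ball n q = true ↔ ∀ k < n, q k = true := by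
  induction n with
  | zero => simp [ball]
  | succ n ih =>
    have : ball (n + 1) q = (ball n q && q n) := rfl
    rw [this, Bool.and_eq_true, ih]
    constructor
    · rintro ⟨h1, h2⟩ k hk
      rcases Nat.lt_succ_iff_lt_or_eq.1 hk with h | h
      · exact h1 k h
      · exact h ▸ h2
    · intro h
      exact ⟨fun k hk => h k (Nat.lt_succ_of_lt hk), h n (Nat.lt_succ_self n)⟩

section combinators

variable {α : Type} [Primcodable α]

theorem cand {f g : α → Bool} (hf : Computable f) (hg : Computable g) :
    Computable fun a => f a && g a := Primrec.and.to_comp.comp hf hg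

theorem cor {f g : α → Bool} (hf : Computable f) (hg : Computable g) :
    Computable fun a => f a || g a := Primrec.or.to_comp.comp hf hg

theorem cnot {f : α → Bool} (hf : Computable f) : Computable fun a => !(f a) :=
  Primrec.not.to_comp.comp hf

theorem ball_comp {g : α → ℕ} {q : α → ℕ → Bool}
    (hg : Computable g) (hq : Computable₂ q) : Computable fun a => ball (g a) (q a) := by
  have h1 : Computable fun p : α × ℕ × Bool => p.2.2 := Computable.snd.comp Computable.snd
  have h2 : Computable fun p : α × ℕ × Bool => q p.1 p.2.1 :=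
    hq.comp Computable.fst (Computable.fst.comp Computable.snd)
  have h3 : Computable₂ fun (a : α) (p : ℕ × Bool) => p.2 && q a p.1 :=
    (Primrec.and.to_comp.comp h1 h2).to₂
  exact (Computable.nat_rec hg (Computable.const true) h3).of_eq fun a => rfl

theorem find_comp' {q : α → ℕ → Bool} (hq : Computable₂ q)
    (H : ∀ a, ∃ n, q a n = true) : Computable fun a => Nat.find (H a) := by
  classical
  have hP : ComputablePred (fun p : α × ℕ => q p.1 p.2 = true) :=
    Computable.computablePred (by
      have : Computable fun p : α × ℕ => q p.1 p.2 := hq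
      simpa using this)
  have := Computable.find (P := fun a n => q a n = true) hP H
  refine this.of_eq fun a => ?_
  congr

theorem clt {f g : α → ℕ} (hf : Computable f) (hg : Computable g) :
    Computable fun a => decide (f a < g a) := by
  have : Primrec₂ fun m n : ℕ => decide (m < n) := Primrec.nat_lt.decide
  exact this.to_comp.comp hf hg

theorem re_ex {q : α → ℕ → Bool} (hq : Computable₂ q) : REPred fun a => ∃ n, q a n = true := by
  have h1 : Partrec fun a : α => Nat.rfind fun n => (Part.some (q a n) : Part Bool) :=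
    Partrec.rfind hq.partrec
  refine (h1.dom_re).of_eq fun a => ?_
  refine Nat.rfind_dom.trans ?_
  constructor
  · rintro ⟨n, hn, _⟩
    exact ⟨n, (Part.mem_some_iff.1 hn).symm⟩
  · rintro ⟨n, hn⟩
    exact ⟨n, by rw [hn]; exact Part.mem_some _, fun _ => trivial⟩

end combinators

/-! ### Initial segments -/

/-- The initial segment of length `n` of an infinite sequence. -/
def seg {α : Type} (X : ℕ → α) (n : ℕ) : List α := (List.range n).map X

theorem seg_length {α : Type} (X : ℕ → α) (n : ℕ) : (seg X n).length = n := by simp [seg]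

theorem seg_succ {α : Type} (X : ℕ → α) (n : ℕ) : seg X (n + 1) = seg X n ++ [X n] := by
  simp [seg, List.range_succ]

theorem seg_get {α : Type} (X : ℕ → α) {n k : ℕ} (h : k < n) : (seg X n)[k]? = some (X k) := by
  simp [seg, h]

theorem seg_mono {α : Type} (X : ℕ → α) {m n : ℕ} (h : m ≤ n) : seg X m <+: seg X n := by
  induction n with
  | zero => rw [Nat.le_zero.1 h]
  | succ n ih =>
    rcases Nat.lt_or_eq_of_le h with h' | rfl
    · rw [seg_succ]
      exact (ih (Nat.lt_succ_iff.1 h')).trans (List.prefix_append _ _)
    · exact List.prefix_rfl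

theorem seg_comp {β : Type} [Primcodable β] {X : ℕ → β} (hX : Computable X) :
    Computable (seg X) := by
  have h1 : Computable₂ fun (_ : ℕ) (p : ℕ × List β) => p.2 ++ [X p.1] :=
    (Computable.list_append.comp (Computable.snd.comp Computable.snd)
      (Computable.list_cons.comp (hX.comp (Computable.fst.comp Computable.snd))
        (Computable.const []))).to₂
  refine (Computable.nat_rec Computable.id (Computable.const ([] : List β)) h1).of_eq fun n => ?_
  induction n with
  | zero => rfl
  | succ n ih =>
    rw [seg_succ, ← ih]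
    rfl

/-- `G` is 1-generic: for every c.e. set `W` of strings, some initial segment of `G` is in `W` or
some initial segment of `G` has no extension in `W`. -/
def OneGeneric (G : ℕ → Bool) : Prop :=
  ∀ W : Set (List Bool), REPred (fun σ => σ ∈ W) →
    (∃ n, seg G n ∈ W) ∨ (∃ n, ∀ τ ∈ W, ¬ seg G n <+: τ)

theorem not_computable_of_generic {X : ℕ → Bool} (hX : OneGeneric X) : ¬ Computable X := by
  intro hc
  have h1 : Computable fun τ : List Bool => !(decide (seg X τ.length = τ)) := by
    have h2 : Primrec₂ fun a b : List Bool => decide (a = b) := Primrec.eq.decide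
    exact cnot (h2.to_comp.comp ((seg_comp hc).comp Computable.list_length) Computable.id)
  have h2 : REPred fun τ : List Bool => τ ∈ {τ : List Bool | seg X τ.length ≠ τ} := by
    refine ComputablePred.to_re ?_
    classical
    refine ComputablePred.computable_iff.2 ⟨_, h1, ?_⟩
    funext τ
    simp
  rcases hX _ h2 with ⟨n, hn⟩ | ⟨n, hn⟩
  · exact hn (by rw [seg_length])
  · refine hn (seg X n ++ [!(X n)]) ?_ (List.prefix_append _ _)
    show seg X (seg X n ++ [!(X n)]).length ≠ seg X n ++ [!(X n)]
    rw [List.length_append, seg_length, List.length_singleton, seg_succ]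
    intro h
    have := List.append_cancel_left h
    simp at this

/-! ### First hits -/

/-- the value of `f` at the least `k < n` at which it is defined -/
def fs {β : Type} (f : ℕ → Option β) (n : ℕ) : Option β :=
  Nat.rec (motive := fun _ => Option β) none (fun k acc => Option.casesOn acc (f k) some) n

theorem fs_succ {β : Type} (f : ℕ → Option β) (n : ℕ) :
    fs f (n + 1) = Option.casesOn (fs f n) (f n) some := rfl

theorem fs_mono {β : Type} {f : ℕ → Option β} {n m : ℕ} {y : β} (h : n ≤ m)
    (hy : fs f n = some y) : fs f m = some y := by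
  induction m with
  | zero => rw [Nat.le_zero.1 h] at hy; exact hy
  | succ m ih =>
    rcases Nat.lt_or_eq_of_le h with h' | rfl
    · rw [fs_succ, ih (Nat.lt_succ_iff.1 h')]
    · exact hy

theorem fs_some {β : Type} {f : ℕ → Option β} {n : ℕ} {y : β}
    (hy : fs f n = some y) : ∃ k < n, f k = some y := by
  induction n with
  | zero => exact absurd hy (by simp [fs])
  | succ n ih =>
    rw [fs_succ] at hy
    rcases h : fs f n with _ | z
    · rw [h] at hy; exact ⟨n, Nat.lt_succ_self n, hy⟩
    · rw [h] at hy
      have : z = y := Option.some.inj hy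
      subst this
      obtain ⟨k, hk, e⟩ := ih h
      exact ⟨k, Nat.lt_succ_of_lt hk, e⟩

theorem fs_exists {β : Type} {f : ℕ → Option β} {n k : ℕ} {y : β} (hk : k < n)
    (hy : f k = some y) : ∃ z, fs f n = some z := by
  have h1 : ∃ z, fs f (k + 1) = some z := by
    rw [fs_succ]
    rcases h : fs f k with _ | z
    · exact ⟨y, hy⟩
    · exact ⟨z, rfl⟩
  obtain ⟨z, hz⟩ := h1
  exact ⟨z, fs_mono hk hz⟩

theorem fs_comp {α β : Type} [Primcodable α] [Primcodable β] {f : α → ℕ → Option β} {n : α → ℕ}
    (hf : Computable₂ f) (hn : Computable n) : Computable fun a => fs (f a) (n a) := by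
  have h3 : Computable₂ fun (a : α) (p : ℕ × Option β) =>
      (Option.casesOn p.2 (f a p.1) some : Option β) := by
    refine Computable.option_casesOn (α := α × ℕ × Option β) (o := fun q => q.2.2)
      (f := fun q => f q.1 q.2.1) (g := fun _ s => some s)
      (Computable.snd.comp Computable.snd) ?_ ?_
    · exact hf.comp Computable.fst (Computable.fst.comp Computable.snd)
    · exact (Computable.option_some.comp Computable.snd).to₂
  exact (Computable.nat_rec hn (Computable.const none) h3).of_eq fun a => rfl

/-! ### The construction -/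

/-- the c.e. set of strings coded by `j` -/
def V (j : ℕ) : Set (List Bool) :=
  {τ | (eval (Denumerable.ofNat Code j) (Encodable.encode τ)).Dom}

/-- the `m`-th attempt to find an extension of `β` in the c.e. set coded by `j` -/
def att (j : ℕ) (β : List Bool) (m : ℕ) : Option (List Bool) :=
  (Encodable.decode (α := ℕ × List Bool) m).bind fun p =>
    bif (evaln p.1 (Denumerable.ofNat Code j) (Encodable.encode (β ++ p.2))).isSome
      then some (β ++ p.2) else none

theorem att_some {j m : ℕ} {β τ : List Bool} (h : att j β m = some τ) :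
    β <+: τ ∧ τ ∈ V j := by
  unfold att at h
  rw [Option.bind_eq_some_iff] at h
  obtain ⟨⟨s, ρ⟩, h1, h2⟩ := h
  simp only at h2
  rcases e : evaln s (Denumerable.ofNat Code j) (Encodable.encode (β ++ ρ)) with _ | y
  · rw [e] at h2; simp at h2
  · rw [e] at h2
    have : β ++ ρ = τ := by simpa using h2
    subst this
    refine ⟨List.prefix_append _ _, ?_⟩
    exact Part.dom_iff_mem.2 ⟨y, evaln_sound e⟩

theorem att_exists {j : ℕ} {β τ : List Bool} (h : β <+: τ) (hV : τ ∈ V j) :
    ∃ m, att j β m = some τ := by
  obtain ⟨ρ, rfl⟩ := h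
  obtain ⟨y, hy⟩ := Part.dom_iff_mem.1 hV
  obtain ⟨s, hs⟩ := evaln_complete.1 hy
  refine ⟨Encodable.encode (s, ρ), ?_⟩
  unfold att
  rw [Encodable.encodek]
  have hs' : evaln s (Denumerable.ofNat Code j) (Encodable.encode (β ++ ρ)) = some y := hs
  show (bif (evaln s (Denumerable.ofNat Code j) (Encodable.encode (β ++ ρ))).isSome
      then some (β ++ ρ) else none) = some (β ++ ρ)
  rw [hs']; rfl

/-- the extension of `β` chosen at stage `t` for the requirement `j` -/
def nxt (t j : ℕ) (β : List Bool) : List Bool := (fs (att j β) t).getD β ++ [false]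

/-- the construction at stage `t` -/
def bs (t j : ℕ) : List Bool :=
  Nat.rec (motive := fun _ => List Bool) [] (fun i acc => nxt t i acc) j

theorem bs_succ (t j : ℕ) : bs t (j + 1) = nxt t j (bs t j) := rfl

theorem nxt_lim (j : ℕ) (β : List Bool) : ∃ τ : List Bool, ∃ t0, (∀ t, t0 ≤ t → nxt t j β = τ ++ [false]) ∧
    β <+: τ ∧ (τ ∈ V j ∨ ∀ ρ, β <+: ρ → ρ ∉ V j) := by
  by_cases h : ∃ ρ, β <+: ρ ∧ ρ ∈ V j
  · obtain ⟨ρ, h1, h2⟩ := h
    obtain ⟨m, hm⟩ := att_exists h1 h2
    obtain ⟨z, hz⟩ := fs_exists (Nat.lt_succ_self m) hm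
    obtain ⟨k, _, hk⟩ := fs_some hz
    refine ⟨z, m + 1, fun t ht => ?_, (att_some hk).1, Or.inl (att_some hk).2⟩
    unfold nxt
    rw [fs_mono ht hz]; rfl
  · refine ⟨β, 0, fun t _ => ?_, List.prefix_rfl, Or.inr fun ρ h1 h2 => h ⟨ρ, h1, h2⟩⟩
    unfold nxt
    rcases e : fs (att j β) t with _ | z
    · rfl
    · obtain ⟨k, _, hk⟩ := fs_some e
      exact absurd ⟨z, (att_some hk).1, (att_some hk).2⟩ h

theorem bs_lim (j : ℕ) : ∃ σ : List Bool, ∃ t0, ∀ t, t0 ≤ t → bs t j = σ := by
  induction j with
  | zero => exact ⟨[], 0, fun t _ => rfl⟩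
  | succ j ih =>
    obtain ⟨σ, t0, h0⟩ := ih
    obtain ⟨τ, t1, h1, _⟩ := nxt_lim j σ
    refine ⟨τ ++ [false], max t0 t1, fun t ht => ?_⟩
    rw [bs_succ, h0 t ((le_max_left _ _).trans ht), h1 t ((le_max_right _ _).trans ht)]

/-- the limit of the construction -/
noncomputable def lb (j : ℕ) : List Bool := (bs_lim j).choose

theorem lb_spec (j : ℕ) : ∃ t0, ∀ t, t0 ≤ t → bs t j = lb j := (bs_lim j).choose_spec

theorem lb_step (j : ℕ) : ∃ τ : List Bool, lb (j + 1) = τ ++ [false] ∧ lb j <+: τ ∧
    (τ ∈ V j ∨ ∀ ρ, lb j <+: ρ → ρ ∉ V j) := by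
  obtain ⟨t0, h0⟩ := lb_spec j
  obtain ⟨t1, h1⟩ := lb_spec (j + 1)
  obtain ⟨τ, t2, h2, h3, h4⟩ := nxt_lim j (lb j)
  refine ⟨τ, ?_, h3, h4⟩
  have a0 := h0 (max t0 (max t1 t2)) (le_max_left _ _)
  have a1 := h1 (max t0 (max t1 t2)) ((le_max_left _ _).trans (le_max_right _ _))
  have a2 := h2 (max t0 (max t1 t2)) ((le_max_right _ _).trans (le_max_right _ _))
  rw [← a1, bs_succ, a0, a2]

theorem lb_prefix_succ (j : ℕ) : lb j <+: lb (j + 1) := by
  obtain ⟨τ, h1, h2, _⟩ := lb_step j
  rw [h1]
  exact h2.trans (List.prefix_append _ _)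

theorem lb_prefix {i j : ℕ} (h : i ≤ j) : lb i <+: lb j := by
  induction j with
  | zero => rw [Nat.le_zero.1 h]
  | succ j ih =>
    rcases Nat.lt_or_eq_of_le h with h' | rfl
    · exact (ih (Nat.lt_succ_iff.1 h')).trans (lb_prefix_succ j)
    · exact List.prefix_rfl

theorem lb_length (j : ℕ) : j ≤ (lb j).length := by
  induction j with
  | zero => exact Nat.zero_le _
  | succ j ih =>
    obtain ⟨τ, h1, h2, _⟩ := lb_step j
    rw [h1, List.length_append, List.length_singleton]
    exact Nat.succ_le_succ (ih.trans h2.length_le)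

/-- the generic set -/
noncomputable def GS (n : ℕ) : Bool := (lb (n + 1)).getD n false

theorem seg_GS (j : ℕ) : seg GS (lb j).length = lb j := by
  apply List.ext_getElem?
  intro i
  by_cases hi : i < (lb j).length
  · rw [seg_get _ hi]
    have h1 : i < (lb (i + 1)).length := lb_length (i + 1)
    have h2 : (lb (i + 1))[i]? = (lb j)[i]? := by
      rcases Nat.le_total (i + 1) j with h | h
      · obtain ⟨ρ, hρ⟩ := lb_prefix h
        rw [← hρ, List.getElem?_append_left h1]
      · obtain ⟨ρ, hρ⟩ := lb_prefix h
        rw [← hρ, List.getElem?_append_left hi]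
    rw [← h2]
    unfold GS
    rw [List.getD_eq_getElem?_getD, List.getElem?_eq_getElem h1]
    rfl
  · rw [List.getElem?_eq_none (by rw [seg_length]; omega), List.getElem?_eq_none (by omega)]

theorem seg_of_prefix {j : ℕ} {τ : List Bool} (h : τ <+: lb j) : seg GS τ.length = τ := by
  have h1 : seg GS τ.length <+: seg GS (lb j).length := seg_mono GS h.length_le
  rw [seg_GS] at h1
  exact (List.prefix_of_prefix_length_le h1 h (by rw [seg_length])).eq_of_length
    (by rw [seg_length])

theorem re_index {W : List Bool → Prop} (hW : REPred W) :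
    ∃ j, ∀ τ, τ ∈ V j ↔ W τ := by
  obtain ⟨c, hc⟩ := Code.exists_code.1 hW
  refine ⟨Encodable.encode c, fun τ => ?_⟩
  show (eval (Denumerable.ofNat Code (Encodable.encode c)) (Encodable.encode τ)).Dom ↔ _
  rw [Denumerable.ofNat_encode, hc]
  simp [Part.dom_iff_mem]

theorem GS_generic : OneGeneric GS := by
  intro W hW
  obtain ⟨j, hj⟩ := re_index hW
  obtain ⟨τ, h1, h2, h3⟩ := lb_step j
  have hτ : τ <+: lb (j + 1) := by rw [h1]; exact List.prefix_append _ _
  rcases h3 with h3 | h3
  · left
    refine ⟨τ.length, ?_⟩
    rw [seg_of_prefix hτ]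
    exact (hj τ).1 h3
  · right
    refine ⟨(lb j).length, fun ρ hρ hp => ?_⟩
    rw [seg_GS] at hp
    exact h3 ρ hp ((hj ρ).2 hρ)

/-! ### The generic set is below the halting problem -/

theorem att_comp {α : Type} [Primcodable α] {j m : α → ℕ} {β : α → List Bool} (hj : Computable j)
    (hβ : Computable β) (hm : Computable m) :
    Computable fun a => att (j a) (β a) (m a) := by
  have hd : Computable fun a => (Encodable.decode (α := ℕ × List Bool) (m a)) :=
    Computable.decode.comp hm
  have happ : Computable fun q : α × (ℕ × List Bool) => β q.1 ++ q.2.2 :=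
    Computable.list_append.comp (hβ.comp Computable.fst) (Computable.snd.comp Computable.snd)
  have hev : Computable fun q : α × (ℕ × List Bool) =>
      evaln q.2.1 (Denumerable.ofNat Code (j q.1)) (Encodable.encode (β q.1 ++ q.2.2)) :=
    primrec_evaln.to_comp.comp (((Computable.fst.comp Computable.snd).pair
      ((Computable.ofNat Code).comp (hj.comp Computable.fst))).pair
      (Computable.encode.comp happ))
  refine Computable.option_bind hd ?_
  exact (Computable.cond (Primrec.option_isSome.to_comp.comp hev)
    (Computable.option_some.comp happ) (Computable.const none)).to₂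

theorem nxt_comp {α : Type} [Primcodable α] {t j : α → ℕ} {β : α → List Bool}
    (ht : Computable t) (hj : Computable j) (hβ : Computable β) :
    Computable fun a => nxt (t a) (j a) (β a) := by
  have h1 : Computable fun a => fs (att (j a) (β a)) (t a) := by
    refine fs_comp (α := α) (f := fun a => att (j a) (β a)) (n := t) ?_ ht
    exact (att_comp (hj.comp Computable.fst) (hβ.comp Computable.fst)
      Computable.snd).to₂
  exact Computable.list_append.comp (Computable.option_getD h1 hβ) (Computable.const [false])

theorem bs_comp : Computable₂ bs := by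
  have h1 : Computable₂ fun (a : ℕ × ℕ) (p : ℕ × List Bool) => nxt a.1 p.1 p.2 :=
    (nxt_comp (Computable.fst.comp Computable.fst) (Computable.fst.comp Computable.snd)
      (Computable.snd.comp Computable.snd)).to₂
  exact (Computable.nat_rec (f := fun a : ℕ × ℕ => a.2) (g := fun _ => ([] : List Bool))
    Computable.snd (Computable.const []) h1).of_eq fun a => rfl

open Pool.Agent.Helper743 in
theorem GS_TR_K : TR (fun n => (GS n).toNat) K := by
  apply LimC.TR_K
  refine ⟨fun n t => ((bs t (n + 1)).getD n false).toNat, ?_, fun n => ?_⟩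
  · have h1 : Computable fun p : ℕ × ℕ => bs p.2 (p.1 + 1) :=
      bs_comp.comp Computable.snd (Computable.succ.comp Computable.fst)
    have h2 : Computable fun p : ℕ × ℕ => (bs p.2 (p.1 + 1)).getD p.1 false :=
      (Primrec.list_getD false).to_comp.comp h1 Computable.fst
    exact ((Primrec.dom_bool Bool.toNat).to_comp.comp h2).to₂
  · obtain ⟨t0, h0⟩ := lb_spec (n + 1)
    refine ⟨t0, fun t ht => ?_⟩
    simp only
    rw [h0 t ht]
    rfl

/-- the diagonal halting set -/
noncomputable def Kd (n : ℕ) : ℕ :=
  open Classical in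
  if ((Denumerable.ofNat Code n).eval n).Dom then 1 else 0

open Pool.Agent.Helper743 in
theorem K_TR_Kd : TR K Kd := by
  obtain ⟨c, hc⟩ := re_code K_re
  have h1 : Computable (fun n : ℕ => Encodable.encode (Code.comp c (Code.const n))) :=
    Computable.encode.comp (Primrec.to_comp (Code.primrec₂_comp.comp (Primrec.const c)
      Code.primrec_const))
  have h2 := (TR.refl Kd).comp (Computable.recT (O := {(Kd : ℕ →. ℕ)}) h1)
  have h3 : (fun n => Kd (Encodable.encode (Code.comp c (Code.const n)))) = K := by
    funext n
    have key : ((Denumerable.ofNat Code (Encodable.encode (Code.comp c (Code.const n)))).eval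
        (Encodable.encode (Code.comp c (Code.const n)))).Dom ↔
        (Code.eval (Denumerable.ofNat Code n.unpair.1) n.unpair.2).Dom := by
      rw [Denumerable.ofNat_encode, hc n]
      simp only [Code.eval, Code.eval_const]
      have : (Part.some n >>= c.eval) = c.eval n := Part.bind_some _ _
      rw [this]
    unfold Kd K
    by_cases hp : (Code.eval (Denumerable.ofNat Code n.unpair.1) n.unpair.2).Dom
    · rw [if_pos hp, if_pos (key.2 hp)]
    · rw [if_neg hp, if_neg (fun h => hp (key.1 h))]
  rw [h3] at h2
  exact h2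

/-! ### Bounds computed by a 1-generic set -/

/-- Let `X` be 1-generic, let `R` be a computable relation and let `g` be recursive in `X` with
`y ≤ g x` whenever `R x y`.  Then there is a computable function with this property. -/
theorem computable_bound {X : ℕ → Bool} (hX : OneGeneric X) (R : ℕ → ℕ → Bool)
    (hR : Computable₂ R) (g : ℕ → ℕ)
    (hg : Pool.Agent.Helper743.TR g (fun n => (X n).toNat)) (hb : ∀ x y, R x y = true → y ≤ g x) :
    ∃ h : ℕ → ℕ, Computable h ∧ ∀ x y, R x y = true → y ≤ h x := by
  obtain ⟨ev, hev, hmono, hcor⟩ := Pool.Agent.Helper743.use_principle _ _ hg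
  have hpre : ∀ n, (seg X n).map Bool.toNat = Pool.Agent.Helper743.pre (fun n => (X n).toNat) n := by
    intro n
    unfold seg Pool.Agent.Helper743.pre
    rw [List.map_map]
    rfl
  -- the bad strings
  let q : List Bool → ℕ → Bool := fun σ m =>
    Option.casesOn (ev (σ.map Bool.toNat) m.unpair.1) false
      (fun k => decide (k < m.unpair.2) && R m.unpair.1 m.unpair.2)
  have hmap : Computable fun σ : List Bool => σ.map Bool.toNat :=
    (Primrec.list_map Primrec.id ((Primrec.dom_bool Bool.toNat).comp Primrec.snd).to₂).to_comp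
  have hq : Computable₂ q := by
    have u1 : Computable fun p : List Bool × ℕ => p.2.unpair.1 :=
      Computable.fst.comp (Computable.unpair.comp Computable.snd)
    have u2 : Computable fun p : List Bool × ℕ => p.2.unpair.2 :=
      Computable.snd.comp (Computable.unpair.comp Computable.snd)
    have e1 : Computable fun p : List Bool × ℕ => ev (p.1.map Bool.toNat) p.2.unpair.1 :=
      hev.comp (hmap.comp Computable.fst) u1
    refine (Computable.option_casesOn (o := fun p : List Bool × ℕ =>
      ev (p.1.map Bool.toNat) p.2.unpair.1) (f := fun _ => false)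
      (g := fun p k => decide (k < p.2.unpair.2) && R p.2.unpair.1 p.2.unpair.2) e1
      (Computable.const false) ?_).to₂
    exact (cand (clt Computable.snd (u2.comp Computable.fst))
      (hR.comp (u1.comp Computable.fst) (u2.comp Computable.fst))).to₂
  have hre := re_ex hq
  rcases hX {σ | ∃ m, q σ m = true} hre with ⟨n, m, hm⟩ | ⟨n, hn⟩
  · exfalso
    simp only [q] at hm
    rcases e : ev ((seg X n).map Bool.toNat) m.unpair.1 with _ | k
    · rw [e] at hm; simp at hm
    · rw [e] at hm
      simp only [Bool.and_eq_true, decide_eq_true_eq] at hm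
      have h1 : k = g m.unpair.1 := by
        have := (hcor m.unpair.1 k).2 ⟨n, by rw [← hpre]; exact e⟩
        exact Part.mem_some_iff.1 this
      have h2 := hb _ _ hm.2
      omega
  · -- the search
    let r : ℕ → ℕ → Bool := fun x m =>
      (ev ((seg X n ++ (Encodable.decode (α := List Bool) m).getD []).map Bool.toNat) x).isSome
    have happ : Computable fun m : ℕ =>
        (seg X n ++ (Encodable.decode (α := List Bool) m).getD []).map Bool.toNat :=
      hmap.comp (Computable.list_append.comp (Computable.const _)
        (Computable.option_getD Computable.decode (Computable.const [])))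
    have hr : Computable₂ r :=
      (Primrec.option_isSome.to_comp.comp
        (hev.comp (happ.comp Computable.snd) Computable.fst)).to₂
    have hex : ∀ x, ∃ m, r x m = true := by
      intro x
      obtain ⟨s, hs⟩ := (hcor x (g x)).1 (Part.mem_some _)
      have h1 := hmono _ _ x _ (Pool.Agent.Helper743.pre_prefix (fun n => (X n).toNat)
        (le_max_left s n)) hs
      obtain ⟨ρ, hρ⟩ := seg_mono X (le_max_right s n)
      refine ⟨Encodable.encode ρ, ?_⟩
      simp only [r, Encodable.encodek, Option.getD_some]
      rw [hρ, hpre, h1]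
      rfl
    refine ⟨fun x => (ev ((seg X n ++ (Encodable.decode (α := List Bool)
      (Nat.find (hex x))).getD []).map Bool.toNat) x).getD 0, ?_, fun x y hxy => ?_⟩
    · exact Computable.option_getD (hev.comp (happ.comp (find_comp' hr hex)) Computable.id)
        (Computable.const 0)
    · have h1 := Nat.find_spec (hex x)
      simp only [r] at h1
      obtain ⟨k, hk⟩ := Option.isSome_iff_exists.1 h1
      by_contra hc
      refine hn (seg X n ++ (Encodable.decode (α := List Bool) (Nat.find (hex x))).getD []) ?_
        (List.prefix_append _ _)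
      refine ⟨Nat.pair x y, ?_⟩
      simp only [q, Nat.unpair_pair]
      have hc' : ¬ y ≤ (ev ((seg X n ++ (Encodable.decode (α := List Bool)
        (Nat.find (hex x))).getD []).map Bool.toNat) x).getD 0 := hc
      rw [hk] at hc'
      rw [hk]
      simp only [Option.getD_some, not_le] at hc'
      simp [hc', hxy]

/-! ### Colouring graphs with computably bounded neighbourhoods -/

/-- the bits of a code of a list -/
def bit (m u : ℕ) : Bool := ((Encodable.decode (α := List Bool) m).getD []).getD u false

theorem bit_comp : Computable₂ bit :=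
  ((Primrec.list_getD false).to_comp.comp
    (Computable.option_getD (Computable.decode.comp Computable.fst) (Computable.const []))
    Computable.snd).to₂

/-- a bound -/
def bd (h : ℕ → ℕ) (n : ℕ) : ℕ :=
  Nat.rec (motive := fun _ => ℕ) 1 (fun u acc => acc + h u + 1) n

theorem bd_succ (h : ℕ → ℕ) (n : ℕ) : bd h (n + 1) = bd h n + h n + 1 := rfl

theorem lt_bd (h : ℕ → ℕ) (n : ℕ) : n < bd h n := by
  induction n with
  | zero => exact Nat.one_pos
  | succ n ih => rw [bd_succ]; omega

theorem bd_mono (h : ℕ → ℕ) {m n : ℕ} (hmn : m ≤ n) : bd h m ≤ bd h n := by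
  induction n with
  | zero => rw [Nat.le_zero.1 hmn]
  | succ n ih =>
    rcases Nat.lt_or_eq_of_le hmn with h' | rfl
    · rw [bd_succ]
      have := ih (Nat.lt_succ_iff.1 h')
      omega
    · exact le_rfl

theorem h_lt_bd (h : ℕ → ℕ) {u n : ℕ} (hu : u < n) : h u < bd h n := by
  have h1 : bd h (u + 1) ≤ bd h n := bd_mono h hu
  rw [bd_succ] at h1
  omega

theorem bd_comp {h : ℕ → ℕ} (hh : Computable h) : Computable (bd h) := by
  have h1 : Computable₂ fun (_ : ℕ) (p : ℕ × ℕ) => p.2 + h p.1 + 1 :=
    (Computable.succ.comp (Primrec.nat_add.to_comp.comp (Computable.snd.comp Computable.snd)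
      (hh.comp (Computable.fst.comp Computable.snd)))).to₂
  exact (Computable.nat_rec Computable.id (Computable.const 1) h1).of_eq fun a => rfl

/-- the stages -/
def st (h : ℕ → ℕ) (s : ℕ) : ℕ := Nat.rec (motive := fun _ => ℕ) 0 (fun _ acc => bd h acc) s

theorem st_succ (h : ℕ → ℕ) (s : ℕ) : st h (s + 1) = bd h (st h s) := rfl

theorem le_st (h : ℕ → ℕ) (s : ℕ) : s ≤ st h s := by
  induction s with
  | zero => exact Nat.zero_le _
  | succ s ih => rw [st_succ]; have := lt_bd h (st h s); omega

theorem st_mono (h : ℕ → ℕ) {s t : ℕ} (hst : s ≤ t) : st h s ≤ st h t := by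
  induction t with
  | zero => rw [Nat.le_zero.1 hst]
  | succ t ih =>
    rcases Nat.lt_or_eq_of_le hst with h' | rfl
    · rw [st_succ]
      exact (ih (Nat.lt_succ_iff.1 h')).trans (lt_bd h _).le
    · exact le_rfl

theorem st_comp {h : ℕ → ℕ} (hh : Computable h) : Computable (st h) := by
  have h1 : Computable₂ fun (_ : ℕ) (p : ℕ × ℕ) => bd h p.2 :=
    ((bd_comp hh).comp (Computable.snd.comp Computable.snd)).to₂
  exact (Computable.nat_rec Computable.id (Computable.const 0) h1).of_eq fun a => rfl

/-- A 2-colourable computable graph whose neighbourhoods are computably bounded has a computable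
proper 4-colouring. -/
theorem four_colouring (R : ℕ → ℕ → Bool) (hR : Computable₂ R) (hsymm : ∀ x y, R x y = R y x)
    (h : ℕ → ℕ) (hh : Computable h) (hb : ∀ x y, R x y = true → y ≤ h x)
    (C : ℕ → Bool) (hC : ∀ x y, R x y = true → C x ≠ C y) :
    ∃ c : ℕ → ℕ, Computable c ∧ (∀ x, c x < 4) ∧ ∀ x y, R x y = true → c x ≠ c y := by
  have hlay : ∀ x, ∃ s, decide (x < st h (s + 1)) = true := fun x =>
    ⟨x, by have := le_st h (x + 1); simp; omega⟩
  have hlayc : Computable fun x => Nat.find (hlay x) := by
    refine find_comp' (q := fun x s => decide (x < st h (s + 1))) ?_ hlay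
    exact (clt Computable.fst ((st_comp hh).comp (Computable.succ.comp Computable.snd))).to₂
  -- colourings of the finite graphs
  let q : ℕ → ℕ → Bool := fun s m => ball (st h (s + 1)) fun u => ball (st h (s + 1)) fun v =>
    !(R u v) || !(bit m u == bit m v)
  have hq : Computable₂ q := by
    have hst : Computable fun p : ℕ × ℕ => st h (p.1 + 1) :=
      (st_comp hh).comp (Computable.succ.comp Computable.fst)
    refine (ball_comp (α := ℕ × ℕ) (q := fun p u => ball (st h (p.1 + 1)) fun v =>
      !(R u v) || !(bit p.2 u == bit p.2 v)) hst ?_).to₂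
    refine (ball_comp (α := (ℕ × ℕ) × ℕ) (q := fun p v =>
      !(R p.2 v) || !(bit p.1.2 p.2 == bit p.1.2 v)) (hst.comp Computable.fst) ?_).to₂
    have a1 : Computable fun p : ((ℕ × ℕ) × ℕ) × ℕ => p.1.2 := Computable.snd.comp Computable.fst
    have a2 : Computable fun p : ((ℕ × ℕ) × ℕ) × ℕ => p.1.1.2 :=
      Computable.snd.comp (Computable.fst.comp Computable.fst)
    have hbeq : Primrec₂ fun m n : Bool => (m == n) := Primrec.beq
    exact (cor (cnot (hR.comp a1 Computable.snd))
      (cnot (hbeq.to_comp.comp (bit_comp.comp a2 a1) (bit_comp.comp a2 Computable.snd)))).to₂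
  have hex : ∀ s, ∃ m, q s m = true := by
    intro s
    refine ⟨Encodable.encode (seg C (st h (s + 1))), ?_⟩
    simp only [q, ball_iff]
    intro u hu v hv
    have hbit : ∀ w, w < st h (s + 1) →
        bit (Encodable.encode (seg C (st h (s + 1)))) w = C w := by
      intro w hw
      unfold bit
      rw [Encodable.encodek, Option.getD_some, List.getD_eq_getElem?_getD, seg_get _ hw]
      rfl
    rw [hbit u hu, hbit v hv]
    rcases hr : R u v with _ | _
    · rfl
    · have := hC u v hr
      simpa using this
  obtain ⟨F, hFc, hFs⟩ : ∃ F : ℕ → ℕ, Computable F ∧ ∀ s, q s (F s) = true :=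
    ⟨fun s => Nat.find (hex s), find_comp' hq hex, fun s => Nat.find_spec (hex s)⟩
  obtain ⟨L, hLc, hL1, hL2⟩ : ∃ L : ℕ → ℕ, Computable L ∧ (∀ x, x < st h (L x + 1)) ∧
      ∀ x s, x < st h (s + 1) → L x ≤ s :=
    ⟨fun x => Nat.find (hlay x), hlayc, fun x => of_decide_eq_true (Nat.find_spec (hlay x)),
      fun x s hs => Nat.find_min' (hlay x) (decide_eq_true hs)⟩
  refine ⟨fun x => 2 * (L x % 2) + (bit (F (L x)) x).toNat, ?_, fun x => ?_, fun x y hxy heq => ?_⟩
  · have h1 : Computable fun x => 2 * (L x % 2) :=
      Primrec.nat_mul.to_comp.comp (Computable.const 2)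
        (Primrec.nat_mod.to_comp.comp hLc (Computable.const 2))
    have h2 : Computable fun x => (bit (F (L x)) x).toNat :=
      (Primrec.dom_bool Bool.toNat).to_comp.comp
        (bit_comp.comp (hFc.comp hLc) Computable.id)
    exact Primrec.nat_add.to_comp.comp h1 h2
  · have h1 : L x % 2 < 2 := Nat.mod_lt _ (by norm_num)
    have h2 := Bool.toNat_lt (bit (F (L x)) x)
    show 2 * (L x % 2) + _ < 4
    omega
  · -- properness
    have key : ∀ x y, R x y = true → L y ≤ L x + 1 := by
      intro x y hxy
      apply hL2
      rw [st_succ]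
      exact lt_of_le_of_lt (hb x y hxy) (h_lt_bd h (hL1 x))
    have k1 := key x y hxy
    have k2 := key y x (by rw [hsymm]; exact hxy)
    have e1 := Bool.toNat_lt (bit (F (L x)) x)
    have e2 := Bool.toNat_lt (bit (F (L y)) y)
    have heq' : 2 * (L x % 2) + (bit (F (L x)) x).toNat =
      2 * (L y % 2) + (bit (F (L y)) y).toNat := heq
    have hl : L x = L y := by omega
    have hbt : (bit (F (L x)) x).toNat = (bit (F (L x)) y).toNat := by
      rw [← hl] at heq'
      omega
    have hs := hFs (L x)
    simp only [q, ball_iff] at hs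
    have h3 := hs x (hL1 x) y (by rw [hl]; exact hL1 y)
    rw [hxy] at h3
    have h4 : bit (F (L x)) x ≠ bit (F (L x)) y := by simpa using h3
    apply h4
    revert hbt
    cases bit (F (L x)) x <;> cases bit (F (L x)) y <;> simp

end Pool.Agent.R554
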