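import Mathlib

/-!
# Rigidity of thick regions in king's graphs
-/

set_option autoImplicit false

namespace Pool.Agent.R554.Boggle

/-- Adjacency of cells. -/
def kadj (a b : ℤ × ℤ) : Bool :=
  decide (a ≠ b) && decide (a.1 - b.1 ≤ 1) && decide (b.1 - a.1 ≤ 1) && decide (a.2 - b.2 ≤ 1) &&
    decide (b.2 - a.2 ≤ 1)

theorem kadj_iff (a b : ℤ × ℤ) : kadj a b = true ↔ a ≠ b ∧ a.1 - b.1 ≤ 1 ∧ b.1 - a.1 ≤ 1 ∧
    a.2 - b.2 ≤ 1 ∧ b.2 - a.2 ≤ 1 := by
  simp only [kadj, Bool.and_eq_true, decide_eq_true_eq, and_assoc]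

/-- The cells around the origin, in cyclic order. -/
def ring8 : List (ℤ × ℤ) := [(-1,-1),(-1,0),(-1,1),(0,1),(1,1),(1,0),(1,-1),(0,-1)]

/-- the matrices -/
def mats : List (ℤ × ℤ × ℤ × ℤ) :=
  [(1,0,0,1),(1,0,0,-1),(-1,0,0,1),(-1,0,0,-1),(0,1,1,0),(0,1,-1,0),(0,-1,1,0),(0,-1,-1,0)]

/-- Applying a matrix. -/
def ap (m : ℤ × ℤ × ℤ × ℤ) (v : ℤ × ℤ) : ℤ × ℤ :=
  (m.1 * v.1 + m.2.1 * v.2, m.2.2.1 * v.1 + m.2.2.2 * v.2)

/-- The finite check. -/
def ringChk : Bool := ring8.all fun v0 => ring8.all fun v1 => !kadj v0 v1 || ring8.all fun v2 =>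
  !(kadj v1 v2 && !(decide (v2 = v0))) || ring8.all fun v3 =>
  !(kadj v2 v3 && kadj v1 v3 && !(decide (v3 = v0))) || ring8.all fun v4 =>
  !(kadj v3 v4 && !(decide (v4 = v0)) && !(decide (v4 = v1)) && !(decide (v4 = v2))) ||
  ring8.all fun v5 =>
  !(kadj v4 v5 && kadj v3 v5 && !(decide (v5 = v0)) && !(decide (v5 = v1)) && !(decide (v5 = v2))) ||
  ring8.all fun v6 =>
  !(kadj v5 v6 && !(decide (v6 = v0)) && !(decide (v6 = v1)) && !(decide (v6 = v2)) &&
    !(decide (v6 = v3)) && !(decide (v6 = v4))) || ring8.all fun v7 =>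
  !(kadj v6 v7 && kadj v5 v7 && kadj v7 v0 && kadj v7 v1 && !(decide (v7 = v2)) &&
    !(decide (v7 = v3)) && !(decide (v7 = v4))) ||
    (mats.any fun m => decide (v0 = ap m (-1,-1)) && decide (v1 = ap m (-1,0)) &&
      decide (v2 = ap m (-1,1)) && decide (v3 = ap m (0,1)) && decide (v4 = ap m (1,1)) &&
      decide (v5 = ap m (1,0)) && decide (v6 = ap m (1,-1)) && decide (v7 = ap m (0,-1)))

set_option maxRecDepth 100000 in
theorem ringChk_true : ringChk = true := by decide +kernel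

theorem mem_ring8 {v : ℤ × ℤ} (h : kadj (0, 0) v = true) : v ∈ ring8 := by
  obtain ⟨x, y⟩ := v
  rw [kadj_iff] at h
  simp only at h
  obtain ⟨h0, h1, h2, h3, h4⟩ := h
  have hx : x = -1 ∨ x = 0 ∨ x = 1 := by omega
  have hy : y = -1 ∨ y = 0 ∨ y = 1 := by omega
  rcases hx with rfl | rfl | rfl <;> rcases hy with rfl | rfl | rfl <;> simp [ring8] at h0 ⊢

theorem kadj_sub (a b c : ℤ × ℤ) : kadj (a - c) (b - c) = kadj a b := by
  rw [Bool.eq_iff_iff, kadj_iff, kadj_iff]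
  simp only [Prod.fst_sub, Prod.snd_sub, sub_sub_sub_cancel_right, ne_eq, sub_left_inj]

/-- The nine cells of a window. -/
def Win (r c : ℤ) (u : ℤ × ℤ) : Prop := r ≤ u.1 ∧ u.1 ≤ r + 2 ∧ c ≤ u.2 ∧ u.2 ≤ c + 2

theorem window_aux (q : ℤ × ℤ → ℤ × ℤ) (h0 : q (0, 0) = (0, 0))
    (hinj : ∀ u v, Win (-1) (-1) u → Win (-1) (-1) v → q u = q v → u = v)
    (hadj : ∀ u v, Win (-1) (-1) u → Win (-1) (-1) v → kadj u v = true →
      kadj (q u) (q v) = true) :
    ∃ m ∈ mats, ∀ u, Win (-1) (-1) u → q u = ap m u := by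
  have hw : ∀ u ∈ ring8, Win (-1) (-1) u ∧ kadj (0, 0) u = true := by
    intro u hu
    simp only [ring8, List.mem_cons, List.not_mem_nil, or_false] at hu
    rcases hu with rfl | rfl | rfl | rfl | rfl | rfl | rfl | rfl <;>
      exact ⟨⟨by norm_num, by norm_num, by norm_num, by norm_num⟩, by decide⟩
  have hw0 : Win (-1) (-1) (0, 0) := ⟨by norm_num, by norm_num, by norm_num, by norm_num⟩
  have hmem : ∀ u ∈ ring8, q u ∈ ring8 := by
    intro u hu
    obtain ⟨h1, h2⟩ := hw u hu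
    have := hadj (0, 0) u hw0 h1 h2
    rw [h0] at this
    exact mem_ring8 this
  have hA : ∀ u ∈ ring8, ∀ v ∈ ring8, kadj u v = true → kadj (q u) (q v) = true :=
    fun u hu v hv h => hadj u v (hw u hu).1 (hw v hv).1 h
  have hI : ∀ u ∈ ring8, ∀ v ∈ ring8, ¬ u = v → decide (q u = q v) = false := by
    intro u hu v hv huv
    rw [decide_eq_false_iff_not]
    exact fun h => huv (hinj u v (hw u hu).1 (hw v hv).1 h)
  have r0 : ((-1,-1) : ℤ × ℤ) ∈ ring8 := by simp [ring8]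
  have r1 : ((-1,0) : ℤ × ℤ) ∈ ring8 := by simp [ring8]
  have r2 : ((-1,1) : ℤ × ℤ) ∈ ring8 := by simp [ring8]
  have r3 : ((0,1) : ℤ × ℤ) ∈ ring8 := by simp [ring8]
  have r4 : ((1,1) : ℤ × ℤ) ∈ ring8 := by simp [ring8]
  have r5 : ((1,0) : ℤ × ℤ) ∈ ring8 := by simp [ring8]
  have r6 : ((1,-1) : ℤ × ℤ) ∈ ring8 := by simp [ring8]
  have r7 : ((0,-1) : ℤ × ℤ) ∈ ring8 := by simp [ring8]
  have key := ringChk_true
  unfold ringChk at key
  have k1 := (List.all_eq_true.1 (List.all_eq_true.1 key _ (hmem _ r0))) _ (hmem _ r1)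
  rw [hA _ r0 _ r1 (by decide), Bool.not_true, Bool.false_or] at k1
  have k2 := List.all_eq_true.1 k1 _ (hmem _ r2)
  rw [hA _ r1 _ r2 (by decide), hI _ r2 _ r0 (by decide)] at k2
  simp only [Bool.not_false, Bool.and_self, Bool.not_true, Bool.false_or] at k2
  have k3 := List.all_eq_true.1 k2 _ (hmem _ r3)
  rw [hA _ r2 _ r3 (by decide), hA _ r1 _ r3 (by decide), hI _ r3 _ r0 (by decide)] at k3
  simp only [Bool.not_false, Bool.and_self, Bool.not_true, Bool.false_or] at k3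
  have k4 := List.all_eq_true.1 k3 _ (hmem _ r4)
  rw [hA _ r3 _ r4 (by decide), hI _ r4 _ r0 (by decide), hI _ r4 _ r1 (by decide),
    hI _ r4 _ r2 (by decide)] at k4
  simp only [Bool.not_false, Bool.and_self, Bool.not_true, Bool.false_or] at k4
  have k5 := List.all_eq_true.1 k4 _ (hmem _ r5)
  rw [hA _ r4 _ r5 (by decide), hA _ r3 _ r5 (by decide), hI _ r5 _ r0 (by decide),
    hI _ r5 _ r1 (by decide), hI _ r5 _ r2 (by decide)] at k5
  simp only [Bool.not_false, Bool.and_self, Bool.not_true, Bool.false_or] at k5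
  have k6 := List.all_eq_true.1 k5 _ (hmem _ r6)
  rw [hA _ r5 _ r6 (by decide), hI _ r6 _ r0 (by decide), hI _ r6 _ r1 (by decide),
    hI _ r6 _ r2 (by decide), hI _ r6 _ r3 (by decide), hI _ r6 _ r4 (by decide)] at k6
  simp only [Bool.not_false, Bool.and_self, Bool.not_true, Bool.false_or] at k6
  have k7 := List.all_eq_true.1 k6 _ (hmem _ r7)
  rw [hA _ r6 _ r7 (by decide), hA _ r5 _ r7 (by decide), hA _ r7 _ r0 (by decide),
    hA _ r7 _ r1 (by decide), hI _ r7 _ r2 (by decide), hI _ r7 _ r3 (by decide),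
    hI _ r7 _ r4 (by decide)] at k7
  simp only [Bool.not_false, Bool.and_self, Bool.not_true, Bool.false_or] at k7
  obtain ⟨m, hm, h⟩ := List.any_eq_true.1 k7
  simp only [Bool.and_eq_true, decide_eq_true_eq] at h
  obtain ⟨⟨⟨⟨⟨⟨⟨e0, e1⟩, e2⟩, e3⟩, e4⟩, e5⟩, e6⟩, e7⟩ := h
  refine ⟨m, hm, ?_⟩
  rintro ⟨x, y⟩ ⟨h1, h2, h3, h4⟩
  simp only at h1 h2 h3 h4
  have hx : x = -1 ∨ x = 0 ∨ x = 1 := by omega
  have hy : y = -1 ∨ y = 0 ∨ y = 1 := by omega
  rcases hx with rfl | rfl | rfl <;> rcases hy with rfl | rfl | rfl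
  · exact e0
  · exact e1
  · exact e2
  · exact e7
  · rw [h0]; simp [ap]
  · exact e3
  · exact e6
  · exact e5
  · exact e4

theorem window (p : ℤ × ℤ → ℤ × ℤ) (r c : ℤ)
    (hinj : ∀ u v, Win r c u → Win r c v → p u = p v → u = v)
    (hadj : ∀ u v, Win r c u → Win r c v → kadj u v = true → kadj (p u) (p v) = true) :
    ∃ m ∈ mats, ∃ o : ℤ × ℤ, ∀ u, Win r c u → p u = o + ap m u := by
  let z : ℤ × ℤ := (r + 1, c + 1)
  have hz : ∀ u, Win (-1) (-1) u → Win r c (u + z) := by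
    rintro ⟨x, y⟩ ⟨h1, h2, h3, h4⟩
    simp only [Win, z, Prod.mk_add_mk] at *
    omega
  obtain ⟨m, hm, h⟩ := window_aux (fun u => p (u + z) - p z) (by
      show p ((0, 0) + z) - p z = (0, 0)
      have : ((0, 0) : ℤ × ℤ) + z = z := by ext <;> simp
      rw [this, sub_self]; rfl)
    (by
      intro u v hu hv huv
      have h1 := hinj _ _ (hz u hu) (hz v hv) (sub_left_injective huv)
      exact add_right_cancel h1)
    (by
      intro u v hu hv huv
      rw [kadj_sub]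
      refine hadj _ _ (hz u hu) (hz v hv) ?_
      rw [← huv, ← kadj_sub (u + z) (v + z) z]
      simp)
  refine ⟨m, hm, p z - ap m z, fun u hu => ?_⟩
  have h1 := h (u - z) (by
    obtain ⟨h1, h2, h3, h4⟩ := hu
    simp only [Win, z, Prod.fst_sub, Prod.snd_sub]
    omega)
  simp only [sub_add_cancel] at h1
  have h2 : p u = p z + ap m (u - z) := by rw [← h1]; abel
  rw [h2]
  ext <;> simp [ap] <;> ring

/-- All matrices with the same effect on two neighbouring directions are equal. -/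
theorem coef_eq {m m' : ℤ × ℤ × ℤ × ℤ} {o o' : ℤ × ℤ} (x y : ℤ)
    (h1 : o + ap m (x, y) = o' + ap m' (x, y))
    (h2 : o + ap m (x + 1, y) = o' + ap m' (x + 1, y))
    (h3 : o + ap m (x, y + 1) = o' + ap m' (x, y + 1)) : m = m' ∧ o = o' := by
  obtain ⟨a, b, c, d⟩ := m
  obtain ⟨a', b', c', d'⟩ := m'
  obtain ⟨s, t⟩ := o
  obtain ⟨s', t'⟩ := o'
  simp only [ap, Prod.mk_add_mk, Prod.mk.injEq] at h1 h2 h3
  have ha : a = a' := by linarith [h1.1, h2.1]
  have hc : c = c' := by linarith [h1.2, h2.2]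
  have hb : b = b' := by linarith [h1.1, h3.1]
  have hd : d = d' := by linarith [h1.2, h3.2]
  subst ha hb hc hd
  refine ⟨rfl, ?_⟩
  rw [Prod.mk.injEq]
  exact ⟨by linarith [h1.1], by linarith [h1.2]⟩

/-- Extending the isometry from a window to the next one. -/
theorem step (p : ℤ × ℤ → ℤ × ℤ) {m : ℤ × ℤ × ℤ × ℤ} {o : ℤ × ℤ} (r c r' c' : ℤ)
    (hstep : (r' = r ∧ c' = c + 1) ∨ (r' = r + 1 ∧ c' = c))
    (h : ∀ u, Win r c u → p u = o + ap m u)
    (hinj : ∀ u v, Win r' c' u → Win r' c' v → p u = p v → u = v)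
    (hadj : ∀ u v, Win r' c' u → Win r' c' v → kadj u v = true → kadj (p u) (p v) = true) :
    ∀ u, Win r' c' u → p u = o + ap m u := by
  obtain ⟨m', -, o', h'⟩ := window p r' c' hinj hadj
  have key : ∀ u, Win r c u → Win r' c' u → o + ap m u = o' + ap m' u := fun u hu hu' => by
    rw [← h u hu, ← h' u hu']
  have h1 : Win r c (r', c') ∧ Win r' c' (r', c') := by
    simp only [Win]
    omega
  have h2 : Win r c (r' + 1, c') ∧ Win r' c' (r' + 1, c') := by
    simp only [Win]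
    omega
  have h3 : Win r c (r', c' + 1) ∧ Win r' c' (r', c' + 1) := by
    simp only [Win]
    omega
  obtain ⟨rfl, rfl⟩ := coef_eq r' c' (key _ h1.1 h1.2) (key _ h2.1 h2.2) (key _ h3.1 h3.2)
  exact h'

end Pool.Agent.R554.Boggle
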