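import Mathlib

/-!
# Leaf-labelled weighted trees, the four-point condition, pairwise compatibility graphs
-/

set_option autoImplicit false

namespace Pool.Agent.R554

open SimpleGraph

/-- A finite tree `T` whose edges carry positive real weights, together with a bijection between
the set `V` and the set of leaves (the vertices with exactly one neighbour) of `T`. -/
structure LeafTree (V : Type) where
  /-- the vertices of the tree -/
  W : Type
  /-- the tree is finite -/
  fin : Finite W
  /-- the tree -/
  T : SimpleGraph W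
  /-- it is a tree -/
  tree : T.IsTree
  /-- the weights of the edges -/
  w : Sym2 W → ℝ
  /-- the weights are positive -/
  pos : ∀ e ∈ T.edgeSet, 0 < w e
  /-- the leaf with a given name -/
  leaf : V → W
  /-- different names belong to different leaves -/
  inj : Function.Injective leaf
  /-- the named vertices are the leaves -/
  range : ∀ x : W, (∃ v, leaf v = x) ↔ ∃! y, T.Adj x y

/-- The sum of the weights on the unique path between two leaves. -/
noncomputable def LeafTree.dist {V : Type} (P : LeafTree V) (u v : V) : ℝ :=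
  ((P.tree.existsUnique_path (P.leaf u) (P.leaf v)).choose.edges.map P.w).sum

section Tree

variable {W : Type} {T : SimpleGraph W}

/-- The weight of a walk. -/
def wt (w : Sym2 W → ℝ) {a b : W} (p : T.Walk a b) : ℝ := (p.edges.map w).sum

theorem wt_append (w : Sym2 W → ℝ) {a b c : W} (p : T.Walk a b) (q : T.Walk b c) :
    wt w (p.append q) = wt w p + wt w q := by
  simp [wt, Walk.edges_append]

theorem wt_reverse (w : Sym2 W → ℝ) {a b : W} (p : T.Walk a b) :
    wt w p.reverse = wt w p := by
  simp [wt, Walk.edges_reverse, List.sum_reverse]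

theorem path_eq (hT : T.IsTree) {a b : W} {p q : T.Walk a b} (hp : p.IsPath) (hq : q.IsPath) :
    p = q := (hT.existsUnique_path a b).unique hp hq

/-- The distance in a tree. -/
noncomputable def tdist (hT : T.IsTree) (w : Sym2 W → ℝ) (a b : W) : ℝ :=
  wt w (hT.existsUnique_path a b).choose

theorem tdist_eq (hT : T.IsTree) (w : Sym2 W → ℝ) {a b : W} {p : T.Walk a b} (hp : p.IsPath) :
    tdist hT w a b = wt w p := by
  unfold tdist
  rw [path_eq hT (hT.existsUnique_path a b).choose_spec.1 hp]

theorem tdist_symm (hT : T.IsTree) (w : Sym2 W → ℝ) (a b : W) :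
    tdist hT w a b = tdist hT w b a := by
  obtain ⟨p, hp, -⟩ := hT.existsUnique_path a b
  rw [tdist_eq hT w hp, tdist_eq hT w hp.reverse, wt_reverse]

theorem isPath_append {a b c : W} {p : T.Walk a b} {q : T.Walk b c} (hp : p.IsPath)
    (hq : q.IsPath) (hd : ∀ x ∈ p.support, x ∈ q.support → x = b) : (p.append q).IsPath := by
  rw [Walk.isPath_def, Walk.support_append, List.nodup_append]
  rw [Walk.isPath_def] at hp hq
  have hq' := hq
  rw [← Walk.cons_tail_support, List.nodup_cons] at hq'
  refine ⟨hp, hq'.2, fun x hx y hy hxy => ?_⟩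
  subst hxy
  have := hd x hx (List.mem_of_mem_tail hy)
  rw [this] at hy
  exact hq'.1 hy

theorem first_hit (S : Set W) {z x : W} (p : T.Walk z x) (hx : x ∈ S) :
    ∃ c ∈ S, ∃ q : T.Walk z c, ∀ v ∈ q.support, v ∈ S → v = c := by
  induction p with
  | nil => exact ⟨_, hx, Walk.nil, fun v hv _ => by simpa using hv⟩
  | @cons u v w h p ih =>
    by_cases hu : u ∈ S
    · exact ⟨u, hu, Walk.nil, fun v hv _ => by simpa using hv⟩
    · obtain ⟨c, hc, q, hq⟩ := ih hx
      refine ⟨c, hc, Walk.cons h q, fun y hy hyS => ?_⟩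
      rw [Walk.support_cons, List.mem_cons] at hy
      rcases hy with rfl | hy
      · exact absurd hyS hu
      · exact hq y hy hyS

/-- The projection of a vertex onto the path between two vertices. -/
theorem exists_proj (hT : T.IsTree) (w : Sym2 W → ℝ) {x y : W} (Q : T.Walk x y) (hQ : Q.IsPath)
    (z : W) : ∃ c ∈ Q.support, tdist hT w z x = tdist hT w z c + tdist hT w c x ∧
      tdist hT w z y = tdist hT w z c + tdist hT w c y := by
  classical
  obtain ⟨P, -, -⟩ := hT.existsUnique_path z x
  obtain ⟨c, hc, q, hq⟩ := first_hit {v | v ∈ Q.support} P (Walk.start_mem_support Q)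
  have hc' : c ∈ Q.support := hc
  refine ⟨c, hc, ?_, ?_⟩
  · obtain ⟨Q1, Q2, h1, h2, h3⟩ := hQ.mem_support_iff_exists_append.1 hc'
    have hp : (q.bypass.append Q1.reverse).IsPath := by
      refine isPath_append (Walk.bypass_isPath q) h1.reverse fun v hv hv' => ?_
      refine hq v (Walk.support_bypass_subset_support q hv) ?_
      rw [Walk.support_reverse, List.mem_reverse] at hv'
      show v ∈ Q.support
      rw [h3, Walk.mem_support_append_iff]
      exact Or.inl hv'
    rw [tdist_eq hT w hp, wt_append, tdist_eq hT w (Walk.bypass_isPath q),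
      tdist_eq hT w h1.reverse]
  · obtain ⟨Q1, Q2, h1, h2, h3⟩ := hQ.mem_support_iff_exists_append.1 hc'
    have hp : (q.bypass.append Q2).IsPath := by
      refine isPath_append (Walk.bypass_isPath q) h2 fun v hv hv' => ?_
      refine hq v (Walk.support_bypass_subset_support q hv) ?_
      show v ∈ Q.support
      rw [h3, Walk.mem_support_append_iff]
      exact Or.inr hv'
    rw [tdist_eq hT w hp, wt_append, tdist_eq hT w (Walk.bypass_isPath q), tdist_eq hT w h2]

theorem tdist_add (hT : T.IsTree) (w : Sym2 W → ℝ) {x y : W} (Q : T.Walk x y) (hQ : Q.IsPath)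
    {c : W} (hc : c ∈ Q.support) : tdist hT w x y = tdist hT w x c + tdist hT w c y := by
  obtain ⟨Q1, Q2, h1, h2, h3⟩ := hQ.mem_support_iff_exists_append.1 hc
  subst h3
  rw [tdist_eq hT w hQ, tdist_eq hT w h1, tdist_eq hT w h2, wt_append]

/-- Two vertices on a path are in one of the two orders. -/
theorem path_order (hT : T.IsTree) (w : Sym2 W → ℝ) {x y : W} (Q : T.Walk x y) (hQ : Q.IsPath)
    {c e : W} (hc : c ∈ Q.support) (he : e ∈ Q.support) :
    (tdist hT w x e = tdist hT w x c + tdist hT w c e ∧
      tdist hT w c y = tdist hT w c e + tdist hT w e y) ∨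
    (tdist hT w x c = tdist hT w x e + tdist hT w e c ∧
      tdist hT w e y = tdist hT w e c + tdist hT w c y) := by
  obtain ⟨Q1, Q2, h1, h2, h3⟩ := hQ.mem_support_iff_exists_append.1 hc
  subst h3
  rw [Walk.mem_support_append_iff] at he
  rcases he with he | he
  · right
    obtain ⟨R1, R2, k1, k2, k3⟩ := h1.mem_support_iff_exists_append.1 he
    subst k3
    rw [← Walk.append_assoc] at hQ
    refine ⟨?_, ?_⟩
    · rw [tdist_eq hT w h1, tdist_eq hT w k1, tdist_eq hT w k2, wt_append]
    · rw [tdist_eq hT w hQ.of_append_right, tdist_eq hT w k2, tdist_eq hT w h2, wt_append]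
  · left
    obtain ⟨R1, R2, k1, k2, k3⟩ := h2.mem_support_iff_exists_append.1 he
    subst k3
    rw [Walk.append_assoc] at hQ
    refine ⟨?_, ?_⟩
    · rw [tdist_eq hT w hQ.of_append_left, tdist_eq hT w h1, tdist_eq hT w k1, wt_append]
    · rw [tdist_eq hT w h2, tdist_eq hT w k1, tdist_eq hT w k2, wt_append]

theorem tdist_triangle (hT : T.IsTree) {w : Sym2 W → ℝ} (hw : ∀ e ∈ T.edgeSet, 0 < w e)
    (a b c : W) : tdist hT w a c ≤ tdist hT w a b + tdist hT w b c := by
  classical
  obtain ⟨p, hp, -⟩ := hT.existsUnique_path a b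
  obtain ⟨q, hq, -⟩ := hT.existsUnique_path b c
  rw [tdist_eq hT w hp, tdist_eq hT w hq, ← wt_append,
    tdist_eq hT w (Walk.bypass_isPath (p.append q))]
  unfold wt
  refine ((Walk.edges_bypass_sublist_edges (p.append q)).map w).sum_le_sum ?_
  intro x hx
  rw [List.mem_map] at hx
  obtain ⟨e, he, rfl⟩ := hx
  exact (hw e (Walk.edges_subset_edgeSet _ he)).le

/-- The four-point condition. -/
theorem four_point (hT : T.IsTree) {w : Sym2 W → ℝ} (hw : ∀ e ∈ T.edgeSet, 0 < w e)
    (x y z t : W) : tdist hT w x y + tdist hT w z t ≤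
      max (tdist hT w x z + tdist hT w y t) (tdist hT w x t + tdist hT w y z) := by
  obtain ⟨Q, hQ, -⟩ := hT.existsUnique_path x y
  obtain ⟨c, hc, c1, c2⟩ := exists_proj hT w Q hQ z
  obtain ⟨e, he, e1, e2⟩ := exists_proj hT w Q hQ t
  have t1 := tdist_triangle hT hw z c t
  have t2 := tdist_triangle hT hw c e t
  have s1 := tdist_symm hT w x z
  have s2 := tdist_symm hT w y z
  have s3 := tdist_symm hT w x t
  have s4 := tdist_symm hT w y t
  have s5 := tdist_symm hT w c x
  have s6 := tdist_symm hT w e x
  have s7 := tdist_symm hT w e t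
  have s8 := tdist_symm hT w e c
  rcases path_order hT w Q hQ hc he with ⟨h1, h2⟩ | ⟨h1, h2⟩
  · refine le_max_of_le_right ?_
    have h3 := tdist_add hT w Q hQ hc
    linarith
  · refine le_max_of_le_left ?_
    have h3 := tdist_add hT w Q hQ hc
    linarith

/-- A graph in which every vertex but one has a parent of smaller rank, all edges joining a vertex
to its parent, is a tree. -/
theorem isTree_of_parent [Finite W] (r : W) (par : W → W) (rk : W → ℕ)
    (h1 : ∀ x, x ≠ r → T.Adj x (par x) ∧ rk (par x) < rk x)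
    (h2 : ∀ x y, T.Adj x y → (x ≠ r ∧ par x = y) ∨ (y ≠ r ∧ par y = x)) : T.IsTree := by
  classical
  have hreach : ∀ n x, rk x ≤ n → T.Reachable x r := by
    intro n
    induction n with
    | zero =>
      intro x hx
      by_cases hxr : x = r
      · rw [hxr]
      · have := (h1 x hxr).2
        omega
    | succ n ih =>
      intro x hx
      by_cases hxr : x = r
      · rw [hxr]
      · exact (h1 x hxr).1.reachable.trans (ih _ (by have := (h1 x hxr).2; omega))
  have hconn : T.Connected := by
    have : Nonempty W := ⟨r⟩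
    exact ⟨fun x y => (hreach _ x le_rfl).trans (hreach _ y le_rfl).symm⟩
  rw [isTree_iff_connected_and_card]
  refine ⟨hconn, ?_⟩
  have h3 : Nat.card T.edgeSet ≤ Nat.card {x : W // x ≠ r} := by
    refine Nat.card_le_card_of_surjective
      (fun x => (⟨s(x.1, par x.1), (h1 x.1 x.2).1⟩ : T.edgeSet)) ?_
    rintro ⟨e, he⟩
    induction e with
    | h a b =>
      rcases h2 a b he with ⟨h, h'⟩ | ⟨h, h'⟩
      · subst h'
        exact ⟨⟨a, h⟩, rfl⟩
      · subst h'
        exact ⟨⟨b, h⟩, Subtype.ext Sym2.eq_swap⟩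
  have h4 := hconn.card_vert_le_card_edgeSet_add_one
  have h5 : Nat.card {x : W // x ≠ r} + 1 = Nat.card W := by
    have := Fintype.ofFinite W
    rw [Nat.card_eq_fintype_card, Nat.card_eq_fintype_card, Fintype.card_subtype_compl,
      Fintype.card_subtype_eq]
    have : 0 < Fintype.card W := Fintype.card_pos_iff.2 ⟨r⟩
    omega
  omega

end Tree

theorem LeafTree.dist_eq {V : Type} (P : LeafTree V) (u v : V) :
    P.dist u v = tdist P.tree P.w (P.leaf u) (P.leaf v) := rfl

theorem LeafTree.dist_symm {V : Type} (P : LeafTree V) (u v : V) : P.dist u v = P.dist v u :=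
  tdist_symm P.tree P.w _ _

theorem LeafTree.four {V : Type} (P : LeafTree V) (x y z t : V) :
    P.dist x y + P.dist z t ≤ max (P.dist x z + P.dist y t) (P.dist x t + P.dist y z) :=
  four_point P.tree P.pos _ _ _ _

/-- The graph `PCG(T, dmin, dmax)`: two distinct leaves are adjacent when their distance is between
`dmin` and `dmax`. -/
def LeafTree.pcg {V : Type} (P : LeafTree V) (dmin dmax : ℝ) : SimpleGraph V where
  Adj u v := u ≠ v ∧ dmin ≤ P.dist u v ∧ P.dist u v ≤ dmax
  symm := ⟨fun u v h => ⟨h.1.symm, by rw [P.dist_symm v u]; exact h.2⟩⟩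
  loopless := ⟨fun _ h => h.1 rfl⟩

/-- The graph `G` is a pairwise compatibility graph. -/
def IsPCG {V : Type} (G : SimpleGraph V) : Prop :=
  ∃ (P : LeafTree V) (dmin dmax : ℝ), 0 ≤ dmin ∧ dmin ≤ dmax ∧ G = P.pcg dmin dmax

/-- The question of the generalized recognition problem for the graph `G` and the set `S` of pairs:
is there a pairwise compatibility graph `PCG(T, dmin, dmax)` on the same vertices that contains
every edge of `G` and no pair in `S`? -/
def GenPCG {V : Type} (G S : SimpleGraph V) : Prop :=
  ∃ (P : LeafTree V) (dmin dmax : ℝ), 0 ≤ dmin ∧ dmin ≤ dmax ∧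
    (∀ u v, G.Adj u v → (P.pcg dmin dmax).Adj u v) ∧
    (∀ u v, S.Adj u v → ¬ (P.pcg dmin dmax).Adj u v)

end Pool.Agent.R554
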