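import Pool.Agent.H609R2.EqPoly

/-!
# Graphs whose maximal open packings all have the same size
-/

set_option autoImplicit false

namespace Pool.Agent.R554.OP

open Pool.Agent.NPC Pool.Agent.H622R2 Pool.Agent.H609R2

/-- `S` is an open packing: different members of `S` have no common neighbour. -/
def IsOpenPacking {V : Type} (G : SimpleGraph V) (S : Set V) : Prop :=
  ∀ u ∈ S, ∀ v ∈ S, u ≠ v → G.neighborSet u ∩ G.neighborSet v = ∅

/-- All maximal open packings (maximal under inclusion) have the same number of vertices. -/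
def EqualSizes {V : Type} (G : SimpleGraph V) : Prop :=
  ∀ S T : Set V, Maximal (IsOpenPacking G) S → Maximal (IsOpenPacking G) T → S.ncard = T.ncard

theorem IsOpenPacking.of_iso {V W : Type} {G : SimpleGraph V} {H : SimpleGraph W} (e : G ≃g H)
    {S : Set V} (h : IsOpenPacking G S) : IsOpenPacking H (e '' S) := by
  rintro _ ⟨u, hu, rfl⟩ _ ⟨v, hv, rfl⟩ huv
  rw [Set.eq_empty_iff_forall_notMem]
  rintro w ⟨h1, h2⟩
  have h3 := h u hu v hv (fun h => huv (by rw [h]))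
  rw [Set.eq_empty_iff_forall_notMem] at h3
  refine h3 (e.symm w) ⟨?_, ?_⟩
  · rw [SimpleGraph.mem_neighborSet] at h1 ⊢
    rw [← e.map_adj_iff]
    simpa using h1
  · rw [SimpleGraph.mem_neighborSet] at h2 ⊢
    rw [← e.map_adj_iff]
    simpa using h2

theorem maximal_image {V W : Type} {G : SimpleGraph V} {H : SimpleGraph W} (e : G ≃g H)
    {S : Set V} (h : Maximal (IsOpenPacking G) S) : Maximal (IsOpenPacking H) (e '' S) := by
  refine ⟨h.1.of_iso e, fun T hT hST => ?_⟩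
  have h1 : IsOpenPacking G (e.symm '' T) := hT.of_iso e.symm
  have h2 : S ⊆ e.symm '' T := by
    intro x hx
    exact ⟨e x, hST ⟨x, hx, rfl⟩, by simp⟩
  have h3 := h.2 h1 h2
  intro y hy
  exact ⟨e.symm y, h3 ⟨y, hy, rfl⟩, by simp⟩

theorem EqualSizes.of_iso {V W : Type} {G : SimpleGraph V} {H : SimpleGraph W} (e : G ≃g H)
    (h : EqualSizes H) : EqualSizes G := by
  intro S T hS hT
  have := h _ _ (maximal_image e hS) (maximal_image e hT)
  rwa [Set.ncard_image_of_injective _ e.injective, Set.ncard_image_of_injective _ e.injective]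
    at this

/-- Labels of the vertices of the graph of a formula. -/
abbrev Lab : Type := ℕ × ℕ × ℕ × Bool

/-- The vertices for `n` variables and `m` clauses; `L k i b` says that the literal `(b, i)` is in
the clause `k`. -/
def Valid (n m : ℕ) (L : ℕ → ℕ → Bool → Bool) (x : Lab) : Prop :=
  (x.1 = 0 ∧ x.2.1 < n ∧ x.2.2.1 = 0) ∨
  ((x.1 = 1 ∨ x.1 = 3 ∨ x.1 = 6) ∧ x.2.1 < n ∧ x.2.2.1 = 0 ∧ x.2.2.2 = false) ∨
  (x.1 = 2 ∧ x.2.1 < m + 1 ∧ x.2.2.1 = 0 ∧ x.2.2.2 = false) ∨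
  ((x.1 = 4 ∨ x.1 = 7) ∧ x.2.1 = 0 ∧ x.2.2.1 = 0 ∧ x.2.2.2 = false) ∨
  (x.1 = 5 ∧ x.2.1 < m ∧ x.2.2.1 < n ∧ L x.2.1 x.2.2.1 x.2.2.2 = true)

/-- The edges, from the vertices of one side to those of the other side. -/
def adj (y x : Lab) : Bool :=
  decide ((y.1 = 3 ∧ (x.1 = 0 ∨ x.1 = 1) ∧ x.2.1 = y.2.1) ∨
    (y.1 = 4 ∧ x.1 = 2) ∨
    (y.1 = 5 ∧ ((x.1 = 2 ∧ (x.2.1 = 0 ∨ x.2.1 = y.2.1 + 1)) ∨
      (x.1 = 0 ∧ x.2.1 = y.2.2.1 ∧ x.2.2.2 = y.2.2.2))) ∨
    (y.1 = 6 ∧ x.1 = 1 ∧ x.2.1 = y.2.1) ∨ (y.1 = 7 ∧ x.1 = 2 ∧ x.2.1 = 0))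

/-- The class of a vertex. -/
def cl (x : Lab) : ℕ × ℕ :=
  if x.1 = 0 ∨ x.1 = 1 then (0, x.2.1) else if x.1 = 2 then (1, 0) else
    if x.1 = 3 ∨ x.1 = 6 then (2, x.2.1) else (3, 0)

section

variable {n m : ℕ} {L : ℕ → ℕ → Bool → Bool} {vs : List Lab} (hvs : ∀ x, x ∈ vs ↔ Valid n m L x)

/-- Having a common neighbour. -/
def CN (vs : List Lab) (u v : Lab) : Prop :=
  ∃ w ∈ vs, (w ≠ u ∧ (adj w u = true ∨ adj u w = true)) ∧
    (w ≠ v ∧ (adj w v = true ∨ adj v w = true))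

theorem openPacking_iff (S : Set {x // x ∈ vs}) : IsOpenPacking (labGraph vs adj) S ↔
    ∀ u ∈ S, ∀ v ∈ S, u ≠ v → ¬ CN vs u.1 v.1 := by
  unfold IsOpenPacking
  refine forall₂_congr fun u hu => forall₂_congr fun v hv => forall_congr' fun huv => ?_
  rw [Set.eq_empty_iff_forall_notMem]
  constructor
  · rintro h ⟨w, hw, ⟨h1, h2⟩, h3, h4⟩
    refine h ⟨w, hw⟩ ⟨?_, ?_⟩
    · exact ⟨fun h => h1 (congrArg Subtype.val h).symm, h2.symm⟩
    · exact ⟨fun h => h3 (congrArg Subtype.val h).symm, h4.symm⟩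
  · rintro h ⟨w, hw⟩ ⟨⟨h1, h2⟩, h3, h4⟩
    exact h ⟨w, hw, ⟨fun h => h1 (Subtype.ext h).symm, h2.symm⟩,
      fun h => h3 (Subtype.ext h).symm, h4.symm⟩

include hvs

theorem cn_of_cl {u v : Lab} (hu : u ∈ vs) (hv : v ∈ vs) (h : cl u = cl v) : CN vs u v := by
  obtain ⟨k, i, j, b⟩ := u
  obtain ⟨k', i', j', b'⟩ := v
  rw [hvs] at hu hv
  simp only [Valid] at hu hv
  unfold cl at h
  simp only at h
  have hk : k < 8 := by omega
  have hk' : k' < 8 := by omega
  interval_cases k <;> interval_cases k' <;> simp at h hu hv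
  all_goals first
    | (refine ⟨(3, i, 0, false), (hvs _).2 (by simp [Valid]; omega), ⟨by simp, ?_⟩, by simp, ?_⟩ <;>
        simp [adj, h] <;> done)
    | (refine ⟨(4, 0, 0, false), (hvs _).2 (by simp [Valid]), ⟨by simp, ?_⟩, by simp, ?_⟩ <;>
        simp [adj, h] <;> done)
    | (refine ⟨(1, i, 0, false), (hvs _).2 (by simp [Valid]; omega), ⟨by simp, ?_⟩, by simp, ?_⟩ <;>
        simp [adj, h] <;> done)
    | (refine ⟨(2, 0, 0, false), (hvs _).2 (by simp [Valid]), ⟨by simp, ?_⟩, by simp, ?_⟩ <;>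
        simp [adj, h] <;> done)

omit hvs in
theorem probe1 {i : ℕ} {s : Lab} (h : CN vs (1, i, 0, false) s) : cl s = (0, i) := by
  obtain ⟨⟨k, a, j, b⟩, -, ⟨-, h1⟩, -, h2⟩ := h
  obtain ⟨k', i', j', b'⟩ := s
  simp only [adj, decide_eq_true_eq] at h1 h2
  have hk : (k = 3 ∨ k = 6) ∧ a = i := by omega
  have hk' : (k' = 0 ∨ k' = 1) ∧ i' = a := by omega
  simp only [cl]
  rw [if_pos (by omega), hk'.2, hk.2]

omit hvs in
theorem probe6 {i : ℕ} {s : Lab} (h : CN vs (6, i, 0, false) s) : cl s = (2, i) := by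
  obtain ⟨⟨k, a, j, b⟩, -, ⟨-, h1⟩, -, h2⟩ := h
  obtain ⟨k', i', j', b'⟩ := s
  simp only [adj, decide_eq_true_eq] at h1 h2
  have hk : k = 1 ∧ a = i := by omega
  have hk' : (k' = 3 ∨ k' = 6) ∧ i' = a := by omega
  simp only [cl]
  rw [if_neg (by omega), if_neg (by omega), if_pos (by omega), hk'.2, hk.2]

omit hvs in
theorem probe7 {s : Lab} (h : CN vs (7, 0, 0, false) s) : cl s = (3, 0) := by
  obtain ⟨⟨k, a, j, b⟩, -, ⟨-, h1⟩, -, h2⟩ := h
  obtain ⟨k', i', j', b'⟩ := s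
  simp only [adj, decide_eq_true_eq] at h1 h2
  have hk : k = 2 ∧ a = 0 := by omega
  have hk' : k' = 4 ∨ k' = 5 ∨ k' = 7 := by omega
  simp only [cl]
  rw [if_neg (by omega), if_neg (by omega), if_neg (by omega)]

theorem probe2 {k : ℕ} {s : Lab} (h : CN vs (2, k + 1, 0, false) s) :
    s.1 = 2 ∨ (s.1 = 0 ∧ L k s.2.1 s.2.2.2 = true) := by
  obtain ⟨⟨c, a, j, b⟩, hw, ⟨-, h1⟩, -, h2⟩ := h
  obtain ⟨k', i', j', b'⟩ := s
  rw [hvs] at hw
  simp only [adj, decide_eq_true_eq, Valid] at h1 h2 hw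
  simp only
  have hk : c = 4 ∨ (c = 5 ∧ a = k) := by omega
  rcases hk with rfl | ⟨rfl, rfl⟩
  · left; omega
  · have h3 : k' = 2 ∨ (k' = 0 ∧ i' = j ∧ b' = b) := by
      rcases h2 with h2 | h2
      · rcases h2 with h2 | h2 | h2 | h2 | h2
        · omega
        · omega
        · rcases h2.2 with h3 | h3
          · exact Or.inl h3.1
          · exact Or.inr h3
        · omega
        · omega
      · rcases h2 with h2 | h2 | h2 | h2 | h2 <;> omega
    rcases h3 with h3 | ⟨h3, h4, h5⟩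
    · exact Or.inl h3
    · right
      refine ⟨h3, ?_⟩
      rw [h4, h5]
      rcases hw with hw | hw | hw | hw | hw
      · omega
      · omega
      · omega
      · omega
      · exact hw.2.2.2

theorem cn_lit {k i : ℕ} {b : Bool} (hk : k < m) (hi : i < n) (hL : L k i b = true) (c : ℕ)
    (hc : c = 0 ∨ c = k + 1) : CN vs (0, i, 0, b) (2, c, 0, false) := by
  refine ⟨(5, k, i, b), (hvs _).2 (by simp [Valid, hk, hi, hL]), ⟨by simp, ?_⟩, by simp, ?_⟩
  · simp [adj]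
  · rcases hc with rfl | rfl <;> simp [adj]

omit hvs in
theorem not_cn_lit {i i' : ℕ} {b b' : Bool} (h : CN vs (0, i, 0, b) (0, i', 0, b')) : i = i' := by
  obtain ⟨⟨c, a, j, d⟩, -, ⟨-, h1⟩, -, h2⟩ := h
  simp only [adj, decide_eq_true_eq] at h1 h2
  rcases h1 with h1 | h1
  · rcases h1 with h1 | h1 | h1 | h1 | h1
    · rcases h2 with h2 | h2
      · rcases h2 with h2 | h2 | h2 | h2 | h2 <;> omega
      · omega
    · omega
    · rcases h1.2 with h3 | h3
      · omega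
      · rcases h2 with h2 | h2
        · rcases h2 with h2 | h2 | h2 | h2 | h2
          · omega
          · omega
          · rcases h2.2 with h4 | h4 <;> omega
          · omega
          · omega
        · omega
    · omega
    · omega
  · omega

variable {S : Set {x // x ∈ vs}}

omit hvs in
theorem class_ne (hS : Maximal (IsOpenPacking (labGraph vs adj)) S) (z : Lab) (hz : z ∈ vs)
    (hp : ∀ s ∈ vs, CN vs z s → cl s = cl z) : ∃ s ∈ S, cl s.1 = cl z := by
  by_contra hcon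
  push Not at hcon
  have h1 : IsOpenPacking (labGraph vs adj) (insert ⟨z, hz⟩ S) := by
    rw [openPacking_iff]
    have h2 := (openPacking_iff S).1 hS.1
    rintro u (rfl | hu) v (rfl | hv) huv hc
    · exact huv rfl
    · exact hcon v hv (hp _ v.2 hc)
    · refine hcon u hu (hp _ u.2 ?_)
      obtain ⟨w, hw, a, b⟩ := hc
      exact ⟨w, hw, b, a⟩
    · exact h2 u hu v hv huv hc
  exact hcon _ (hS.2 h1 (Set.subset_insert _ _) (Set.mem_insert _ _)) rfl

/-- The set contains one of the vertices for clauses. -/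
def Meets {vs : List Lab} (S : Set {x // x ∈ vs}) : Prop := ∃ s ∈ S, s.1.1 = 2

omit hvs in
theorem injOn_cl (h : ∀ u ∈ vs, ∀ v ∈ vs, cl u = cl v → CN vs u v)
    (hS : IsOpenPacking (labGraph vs adj) S) : Set.InjOn (fun s => cl s.1) S := by
  intro u hu v hv huv
  by_contra hne
  exact (openPacking_iff S).1 hS u hu v hv hne (h _ u.2 _ v.2 huv)

theorem image_cl (hS : Maximal (IsOpenPacking (labGraph vs adj)) S) :
    (fun s => cl s.1) '' S = {p | (p.1 = 0 ∧ p.2 < n) ∨ (p.1 = 2 ∧ p.2 < n) ∨ p = (3, 0) ∨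
      (p = (1, 0) ∧ Meets S)} := by
  ext p
  constructor
  · rintro ⟨⟨⟨k, i, j, b⟩, hs⟩, hsS, rfl⟩
    have hv := (hvs _).1 hs
    simp only [Valid] at hv
    simp only [cl, Set.mem_ofPred_eq]
    have hk : k < 8 := by omega
    interval_cases k <;> simp at hv ⊢
    · exact hv.1
    · exact hv.1
    · exact ⟨_, hsS, rfl⟩
    · exact hv.1
    · exact hv.1
  · rintro (⟨h1, h2⟩ | ⟨h1, h2⟩ | h | ⟨h1, ⟨⟨⟨k, i, j, b⟩, hs⟩, hsS, h2⟩⟩)
    · obtain ⟨s, hs, hc⟩ := class_ne hS (1, p.2, 0, false) ((hvs _).2 (by simp [Valid, h2]))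
        (fun s _ h => by rw [probe1 h]; simp [cl])
      refine ⟨s, hs, ?_⟩
      simp only [hc]
      exact Prod.ext h1.symm rfl
    · obtain ⟨s, hs, hc⟩ := class_ne hS (6, p.2, 0, false) ((hvs _).2 (by simp [Valid, h2]))
        (fun s _ h => by rw [probe6 h]; simp [cl])
      refine ⟨s, hs, ?_⟩
      simp only [hc]
      exact Prod.ext h1.symm rfl
    · obtain ⟨s, hs, hc⟩ := class_ne hS (7, 0, 0, false) ((hvs _).2 (by simp [Valid]))
        (fun s _ h => by rw [probe7 h]; simp [cl])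
      refine ⟨s, hs, ?_⟩
      simp only [hc]
      rw [h]
      simp [cl]
    · refine ⟨_, hsS, ?_⟩
      simp only at h2
      subst h2
      rw [h1]
      simp [cl]

theorem ncard_eq (hS : Maximal (IsOpenPacking (labGraph vs adj)) S) :
    S.ncard = ({p : ℕ × ℕ | (p.1 = 0 ∧ p.2 < n) ∨ (p.1 = 2 ∧ p.2 < n) ∨ p = (3, 0) ∨
      (p = (1, 0) ∧ Meets S)}).ncard := by
  rw [← image_cl hvs hS, Set.InjOn.ncard_image
    (injOn_cl (fun u hu v hv h => cn_of_cl hvs hu hv h) hS.1)]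

theorem ncard_ne {T : Set {x // x ∈ vs}} (hS : Maximal (IsOpenPacking (labGraph vs adj)) S)
    (hT : Maximal (IsOpenPacking (labGraph vs adj)) T) (h1 : Meets S) (h2 : ¬ Meets T) :
    S.ncard ≠ T.ncard := by
  rw [ncard_eq hvs hS, ncard_eq hvs hT]
  have hfin : ({p : ℕ × ℕ | (p.1 = 0 ∧ p.2 < n) ∨ (p.1 = 2 ∧ p.2 < n) ∨ p = (3, 0) ∨
      (p = (1, 0) ∧ Meets S)}).Finite := by
    rw [← image_cl hvs hS]
    have : Finite {x // x ∈ vs} := (List.finite_toSet vs).to_subtype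
    exact (Set.toFinite S).image _
  refine (Set.ncard_lt_ncard ⟨?_, ?_⟩ hfin).ne'
  · intro p hp
    simp only [Set.mem_ofPred_eq, h2, and_false, or_false] at hp
    simp only [Set.mem_ofPred_eq, h1, and_true]
    tauto
  · intro hsub
    have h3 : ((1, 0) : ℕ × ℕ) ∈ {p : ℕ × ℕ | (p.1 = 0 ∧ p.2 < n) ∨ (p.1 = 2 ∧ p.2 < n) ∨
        p = (3, 0) ∨ (p = (1, 0) ∧ Meets S)} := by simp [h1]
    have := hsub h3
    simp [h2] at this

omit hvs in
theorem extend {S : Set {x // x ∈ vs}} (hS : IsOpenPacking (labGraph vs adj) S) :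
    ∃ T, S ⊆ T ∧ Maximal (IsOpenPacking (labGraph vs adj)) T := by
  have : Finite {x // x ∈ vs} := (List.finite_toSet vs).to_subtype
  obtain ⟨T, h1, h2⟩ := Finite.exists_le_maximal (p := IsOpenPacking (labGraph vs adj)) hS
  exact ⟨T, h1, h2⟩

theorem equalSizes_iff : EqualSizes (labGraph vs adj) ↔
    ∀ S : Set {x // x ∈ vs}, Maximal (IsOpenPacking (labGraph vs adj)) S → Meets S := by
  constructor
  · intro h S hS
    by_contra hcon
    have hc : ((2, 0, 0, false) : Lab) ∈ vs := (hvs _).2 (by simp [Valid])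
    obtain ⟨T, h1, h2⟩ := extend (S := {(⟨(2, 0, 0, false), hc⟩ : {x // x ∈ vs})}) (by
      intro u hu v hv huv
      rw [Set.mem_singleton_iff] at hu hv
      exact absurd (hu.trans hv.symm) huv)
    exact ncard_ne hvs h2 hS ⟨_, h1 rfl, rfl⟩ hcon (h _ _ h2 hS)
  · intro h S T hS hT
    rw [ncard_eq hvs hS, ncard_eq hvs hT]
    have h1 := h S hS
    have h2 := h T hT
    simp only [h1, h2]

/-- If the formula is satisfiable then the sizes differ. -/
theorem not_equal_of_sat (hm : 0 < m) {τ : ℕ → Bool}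
    (hτ : ∀ k < m, ∃ i < n, L k i (τ i) = true) : ¬ EqualSizes (labGraph vs adj) := by
  rw [equalSizes_iff hvs]
  intro h
  have hl : ∀ i, i < n → ((0, i, 0, τ i) : Lab) ∈ vs := fun i hi => (hvs _).2 (by simp [Valid, hi])
  obtain ⟨T, h1, h2⟩ := extend (S := {x : {x // x ∈ vs} | ∃ i < n, x.1 = (0, i, 0, τ i)}) (by
    rw [openPacking_iff]
    rintro u ⟨i, hi, hu⟩ v ⟨i', hi', hv⟩ huv hc
    rw [hu, hv] at hc
    have := not_cn_lit hc
    subst this
    exact huv (Subtype.ext (hu.trans hv.symm)))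
  obtain ⟨⟨⟨k, c, j, b⟩, hs⟩, hsT, hk⟩ := h T h2
  simp only at hk
  subst hk
  have hv := (hvs _).1 hs
  have hv' : c < m + 1 ∧ j = 0 ∧ b = false := by simpa [Valid] using hv
  obtain ⟨hc, rfl, rfl⟩ := hv'
  have hpack := (openPacking_iff T).1 h2.1
  rcases Nat.eq_zero_or_pos c with rfl | hcp
  · obtain ⟨i, hi, hL⟩ := hτ 0 hm
    refine hpack ⟨_, hl i hi⟩ (h1 ⟨i, hi, rfl⟩) _ hsT (fun h => ?_)
      (cn_lit hvs hm hi hL 0 (Or.inl rfl))
    have := congrArg (fun z : {x // x ∈ vs} => z.1.1) h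
    simp at this
  · obtain ⟨i, hi, hL⟩ := hτ (c - 1) (by omega)
    refine hpack ⟨_, hl i hi⟩ (h1 ⟨i, hi, rfl⟩) _ hsT (fun h => ?_)
      (cn_lit hvs (by omega) hi hL c (Or.inr (by omega)))
    have := congrArg (fun z : {x // x ∈ vs} => z.1.1) h
    simp at this

/-- If the formula is not satisfiable then all sizes are equal. -/
theorem equal_of_unsat (hun : ∀ τ : ℕ → Bool, ∃ k < m, ∀ i < n, L k i (τ i) = false) :
    EqualSizes (labGraph vs adj) := by
  classical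
  rw [equalSizes_iff hvs]
  intro S hS
  by_contra hcon
  have hpack := (openPacking_iff S).1 hS.1
  obtain ⟨k, hk, hk'⟩ := hun (fun i => decide (∃ h : ((0, i, 0, true) : Lab) ∈ vs,
    (⟨_, h⟩ : {x // x ∈ vs}) ∈ S))
  have hc : ((2, k + 1, 0, false) : Lab) ∈ vs := (hvs _).2 (by simp [Valid, hk])
  have h1 : ∃ s ∈ S, CN vs (2, k + 1, 0, false) s.1 := by
    by_contra hno
    push Not at hno
    have h1 : IsOpenPacking (labGraph vs adj) (insert ⟨_, hc⟩ S) := by
      rw [openPacking_iff]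
      rintro u (rfl | hu) v (rfl | hv) huv hc
      · exact huv rfl
      · exact hno v hv hc
      · refine hno u hu ?_
        obtain ⟨w, hw, a, b⟩ := hc
        exact ⟨w, hw, b, a⟩
      · exact hpack u hu v hv huv hc
    exact hcon ⟨_, hS.2 h1 (Set.subset_insert _ _) (Set.mem_insert _ _), rfl⟩
  obtain ⟨⟨⟨c, i, j, b⟩, hs⟩, hsS, h2⟩ := h1
  rcases probe2 hvs h2 with h3 | ⟨h3, h4⟩
  · exact hcon ⟨_, hsS, h3⟩
  · simp only at h3 h4
    subst h3
    have hv := (hvs _).1 hs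
    have hv' : i < n ∧ j = 0 := by simpa [Valid] using hv
    obtain ⟨hi, rfl⟩ := hv'
    have h5 := hk' i hi
    cases b with
    | true =>
      have : decide (∃ h : ((0, i, 0, true) : Lab) ∈ vs, (⟨_, h⟩ : {x // x ∈ vs}) ∈ S) = true :=
        decide_eq_true ⟨hs, hsS⟩
      rw [this, h4] at h5
      exact absurd h5 (by simp)
    | false =>
      have : decide (∃ h : ((0, i, 0, true) : Lab) ∈ vs, (⟨_, h⟩ : {x // x ∈ vs}) ∈ S) = false := by
        rw [decide_eq_false_iff_not]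
        rintro ⟨h6, h7⟩
        refine hpack _ hsS _ h7 ?_ (cn_of_cl hvs hs h6 (by simp [cl]))
        intro h
        have := congrArg (fun z : {x // x ∈ vs} => z.1.2.2.2) h
        simp at this
      rw [this, h4] at h5
      exact absurd h5 (by simp)

end

end Pool.Agent.R554.OP
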