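import Pool.Agent.R554.OpenPack
import Pool.Agent.H495R3.Tri
import Pool.Agent.Y602.CIS

/-!
# Graphs whose maximal open packings all have the same size: complexity
-/

set_option autoImplicit false

namespace Pool.Agent.R554.OP

open Pool.Agent.NPC Pool.Agent.H622R2 Pool.Agent.H609R2 Pool.Agent.Y602 Pool.Agent.H495R3

/-- The vertices. -/
def labs (φ : List C3) : List Lab :=
  ddup ((List.range (3 * φ.length + 1)).flatMap (fun i =>
    [((0, i, 0, false) : Lab), (0, i, 0, true), (1, i, 0, false), (3, i, 0, false),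
      (6, i, 0, false)]) ++
    (List.range (φ.length + 1)).map (fun c => ((2, c, 0, false) : Lab)) ++
    [((4, 0, 0, false) : Lab), (7, 0, 0, false)] ++
    (List.range φ.length).flatMap (fun k => (List.range (3 * φ.length + 1)).flatMap fun i =>
      ([false, true].filter (fun b => satL φ k i b)).map (fun b => ((5, k, i, b) : Lab))))

theorem mem_labs (φ : List C3) (x : Lab) :
    x ∈ labs φ ↔ Valid (3 * φ.length + 1) φ.length (satL φ) x := by
  obtain ⟨k, i, j, b⟩ := x
  simp only [labs, mem_ddup, List.mem_append, List.mem_flatMap, List.mem_range, List.mem_cons,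
    List.not_mem_nil, or_false, Prod.mk.injEq, List.mem_map, List.mem_filter, Valid]
  constructor
  · rintro (((⟨i', hi, h⟩ | ⟨c, hc, rfl, rfl, rfl, rfl⟩) | h) | ⟨k', hk, i', hi, b', ⟨-, hb⟩, rfl,
      rfl, rfl, rfl⟩)
    · rcases h with h | h | h | h | h <;> obtain ⟨rfl, rfl, rfl, rfl⟩ := h <;> simp [hi]
    · right; right; left; simp [hc]
    · right; right; right; left
      rcases h with h | h <;> obtain ⟨rfl, rfl, rfl, rfl⟩ := h <;> simp
    · right; right; right; right
      exact ⟨rfl, hk, hi, hb⟩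
  · rintro (⟨rfl, h2, rfl⟩ | ⟨h1, h2, rfl, rfl⟩ | ⟨rfl, h2, rfl, rfl⟩ | ⟨h1, rfl, rfl, rfl⟩ |
      ⟨rfl, h2, h3, h4⟩)
    · left; left; left
      refine ⟨i, h2, ?_⟩
      cases b <;> simp
    · left; left; left
      refine ⟨i, h2, ?_⟩
      rcases h1 with rfl | rfl | rfl <;> simp
    · left; left; right
      exact ⟨i, h2, rfl, rfl, rfl, rfl⟩
    · left; right
      rcases h1 with rfl | rfl <;> simp
    · right
      exact ⟨i, h2, j, h3, b, ⟨by cases b <;> simp, h4⟩, rfl, rfl, rfl, rfl⟩

/-- The reduction. -/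
def red (φ : List C3) : List (List Bool) := mat (labs φ) adj

theorem red_correct {φ : List C3} (h2 : Bounded3 φ) (h3 : φ ≠ []) :
    SAT3 φ ↔ ¬ EqualSizes (matGraph (red φ)) := by
  have e := matIso (labs φ) adj (ddup_nodup _)
  constructor
  · intro hsat h
    obtain ⟨τ, hτ⟩ := (SAT3_iff h2).1 hsat
    exact not_equal_of_sat (mem_labs φ) (List.length_pos_iff.2 h3) hτ (h.of_iso e.symm)
  · intro h
    by_contra hun
    rw [SAT3_iff h2] at hun
    push Not at hun
    refine h (EqualSizes.of_iso e (equal_of_unsat (mem_labs φ) ?_))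
    intro τ
    obtain ⟨k, hk, h⟩ := hun τ
    exact ⟨k, hk, fun i hi => by simpa using h i hi⟩

theorem red_bip (φ : List C3) : (matGraph (red φ)).Colorable 2 := by
  have e := matIso (labs φ) adj (ddup_nodup _)
  have h : (labGraph (labs φ) adj).Colorable 2 := by
    refine ⟨SimpleGraph.Coloring.mk (fun x => if x.1.1 ≤ 2 then (0 : Fin 2) else 1) ?_⟩
    rintro ⟨⟨k, i, j, b⟩, hx⟩ ⟨⟨k', i', j', b'⟩, hy⟩ ⟨-, h⟩
    simp only [adj, decide_eq_true_eq] at h ⊢
    have h' : (k ≤ 2 ∧ ¬ k' ≤ 2) ∨ (¬ k ≤ 2 ∧ k' ≤ 2) := by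
      rcases h with h | h
      · rcases h with h | h | h | h | h
        · omega
        · omega
        · rcases h.2 with h' | h' <;> omega
        · omega
        · omega
      · rcases h with h | h | h | h | h
        · omega
        · omega
        · rcases h.2 with h' | h' <;> omega
        · omega
        · omega
    rcases h' with ⟨h1, h2⟩ | ⟨h1, h2⟩ <;> simp [h1, h2]
  obtain ⟨c⟩ := h
  exact ⟨c.comp e.toHom⟩

section PolyTime

open Poly

theorem labs_poly : Poly labs := by
  have hr : Poly (fun φ : List C3 => List.range (3 * φ.length + 1)) :=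
    (((UPoly.const 3).mul (UPoly.length Poly.id)).add (UPoly.const 1)).range
  have hr1 : Poly (fun φ : List C3 => List.range (φ.length + 1)) :=
    ((UPoly.length Poly.id).add (UPoly.const 1)).range
  have hr2 : Poly (fun φ : List C3 => List.range φ.length) := range_length Poly.id
  have h1 : Poly (fun φ : List C3 => (List.range (3 * φ.length + 1)).flatMap (fun i =>
      [((0, i, 0, false) : Lab), (0, i, 0, true), (1, i, 0, false), (3, i, 0, false),
      (6, i, 0, false)])) :=
    flatMap (F := fun (_ : List C3) i => [((0, i, 0, false) : Lab), (0, i, 0, true),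
      (1, i, 0, false), (3, i, 0, false), (6, i, 0, false)]) hr (by fun_prop)
  have h2 : Poly (fun φ : List C3 => (List.range (φ.length + 1)).map
      (fun c => ((2, c, 0, false) : Lab))) :=
    map (F := fun (_ : List C3) c => ((2, c, 0, false) : Lab)) hr1 (by fun_prop)
  have h3 : Poly (fun p : (List C3 × ℕ) × ℕ =>
      ([false, true].filter (fun b => satL p.1.1 p.1.2 p.2 b)).map
        (fun b => ((5, p.1.2, p.2, b) : Lab))) :=
    map (F := fun (p : (List C3 × ℕ) × ℕ) b => ((5, p.1.2, p.2, b) : Lab))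
      (filter (p := fun (p : (List C3 × ℕ) × ℕ) b => satL p.1.1 p.1.2 p.2 b) (const _)
        (satL_poly (fst (fst (fst id))) (snd (fst (fst id))) (snd (fst id)) (snd id)))
      (by fun_prop)
  have h4 : Poly (fun p : List C3 × ℕ => (List.range (3 * p.1.length + 1)).flatMap fun i =>
      ([false, true].filter (fun b => satL p.1 p.2 i b)).map (fun b => ((5, p.2, i, b) : Lab))) :=
    flatMap (F := fun (p : List C3 × ℕ) i =>
      ([false, true].filter (fun b => satL p.1 p.2 i b)).map
        (fun b => ((5, p.2, i, b) : Lab))) (hr.comp (fst id)) h3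
  have h5 : Poly (fun φ : List C3 => (List.range φ.length).flatMap (fun k =>
      (List.range (3 * φ.length + 1)).flatMap fun i =>
      ([false, true].filter (fun b => satL φ k i b)).map (fun b => ((5, k, i, b) : Lab)))) :=
    flatMap (F := fun (φ : List C3) k => (List.range (3 * φ.length + 1)).flatMap fun i =>
      ([false, true].filter (fun b => satL φ k i b)).map (fun b => ((5, k, i, b) : Lab))) hr2 h4
  exact ddup_poly (append (append (append h1 h2) (const _)) h5)

theorem adj_poly : Poly (fun p : (List C3 × Lab) × Lab => adj p.1.2 p.2) := by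
  unfold adj
  fun_prop

theorem red_poly : Poly red := mat_poly (adj := fun _ u v => adj u v) labs_poly adj_poly

end PolyTime

/-- Not having equal sizes is hard, for bipartite graphs. -/
theorem hardPr_not : HardPr (fun M : List (List Bool) => (matGraph M).Colorable 2)
    (fun M => ¬ EqualSizes (matGraph M)) :=
  hardPr_SAT3b.trans red_poly (fun φ _ => red_bip φ) (fun _ h => red_correct h.2.1 h.2.2)

/-! ### Membership in coNP -/

/-- Two vertices have a common neighbour. -/
def cnB (M : List (List Bool)) (i j : ℕ) : Bool :=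
  (List.range M.length).any fun w => adjB M w i && adjB M w j

theorem cnB_iff (M : List (List Bool)) (i j : Fin M.length) : cnB M i j = true ↔
    ((matGraph M).neighborSet i ∩ (matGraph M).neighborSet j).Nonempty := by
  simp only [cnB, List.any_eq_true, List.mem_range, Bool.and_eq_true]
  constructor
  · rintro ⟨w, hw, h1, h2⟩
    exact ⟨⟨w, hw⟩, ((adjB_iff M ⟨w, hw⟩ i).1 h1).symm, ((adjB_iff M ⟨w, hw⟩ j).1 h2).symm⟩
  · rintro ⟨w, h1, h2⟩
    exact ⟨w, w.2, (adjB_iff M w i).2 h1.symm, (adjB_iff M w j).2 h2.symm⟩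

/-- `K` lists a maximal open packing. -/
def mpB (M : List (List Bool)) (K : List ℕ) : Bool :=
  decide (K = (List.range M.length).filter fun i => decide (i ∈ K)) &&
  (K.all fun i => K.all fun j => decide (i = j) || !cnB M i j) &&
  ((List.range M.length).all fun x => decide (x ∈ K) || K.any fun i => cnB M i x)

/-- The verifier. -/
def chk (p : List (List Bool) × List ℕ × List ℕ) : Bool :=
  mpB p.1 p.2.1 && mpB p.1 p.2.2 && !decide (p.2.1.length = p.2.2.length)

theorem cnB_poly {α : Type} [TEnc α] {M : α → List (List Bool)} {i j : α → ℕ}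
    (hM : Poly M) (hi : Poly i) (hj : Poly j) : Poly (fun a => cnB (M a) (i a) (j a)) := by
  unfold cnB
  refine Poly.any (p := fun a w => adjB (M a) w (i a) && adjB (M a) w (j a))
    (Poly.range_length hM) ?_
  exact Poly.and (adjB_poly (hM.comp (Poly.fst Poly.id)) (Poly.snd Poly.id)
    (hi.comp (Poly.fst Poly.id))) (adjB_poly (hM.comp (Poly.fst Poly.id)) (Poly.snd Poly.id)
    (hj.comp (Poly.fst Poly.id)))

theorem mpB_poly {α : Type} [TEnc α] {M : α → List (List Bool)} {K : α → List ℕ}
    (hM : Poly M) (hK : Poly K) : Poly (fun a => mpB (M a) (K a)) := by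
  have hr : Poly (fun a => List.range (M a).length) := Poly.range_length hM
  have h1 : Poly (fun a => (List.range (M a).length).filter fun i => decide (i ∈ K a)) :=
    Poly.filter (p := fun a i => decide (i ∈ K a)) hr (by fun_prop)
  have h2 : Poly (fun p : (α × ℕ) × ℕ => decide (p.1.2 = p.2) || !cnB (M p.1.1) p.1.2 p.2) :=
    Poly.or (by fun_prop) (Poly.not (cnB_poly (hM.comp (Poly.fst (Poly.fst Poly.id)))
      (Poly.snd (Poly.fst Poly.id)) (Poly.snd Poly.id)))
  have h3 : Poly (fun p : α × ℕ => (K p.1).all fun j =>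
      decide (p.2 = j) || !cnB (M p.1) p.2 j) :=
    Poly.all (p := fun (p : α × ℕ) j => decide (p.2 = j) || !cnB (M p.1) p.2 j)
      (hK.comp (Poly.fst Poly.id)) h2
  have h4 : Poly (fun a => (K a).all fun i => (K a).all fun j =>
      decide (i = j) || !cnB (M a) i j) :=
    Poly.all (p := fun a i => (K a).all fun j => decide (i = j) || !cnB (M a) i j) hK h3
  have h5 : Poly (fun p : (α × ℕ) × ℕ => cnB (M p.1.1) p.2 p.1.2) :=
    cnB_poly (hM.comp (Poly.fst (Poly.fst Poly.id))) (Poly.snd Poly.id)
      (Poly.snd (Poly.fst Poly.id))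
  have h6 : Poly (fun p : α × ℕ => decide (p.2 ∈ K p.1) || (K p.1).any fun i =>
      cnB (M p.1) i p.2) :=
    Poly.or (by fun_prop) (Poly.any (p := fun (p : α × ℕ) i => cnB (M p.1) i p.2)
      (hK.comp (Poly.fst Poly.id)) h5)
  have h7 : Poly (fun a => (List.range (M a).length).all fun x =>
      decide (x ∈ K a) || (K a).any fun i => cnB (M a) i x) :=
    Poly.all (p := fun a x => decide (x ∈ K a) || (K a).any fun i => cnB (M a) i x) hr h6
  exact Poly.and (Poly.and (Poly.dec_eq hK h1) h4) h7

theorem chk_poly : Poly chk :=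
  Poly.and (Poly.and (mpB_poly (Poly.fst Poly.id) (Poly.fst (Poly.snd Poly.id)))
    (mpB_poly (Poly.fst Poly.id) (Poly.snd (Poly.snd Poly.id)))) (by fun_prop)

theorem filter_self {l : List ℕ} (p : ℕ → Bool) :
    l.filter p = l.filter (fun i => decide (i ∈ l.filter p)) :=
  List.filter_congr fun i hi => by simp [hi]

theorem mpB_listOf {M : List (List Bool)} {S : Set (Fin M.length)}
    (hS : Maximal (IsOpenPacking (matGraph M)) S) : mpB M (listOf M S) = true := by
  simp only [mpB, Bool.and_eq_true, List.all_eq_true, decide_eq_true_eq, Bool.not_eq_true',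
    Bool.or_eq_true, List.any_eq_true, List.mem_range]
  refine ⟨⟨?_, ?_⟩, ?_⟩
  · unfold listOf
    exact filter_self _
  · intro i hi j hj
    obtain ⟨hi1, hi2⟩ := (mem_listOf i).1 hi
    obtain ⟨hj1, hj2⟩ := (mem_listOf j).1 hj
    by_cases hij : i = j
    · exact Or.inl hij
    · right
      rw [← Bool.not_eq_true, cnB_iff M ⟨i, hi1⟩ ⟨j, hj1⟩, hS.1 _ hi2 _ hj2
        (fun h => hij (congrArg Fin.val h))]
      exact Set.not_nonempty_empty
  · intro x hx
    by_cases hxS : (⟨x, hx⟩ : Fin M.length) ∈ S
    · exact Or.inl ((mem_listOf x).2 ⟨hx, hxS⟩)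
    · right
      by_contra hcon
      push Not at hcon
      apply hxS
      have key : ∀ v ∈ S, (matGraph M).neighborSet v ∩ (matGraph M).neighborSet ⟨x, hx⟩ = ∅ := by
        intro v hv
        have h1 := hcon v.1 ((mem_listOf v.1).2 ⟨v.2, hv⟩)
        rw [ne_eq, cnB_iff M v ⟨x, hx⟩, Set.not_nonempty_iff_eq_empty] at h1
        exact h1
      have h1 : IsOpenPacking (matGraph M) (insert ⟨x, hx⟩ S) := by
        rintro u (rfl | hu) v (rfl | hv) huv
        · exact absurd rfl huv
        · rw [Set.inter_comm]; exact key v hv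
        · exact key u hu
        · exact hS.1 u hu v hv huv
      exact hS.2 h1 (Set.subset_insert _ _) (Set.mem_insert _ _)

theorem listOf_length {M : List (List Bool)} (S : Set (Fin M.length)) :
    (listOf M S).length = S.ncard := by
  classical
  have hnd : (listOf M S).Nodup := List.nodup_range.filter _
  have h1 : ((fun x : Fin M.length => (x : ℕ)) '' S) = ((listOf M S).toFinset : Set ℕ) := by
    ext i
    rw [Finset.mem_coe, List.mem_toFinset, mem_listOf]
    constructor
    · rintro ⟨x, hx, rfl⟩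
      exact ⟨x.2, hx⟩
    · rintro ⟨h, hx⟩
      exact ⟨⟨i, h⟩, hx, rfl⟩
  rw [← Set.ncard_image_of_injective S Fin.val_injective, h1, Set.ncard_coe_finset,
    List.toFinset_card_of_nodup hnd]

theorem of_mpB {M : List (List Bool)} {K : List ℕ} (h : mpB M K = true) :
    ∃ S : Set (Fin M.length), Maximal (IsOpenPacking (matGraph M)) S ∧ S.ncard = K.length := by
  classical
  simp only [mpB, Bool.and_eq_true, List.all_eq_true, decide_eq_true_eq, Bool.not_eq_true',
    Bool.or_eq_true, List.any_eq_true, List.mem_range] at h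
  obtain ⟨⟨h1, h2⟩, h3⟩ := h
  have hlt : ∀ i ∈ K, i < M.length := by
    intro i hi
    rw [h1, List.mem_filter, List.mem_range] at hi
    exact hi.1
  refine ⟨{x | (x : ℕ) ∈ K}, ⟨?_, ?_⟩, ?_⟩
  · intro u hu v hv huv
    rcases h2 _ hu _ hv with h4 | h4
    · exact absurd (Fin.ext h4) huv
    · rwa [← Bool.not_eq_true, cnB_iff M u v, Set.not_nonempty_iff_eq_empty] at h4
  · intro T hT hST x hx
    rcases h3 x.1 x.2 with h4 | ⟨i, hi, h4⟩
    · exact h4
    · by_contra hxK
      have h5 : (⟨i, hlt i hi⟩ : Fin M.length) ∈ T := hST hi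
      have hne : (⟨i, hlt i hi⟩ : Fin M.length) ≠ x := by
        rintro rfl
        exact hxK hi
      have h6 := (cnB_iff M ⟨i, hlt i hi⟩ x).1 h4
      rw [hT _ h5 _ hx hne] at h6
      exact Set.not_nonempty_empty h6
  · have h4 : listOf M {x : Fin M.length | (x : ℕ) ∈ K} = K := by
      conv_rhs => rw [h1]
      unfold listOf
      refine List.filter_congr fun i hi => ?_
      rw [decide_eq_decide]
      exact ⟨fun ⟨_, h⟩ => h, fun h => ⟨List.mem_range.1 hi, h⟩⟩
    rw [← listOf_length, h4]

theorem not_equal_iff (M : List (List Bool)) :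
    ¬ EqualSizes (matGraph M) ↔
      ∃ w : List ℕ × List ℕ, sz w ≤ (Polynomial.C 8 * Polynomial.X * Polynomial.X +
        Polynomial.C 20 * Polynomial.X + Polynomial.C 20 : Polynomial ℕ).eval (sz M) ∧
        chk (M, w) = true := by
  constructor
  · intro h
    unfold EqualSizes at h
    push Not at h
    obtain ⟨S, T, hS, hT, hne⟩ := h
    refine ⟨(listOf M S, listOf M T), ?_, ?_⟩
    · have h1 := sz_listOf_le M S
      have h2 := sz_listOf_le M T
      have h5 := length_lt_sz M
      simp only [sz_pair, Polynomial.eval_add, Polynomial.eval_mul, Polynomial.eval_C,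
        Polynomial.eval_X]
      nlinarith
    · simp only [chk, Bool.and_eq_true, Bool.not_eq_true', decide_eq_false_iff_not]
      exact ⟨⟨mpB_listOf hS, mpB_listOf hT⟩, by rw [listOf_length, listOf_length]; exact hne⟩
  · rintro ⟨⟨K, T⟩, -, hc⟩ h
    simp only [chk, Bool.and_eq_true, Bool.not_eq_true', decide_eq_false_iff_not] at hc
    obtain ⟨⟨h1, h2⟩, h3⟩ := hc
    obtain ⟨S, hS, hS'⟩ := of_mpB h1
    obtain ⟨S2, hS2, hS2'⟩ := of_mpB h2
    exact h3 (by rw [← hS', ← hS2']; exact h S S2 hS hS2)

theorem inCoNP_equal : InCoNPP (fun M : List (List Bool) => EqualSizes (matGraph M)) :=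
  inCoNPP_of chk_poly _ not_equal_iff

end Pool.Agent.R554.OP
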