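import Pool.Agent.R554.PCGInst

/-!
# From an assignment to a tree
-/

set_option autoImplicit false

namespace Pool.Agent.R554.PCG

open Pool.Agent.NPC Pool.Agent.NPC.WC648 Pool.Agent.H622R2

/-- the position of the first point of a variable -/
def sg (b : Bool) : ℤ := if b then -6 else 6

/-- the positions of the points of a clause -/
def tab (b1 b2 b3 : Bool) (i : ℕ) : ℤ :=
  match b1, b2, b3, i with
  | false, false, true, 4 => -11
  | false, false, true, 5 => 0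
  | false, false, true, 6 => 11
  | false, false, true, 7 => -6
  | false, true, true, 4 => -6
  | false, true, true, 5 => 11
  | false, true, true, 6 => 0
  | false, true, true, 7 => -11
  | false, true, false, 4 => -3
  | false, true, false, 5 => 8
  | false, true, false, 6 => -6
  | false, true, false, 7 => 6
  | true, true, false, 4 => 11
  | true, true, false, 5 => 0
  | true, true, false, 6 => -11
  | true, true, false, 7 => 6
  | true, false, false, 4 => 6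
  | true, false, false, 5 => -11
  | true, false, false, 6 => 0
  | true, false, false, 7 => 11
  | true, false, true, 4 => 3
  | true, false, true, 5 => -8
  | true, false, true, 6 => 6
  | true, false, true, 7 => -6
  | _, _, _, _ => 0

/-- the position of a point -/
def Y (φ : Fm) (τ : NV → Bool) (x : Pt) : ℤ :=
  if x.1 = 0 ∨ x.1 = 3 then sg (τ x.2) else if x.1 = 1 ∨ x.1 = 2 then - sg (τ x.2) else
    (φ[x.2.1]?).elim 0 (fun t => tab (τ t.1) (τ t.2.1) (τ t.2.2) x.1)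

theorem sg_bd (b : Bool) : -11 ≤ sg b ∧ sg b ≤ 11 := by cases b <;> decide

theorem tab_bd (b1 b2 b3 : Bool) (i : ℕ) : -11 ≤ tab b1 b2 b3 i ∧ tab b1 b2 b3 i ≤ 11 := by
  unfold tab
  split <;> decide

theorem Y_bd (φ : Fm) (τ : NV → Bool) (x : Pt) : -11 ≤ Y φ τ x ∧ Y φ τ x ≤ 11 := by
  unfold Y
  have := sg_bd (τ x.2)
  split_ifs
  · exact this
  · constructor <;> omega
  · cases h : φ[x.2.1]? with
    | none => simp
    | some t => exact tab_bd _ _ _ _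

theorem Y0 (φ : Fm) (τ : NV → Bool) (v : NV) : Y φ τ (0, v) = sg (τ v) := by simp [Y]
theorem Y1 (φ : Fm) (τ : NV → Bool) (v : NV) : Y φ τ (1, v) = - sg (τ v) := by simp [Y]
theorem Y2 (φ : Fm) (τ : NV → Bool) (v : NV) : Y φ τ (2, v) = - sg (τ v) := by simp [Y]
theorem Y3 (φ : Fm) (τ : NV → Bool) (v : NV) : Y φ τ (3, v) = sg (τ v) := by simp [Y]
theorem Yq {φ : Fm} (τ : NV → Bool) {t : NV × NV × NV} {j : ℕ} (ht : φ[j]? = some t) (i : ℕ)
    (hi : 4 ≤ i) : Y φ τ (q i j) = tab (τ t.1) (τ t.2.1) (τ t.2.2) i := by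
  unfold Y q
  rw [if_neg (by simp; omega), if_neg (by simp; omega)]
  simp [ht]

theorem tabE : ∀ b1 b2 b3 : Bool, ¬ (b1 = b2 ∧ b2 = b3) →
    (-10 ≤ tab b1 b2 b3 4 - tab b1 b2 b3 7 ∧ tab b1 b2 b3 4 - tab b1 b2 b3 7 ≤ 10) ∧
    (-10 ≤ sg b1 - tab b1 b2 b3 5 ∧ sg b1 - tab b1 b2 b3 5 ≤ 10) ∧
    (-10 ≤ tab b1 b2 b3 4 - - sg b1 ∧ tab b1 b2 b3 4 - - sg b1 ≤ 10) ∧
    (-10 ≤ - sg b2 - tab b1 b2 b3 5 ∧ - sg b2 - tab b1 b2 b3 5 ≤ 10) ∧
    (-10 ≤ tab b1 b2 b3 6 - sg b2 ∧ tab b1 b2 b3 6 - sg b2 ≤ 10) ∧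
    (-10 ≤ sg b3 - tab b1 b2 b3 7 ∧ sg b3 - tab b1 b2 b3 7 ≤ 10) ∧
    (-10 ≤ tab b1 b2 b3 6 - - sg b3 ∧ tab b1 b2 b3 6 - - sg b3 ≤ 10) := by decide

theorem tabS : ∀ b1 b2 b3 : Bool, ¬ (b1 = b2 ∧ b2 = b3) →
    (tab b1 b2 b3 4 - tab b1 b2 b3 5 < -10 ∨ 10 < tab b1 b2 b3 4 - tab b1 b2 b3 5) ∧
    (tab b1 b2 b3 6 - tab b1 b2 b3 5 < -10 ∨ 10 < tab b1 b2 b3 6 - tab b1 b2 b3 5) ∧
    (tab b1 b2 b3 6 - tab b1 b2 b3 7 < -10 ∨ 10 < tab b1 b2 b3 6 - tab b1 b2 b3 7) := by decide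

theorem vE_ok : ∀ b : Bool, (-10 ≤ sg b - sg b ∧ sg b - sg b ≤ 10) ∧
    (-10 ≤ - sg b - - sg b ∧ - sg b - - sg b ≤ 10) := by decide

theorem vS_ok : ∀ b : Bool, (sg b - - sg b < -10 ∨ 10 < sg b - - sg b) ∧
    (- sg b - sg b < -10 ∨ 10 < - sg b - sg b) := by decide

theorem eL_ok {φ : Fm} {τ : NV → Bool} (hτ : ∀ t ∈ φ, ¬ (τ t.1 = τ t.2.1 ∧ τ t.2.1 = τ t.2.2))
    {k : Pt × Pt} (hk : k ∈ eL φ) : cls k.1 = false ∧ cls k.2 = true ∧
      (-10 ≤ Y φ τ k.1 - Y φ τ k.2 ∧ Y φ τ k.1 - Y φ τ k.2 ≤ 10) := by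
  rw [mem_eL_iff] at hk
  rcases hk with ⟨v, hv, hx⟩ | ⟨t, j, ht, hx⟩
  · simp only [vE, List.mem_cons, List.not_mem_nil, or_false] at hx
    have := vE_ok (τ v)
    rcases hx with rfl | rfl
    · exact ⟨by simp [cls], by simp [cls], by simp only [Y0, Y3]; exact this.1⟩
    · exact ⟨by simp [cls], by simp [cls], by simp only [Y1, Y2]; exact this.2⟩
  · have ht' := List.mem_of_getElem? ht
    obtain ⟨h1, h2, h3, h4, h5, h6, h7⟩ := tabE (τ t.1) (τ t.2.1) (τ t.2.2) (hτ t ht')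
    simp only [cE, List.mem_cons, List.not_mem_nil, or_false] at hx
    rcases hx with rfl | rfl | rfl | rfl | rfl | rfl | rfl
    · refine ⟨by simp [cls, q], by simp [cls, q], ?_⟩
      rw [Yq τ ht 4 (by omega), Yq τ ht 7 (by omega)]; exact h1
    · refine ⟨by simp [cls], by simp [cls, q], ?_⟩
      rw [Yq τ ht 5 (by omega), Y0]; exact h2
    · refine ⟨by simp [cls, q], by simp [cls], ?_⟩
      rw [Yq τ ht 4 (by omega), Y1]; exact h3
    · refine ⟨by simp [cls], by simp [cls, q], ?_⟩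
      rw [Yq τ ht 5 (by omega), Y2]; exact h4
    · refine ⟨by simp [cls, q], by simp [cls], ?_⟩
      rw [Yq τ ht 6 (by omega), Y3]; exact h5
    · refine ⟨by simp [cls], by simp [cls, q], ?_⟩
      rw [Yq τ ht 7 (by omega), Y0]; exact h6
    · refine ⟨by simp [cls, q], by simp [cls], ?_⟩
      rw [Yq τ ht 6 (by omega), Y1]; exact h7

theorem sL_ok {φ : Fm} {τ : NV → Bool} (hτ : ∀ t ∈ φ, ¬ (τ t.1 = τ t.2.1 ∧ τ t.2.1 = τ t.2.2))
    {k : Pt × Pt} (hk : k ∈ sL φ) : cls k.1 = false ∧ cls k.2 = true ∧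
      (Y φ τ k.1 - Y φ τ k.2 < -10 ∨ 10 < Y φ τ k.1 - Y φ τ k.2) := by
  rw [mem_sL_iff] at hk
  rcases hk with ⟨v, hv, hx⟩ | ⟨t, j, ht, hx⟩
  · simp only [vS, List.mem_cons, List.not_mem_nil, or_false] at hx
    have := vS_ok (τ v)
    rcases hx with rfl | rfl
    · exact ⟨by simp [cls], by simp [cls], by simp only [Y0, Y1]; exact this.1⟩
    · exact ⟨by simp [cls], by simp [cls], by simp only [Y2, Y3]; exact this.2⟩
  · have ht' := List.mem_of_getElem? ht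
    obtain ⟨h1, h2, h3⟩ := tabS (τ t.1) (τ t.2.1) (τ t.2.2) (hτ t ht')
    simp only [cS, List.mem_cons, List.not_mem_nil, or_false] at hx
    rcases hx with rfl | rfl | rfl
    · refine ⟨by simp [cls, q], by simp [cls, q], ?_⟩
      rw [Yq τ ht 4 (by omega), Yq τ ht 5 (by omega)]; exact h1
    · refine ⟨by simp [cls, q], by simp [cls, q], ?_⟩
      rw [Yq τ ht 6 (by omega), Yq τ ht 5 (by omega)]; exact h2
    · refine ⟨by simp [cls, q], by simp [cls, q], ?_⟩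
      rw [Yq τ ht 6 (by omega), Yq τ ht 7 (by omega)]; exact h3

/-! ### The tree -/

section tree

variable (φ : Fm) (τ : NV → Bool)

/-- the points, as a type -/
abbrev XX : Type := {x : Pt // x ∈ ptsL φ}
/-- the gadgets, as a type -/
abbrev KK : Type := {k : Pt × Pt // k ∈ fL φ}

instance : Finite (XX φ) := (List.finite_toSet (ptsL φ)).to_subtype
instance : Finite (KK φ) := (List.finite_toSet (fL φ)).to_subtype

/-- the length of the leg of a point -/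
noncomputable def al (x : Pt) : ℝ := if cls x = true then 13 - (Y φ τ x : ℝ) else 13 + (Y φ τ x : ℝ)

theorem al_bd (x : Pt) : 2 ≤ al φ τ x ∧ al φ τ x ≤ 24 := by
  obtain ⟨h1, h2⟩ := Y_bd φ τ x
  have h1' : (-11 : ℝ) ≤ (Y φ τ x : ℝ) := by exact_mod_cast h1
  have h2' : (Y φ τ x : ℝ) ≤ 11 := by exact_mod_cast h2
  unfold al
  split_ifs <;> constructor <;> linarith

/-- the point to which a gadget is attached -/
noncomputable def attP (k : Pt × Pt) : Pt := if al φ τ k.2 ≤ al φ τ k.1 then k.1 else k.2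
/-- the other point of a gadget -/
noncomputable def othP (k : Pt × Pt) : Pt := if al φ τ k.2 ≤ al φ τ k.1 then k.2 else k.1

theorem att_oth (k : Pt × Pt) : (attP φ τ k = k.1 ∧ othP φ τ k = k.2) ∨
    (attP φ τ k = k.2 ∧ othP φ τ k = k.1) := by
  unfold attP othP
  split_ifs
  · exact Or.inl ⟨rfl, rfl⟩
  · exact Or.inr ⟨rfl, rfl⟩

theorem al_att_oth (k : Pt × Pt) : al φ τ (othP φ τ k) ≤ al φ τ (attP φ τ k) := by
  unfold attP othP
  split_ifs with h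
  · exact h
  · exact (not_le.1 h).le

/-- the length of the stems of a gadget -/
noncomputable def stl (k : Pt × Pt) : ℝ :=
  500 - min (al φ τ (attP φ τ k) - 1) (al φ τ (othP φ τ k) + 1)

theorem stl_pos (k : Pt × Pt) : 400 < stl φ τ k := by
  unfold stl
  have h1 := al_bd φ τ (othP φ τ k)
  have h2 := min_le_right (al φ τ (attP φ τ k) - 1) (al φ τ (othP φ τ k) + 1)
  linarith [h1.2]

theorem attP_mem (k : KK φ) : attP φ τ k.1 ∈ ptsL φ := by
  obtain ⟨h1, h2, -, -⟩ := fL_pts k.2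
  rcases att_oth φ τ k.1 with ⟨h, -⟩ | ⟨h, -⟩ <;> rw [h] <;> assumption

/-- renaming of the vertices -/
def ren : {l : Lb // l ∈ labs φ} ≃ XX φ ⊕ KK φ × Bool × Bool where
  toFun l := match l with
    | ⟨Sum.inl x, h⟩ => Sum.inl ⟨x, (mem_labs_inl φ x).1 h⟩
    | ⟨Sum.inr (k, j, i), h⟩ => Sum.inr (⟨k, (mem_labs_inr φ k j i).1 h⟩, j, i)
  invFun l := match l with
    | Sum.inl x => ⟨Sum.inl x.1, (mem_labs_inl φ x.1).2 x.2⟩
    | Sum.inr (k, j, i) => ⟨Sum.inr (k.1, j, i), (mem_labs_inr φ k.1 j i).2 k.2⟩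
  left_inv l := by rcases l with ⟨x | ⟨k, j, i⟩, h⟩ <;> rfl
  right_inv l := by rcases l with x | ⟨k, j, i⟩ <;> rfl

theorem hx_cls : ∀ c, ∃ x : XX φ, cls x.1 = c := by
  have hv : ((0, 0, false) : NV) ∈ vars φ := by simp [vars]
  intro c
  cases c
  · exact ⟨⟨(0, 0, 0, false), pts_v hv (by omega)⟩, by simp [cls]⟩
  · exact ⟨⟨(1, 0, 0, false), pts_v hv (by omega)⟩, by simp [cls]⟩

/-- The tree for an assignment. -/
noncomputable def tree0 : LeafTree (XX φ ⊕ KK φ × Bool × Bool) :=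
  TW.leafTree (fun x : XX φ => cls x.1) (fun k : KK φ => (⟨attP φ τ k.1, attP_mem φ τ k⟩ : XX φ))
    (fun x => al φ τ x.1) 984 (fun k => stl φ τ k.1) 500 (hx_cls φ)
    (fun x => by have := (al_bd φ τ x.1).1; linarith) (by norm_num)
    (fun k => by have := stl_pos φ τ k.1; linarith) (by norm_num)

/-- The tree for an assignment, with the labels as leaves. -/
noncomputable def tree1 : LeafTree {l : Lb // l ∈ labs φ} := (tree0 φ τ).map (ren φ)


theorem al_A {x : Pt} (h : cls x = false) : al φ τ x = 13 + (Y φ τ x : ℝ) := by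
  simp [al, h]

theorem al_B {x : Pt} (h : cls x = true) : al φ τ x = 13 - (Y φ τ x : ℝ) := by
  simp [al, h]

theorem d_same (x y : XX φ) (hxy : x ≠ y) (hc : cls x.1 = cls y.1) :
    (tree0 φ τ).dist (Sum.inl x) (Sum.inl y) = al φ τ x.1 + al φ τ y.1 :=
  TW.dist_same _ _ _ _ _ _ _ _ _ _ _ x y hxy hc

theorem d_diff (x y : XX φ) (hx : cls x.1 = false) (hy : cls y.1 = true) :
    (tree0 φ τ).dist (Sum.inl x) (Sum.inl y) = 1010 + ((Y φ τ x.1 : ℝ) - (Y φ τ y.1 : ℝ)) := by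
  have h := TW.dist_diff (fun x : XX φ => cls x.1)
    (fun k : KK φ => (⟨attP φ τ k.1, attP_mem φ τ k⟩ : XX φ))
    (fun x => al φ τ x.1) 984 (fun k => stl φ τ k.1) 500 (hx_cls φ)
    (fun x => by have := (al_bd φ τ x.1).1; linarith) (by norm_num)
    (fun k => by have := stl_pos φ τ k.1; linarith) (by norm_num) x y hx hy
  rw [al_A φ τ hx, al_B φ τ hy] at h
  have h' : (tree0 φ τ).dist (Sum.inl x) (Sum.inl y) = _ := h
  rw [h']
  ring

theorem d_gad (x : XX φ) (k : KK φ) (j i : Bool) (hx : x.1 = k.1.1 ∨ x.1 = k.1.2) :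
    1000 ≤ (tree0 φ τ).dist (Sum.inl x) (Sum.inr (k, j, i)) ∧
      (tree0 φ τ).dist (Sum.inl x) (Sum.inr (k, j, i)) ≤ 1020 := by
  have h0 := al_att_oth φ τ k.1
  have h1 := al_bd φ τ (attP φ τ k.1)
  have h2 := al_bd φ τ (othP φ τ k.1)
  obtain ⟨-, -, hc, hne⟩ := fL_pts k.2
  have hx' : x.1 = attP φ τ k.1 ∨ (x.1 = othP φ τ k.1 ∧ x.1 ≠ attP φ τ k.1 ∧
      cls x.1 = cls (attP φ τ k.1)) := by
    rcases att_oth φ τ k.1 with ⟨h, h'⟩ | ⟨h, h'⟩ <;> rw [h, h'] <;> rcases hx with hx | hx <;>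
      rw [hx]
    · exact Or.inl rfl
    · exact Or.inr ⟨rfl, hne.symm, hc.symm⟩
    · exact Or.inr ⟨rfl, hne, hc⟩
    · exact Or.inl rfl
  rcases hx' with hx' | ⟨hx1, hx2, hx3⟩
  · have hxe : x = ⟨attP φ τ k.1, attP_mem φ τ k⟩ := Subtype.ext hx'
    subst hxe
    have h : (tree0 φ τ).dist (Sum.inl ⟨attP φ τ k.1, attP_mem φ τ k⟩) (Sum.inr (k, j, i)) =
        al φ τ (attP φ τ k.1) - 1 + stl φ τ k.1 + 500 :=
      TW.dist_att _ (fun k : KK φ => (⟨attP φ τ k.1, attP_mem φ τ k⟩ : XX φ)) _ _ _ _ _ _ _ _ _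
        k j i
    rw [h]
    unfold stl
    rcases min_cases (al φ τ (attP φ τ k.1) - 1) (al φ τ (othP φ τ k.1) + 1) with ⟨e, e'⟩ | ⟨e, e'⟩
    · rw [e]; constructor <;> linarith
    · rw [e]; constructor <;> linarith
  · have h : (tree0 φ τ).dist (Sum.inl x) (Sum.inr (k, j, i)) =
        al φ τ x.1 + 1 + stl φ τ k.1 + 500 :=
      TW.dist_oth _ (fun k : KK φ => (⟨attP φ τ k.1, attP_mem φ τ k⟩ : XX φ)) _ _ _ _ _ _ _ _ _
        x k j i (fun h => hx2 (congrArg Subtype.val h)) hx3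
    rw [h, hx1]
    unfold stl
    rcases min_cases (al φ τ (attP φ τ k.1) - 1) (al φ τ (othP φ τ k.1) + 1) with ⟨e, e'⟩ | ⟨e, e'⟩
    · rw [e]; constructor <;> linarith
    · rw [e]; constructor <;> linarith

theorem d_pair (k : KK φ) (j i i' : Bool) (hi : i ≠ i') :
    (tree0 φ τ).dist (Sum.inr (k, j, i)) (Sum.inr (k, j, i')) = 1000 := by
  have h : (tree0 φ τ).dist (Sum.inr (k, j, i)) (Sum.inr (k, j, i')) = 2 * 500 :=
    TW.dist_pair _ _ _ _ _ _ _ _ _ _ _ k j i i' hi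
  rw [h]; norm_num

theorem d_cross (k : KK φ) (j j' i i' : Bool) (hj : j ≠ j') :
    1020 < (tree0 φ τ).dist (Sum.inr (k, j, i)) (Sum.inr (k, j', i')) := by
  have h : (tree0 φ τ).dist (Sum.inr (k, j, i)) (Sum.inr (k, j', i')) =
    2 * (stl φ τ k.1 + 500) := TW.dist_cross _ _ _ _ _ _ _ _ _ _ _ k j j' i i' hj
  rw [h]
  linarith [stl_pos φ τ k.1]

variable {φ τ}

theorem adjG_ok (hτ : ∀ t ∈ φ, ¬ (τ t.1 = τ t.2.1 ∧ τ t.2.1 = τ t.2.2))
    (u v : {l : Lb // l ∈ labs φ}) (huv : u ≠ v) (h : adjG φ u.1 v.1 = true) :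
    1000 ≤ (tree1 φ τ).dist u v ∧ (tree1 φ τ).dist u v ≤ 1020 := by
  rw [show (tree1 φ τ).dist u v = (tree0 φ τ).dist (ren φ u) (ren φ v) from rfl]
  rcases u with ⟨x | ⟨k, j, i⟩, hu⟩ <;> rcases v with ⟨y | ⟨k', j', i'⟩, hv⟩
  · have h' : (x, y) ∈ eL φ := by simpa [adjG] using h
    obtain ⟨h1, h2, h3, h4⟩ := eL_ok hτ h'
    have hd := d_diff φ τ ⟨x, (mem_labs_inl φ x).1 hu⟩ ⟨y, (mem_labs_inl φ y).1 hv⟩ h1 h2
    have h3' : (-10 : ℝ) ≤ (Y φ τ x : ℝ) - (Y φ τ y : ℝ) := by exact_mod_cast h3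
    have h4' : (Y φ τ x : ℝ) - (Y φ τ y : ℝ) ≤ 10 := by exact_mod_cast h4
    simp only [ren, Equiv.coe_fn_mk]
    rw [hd]
    constructor <;> linarith
  · have h' : x = k'.1 ∨ x = k'.2 := by simpa [adjG] using h
    exact d_gad φ τ ⟨x, (mem_labs_inl φ x).1 hu⟩ ⟨k', (mem_labs_inr φ k' j' i').1 hv⟩ j' i' h'
  · simp [adjG] at h
  · obtain ⟨rfl, rfl⟩ : k = k' ∧ j = j' := by simpa [adjG] using h
    have hi : i ≠ i' := by
      rintro rfl
      exact huv rfl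
    have hd := d_pair φ τ ⟨k, (mem_labs_inr φ k j i).1 hu⟩ j i i' hi
    simp only [ren, Equiv.coe_fn_mk]
    rw [hd]
    norm_num

theorem adjS_ok (hτ : ∀ t ∈ φ, ¬ (τ t.1 = τ t.2.1 ∧ τ t.2.1 = τ t.2.2))
    (u v : {l : Lb // l ∈ labs φ}) (h : adjS φ u.1 v.1 = true) :
    (tree1 φ τ).dist u v < 1000 ∨ 1020 < (tree1 φ τ).dist u v := by
  rw [show (tree1 φ τ).dist u v = (tree0 φ τ).dist (ren φ u) (ren φ v) from rfl]
  rcases u with ⟨x | ⟨k, j, i⟩, hu⟩ <;> rcases v with ⟨y | ⟨k', j', i'⟩, hv⟩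
  · have h' : (x, y) ∈ sL φ ∨ (x, y) ∈ fL φ := by simpa [adjS] using h
    simp only [ren, Equiv.coe_fn_mk]
    rcases h' with h' | h'
    · obtain ⟨h1, h2, h3⟩ := sL_ok hτ h'
      have hd := d_diff φ τ ⟨x, (mem_labs_inl φ x).1 hu⟩ ⟨y, (mem_labs_inl φ y).1 hv⟩ h1 h2
      rw [hd]
      rcases h3 with h3 | h3
      · have h3' : (Y φ τ x : ℝ) - (Y φ τ y : ℝ) < -10 := by exact_mod_cast h3
        left
        linarith
      · have h3' : (10 : ℝ) < (Y φ τ x : ℝ) - (Y φ τ y : ℝ) := by exact_mod_cast h3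
        right
        linarith
    · obtain ⟨-, -, h3, h4⟩ := fL_pts h'
      have hd := d_same φ τ ⟨x, (mem_labs_inl φ x).1 hu⟩ ⟨y, (mem_labs_inl φ y).1 hv⟩
        (fun e => h4 (congrArg Subtype.val e)) h3
      rw [hd]
      left
      have h1 := (al_bd φ τ x).2
      have h2 := (al_bd φ τ y).2
      linarith
  · simp [adjS] at h
  · simp [adjS] at h
  · obtain ⟨rfl, hj⟩ : k = k' ∧ ¬ j = j' := by simpa [adjS] using h
    have hd := d_cross φ τ ⟨k, (mem_labs_inr φ k j i).1 hu⟩ j j' i i' hj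
    right
    exact hd

theorem genPCG_of (hτ : ∀ t ∈ φ, ¬ (τ t.1 = τ t.2.1 ∧ τ t.2.1 = τ t.2.2)) :
    GenPCG (labGraph (labs φ) (adjG φ)) (labGraph (labs φ) (adjS φ)) := by
  refine ⟨tree1 φ τ, 1000, 1020, by norm_num, by norm_num, ?_, ?_⟩
  · rintro u v ⟨huv, h | h⟩
    · exact ⟨huv, adjG_ok hτ u v huv h⟩
    · refine ⟨huv, ?_⟩
      rw [(tree1 φ τ).dist_symm]
      exact adjG_ok hτ v u huv.symm h
  · rintro u v ⟨huv, h | h⟩ ⟨-, h1, h2⟩
    · rcases adjS_ok hτ u v h with h' | h' <;> linarith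
    · rw [(tree1 φ τ).dist_symm] at h1 h2
      rcases adjS_ok hτ v u h with h' | h' <;> linarith

end tree

/-- The instance is a yes-instance exactly when the formula is satisfiable. -/
theorem inst_correct (φ : Fm) :
    NAE φ ↔ GenPCG (labGraph (labs φ) (adjG φ)) (labGraph (labs φ) (adjS φ)) := by
  constructor
  · rintro ⟨τ, hτ⟩
    exact genPCG_of hτ
  · rintro ⟨P, m, M, -, -, hE, hS⟩
    classical
    have hl : (Sum.inl (0, 0, 0, false) : Lb) ∈ labs φ :=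
      (mem_labs_inl φ _).2 (pts_v (by simp [vars]) (by omega))
    let r : Lb → {l : Lb // l ∈ labs φ} := fun a => if h : a ∈ labs φ then ⟨a, h⟩ else ⟨_, hl⟩
    have hr : ∀ a (h : a ∈ labs φ), r a = ⟨a, h⟩ := fun a h => by simp [r, h]
    have hd : Four (fun a b => P.dist (r a) (r b)) :=
      ⟨fun x y => P.dist_symm _ _, fun x y z t => P.four _ _ _ _⟩
    refine nae_of hd (m := m) (M := M) ?_ ?_
    · intro a ha b hb hab h
      have h1 := hE ⟨a, ha⟩ ⟨b, hb⟩ ⟨fun e => hab (congrArg Subtype.val e), Or.inl h⟩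
      simp only [hr a ha, hr b hb]
      exact h1.2
    · intro a ha b hb hab h
      have hne : (⟨a, ha⟩ : {l : Lb // l ∈ labs φ}) ≠ ⟨b, hb⟩ :=
        fun e => hab (congrArg Subtype.val e)
      have h1 := hS ⟨a, ha⟩ ⟨b, hb⟩ ⟨hne, Or.inl h⟩
      simp only [hr a ha, hr b hb]
      by_contra hcon
      push Not at hcon
      exact h1 ⟨hne, hcon⟩

end Pool.Agent.R554.PCG
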