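import Mathlib

/-!
# Gadgets for generalized pairwise compatibility: consequences of the four-point condition
-/

set_option autoImplicit false

namespace Pool.Agent.R554

/-- A symmetric function satisfying the four-point condition. -/
structure Four {V : Type} (d : V → V → ℝ) : Prop where
  symm : ∀ x y, d x y = d y x
  four : ∀ x y z t, d x y + d z t ≤ max (d x z + d y t) (d x t + d y z)

variable {V : Type} {d : V → V → ℝ} (hd : Four d) {m M : ℝ}

include hd

theorem Four.cyc4 {a b c e : V} (ab : m ≤ d a b ∧ d a b ≤ M) (bc : m ≤ d b c ∧ d b c ≤ M)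
    (ce : m ≤ d c e ∧ d c e ≤ M) (ea : m ≤ d e a ∧ d e a ≤ M) (ac : M < d a c)
    (be : d b e < m ∨ M < d b e) : d b e < m := by
  rcases be with h | h
  · exact h
  · exfalso
    have h4 := hd.four a c b e
    have h1 := hd.symm c b
    have h2 := hd.symm a e
    rcases le_max_iff.1 h4 with h4 | h4 <;> linarith [ab.2, bc.2, ce.2, ea.2]

theorem Four.twok2 {a b c e : V} (ab : m ≤ d a b) (ce : m ≤ d c e)
    (ac : d a c < m) (ae : d a e < m) (bc : d b c < m) (be : d b e < m) : False := by
  have h4 := hd.four a b c e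
  rcases le_max_iff.1 h4 with h4 | h4 <;> linarith

/-- The gadget that forces a forbidden pair to be at distance smaller than `dmin`. -/
theorem Four.forced {x y : V} (g : Bool → Bool → V) (hxy : d x y < m ∨ M < d x y)
    (hx : ∀ j i, m ≤ d x (g j i) ∧ d x (g j i) ≤ M)
    (hy : ∀ j i, m ≤ d y (g j i) ∧ d y (g j i) ≤ M)
    (hg : ∀ j, m ≤ d (g j false) (g j true))
    (hn : ∀ i i', d (g false i) (g true i') < m ∨ M < d (g false i) (g true i')) :
    d x y < m := by
  rcases hxy with h | h
  · exact h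
  · exfalso
    have key : ∀ i i', d (g false i) (g true i') < m := by
      intro i i'
      refine hd.cyc4 (a := x) (c := y) (hx _ _) ?_ (hy _ _) ?_ h (hn i i')
      · rw [hd.symm]; exact hy _ _
      · rw [hd.symm]; exact hx _ _
    exact hd.twok2 (hg false) (hg true) (key _ _) (key _ _) (key _ _) (key _ _)

/-- Transfer: exactly one of the pairs `ab` and `ec` is small. -/
theorem Four.transfer {a b c e : V} (hab : d a b < m ∨ M < d a b) (hec : d e c < m ∨ M < d e c)
    (ac : m ≤ d a c ∧ d a c ≤ M) (be : m ≤ d b e ∧ d b e ≤ M) (ae : d a e < m)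
    (bc : d b c < m) : d e c < m ↔ ¬ d a b < m := by
  have h1 := hd.four a b c e
  have h2 := hd.four a c b e
  have s1 := hd.symm c e
  have s2 := hd.symm c b
  rcases hab with h | h <;> rcases hec with h' | h'
  · exfalso
    rcases le_max_iff.1 h2 with h2 | h2 <;> linarith [ac.1, be.1]
  · constructor
    · intro h3; exfalso; linarith [ac.1, ac.2]
    · intro h3; exact absurd h h3
  · constructor
    · intro _ h3; linarith [ac.1, ac.2]
    · intro _; exact h'
  · exfalso
    rcases le_max_iff.1 h1 with h1 | h1 <;> linarith [ac.1, be.1, ac.2, be.2]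

/-- The clause gadget. -/
theorem Four.clause {p0 p1 p2 p3 : V} (h01 : d p0 p1 < m ∨ M < d p0 p1)
    (h21 : d p2 p1 < m ∨ M < d p2 p1) (h23 : d p2 p3 < m ∨ M < d p2 p3)
    (h03 : m ≤ d p0 p3 ∧ d p0 p3 ≤ M) (h02 : d p0 p2 < m) (h13 : d p1 p3 < m) :
    ¬ ((d p0 p1 < m ↔ ¬ d p2 p1 < m) ∧ (d p2 p1 < m ↔ ¬ d p2 p3 < m)) := by
  rintro ⟨e1, e2⟩
  have h1 := hd.four p0 p1 p2 p3
  have h2 := hd.four p0 p3 p1 p2
  have s1 := hd.symm p1 p2
  have s2 := hd.symm p3 p2
  have s3 := hd.symm p3 p1
  by_cases hs : d p0 p1 < m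
  · have h3 := e1.1 hs
    have h4 : d p2 p3 < m := by
      by_contra h
      exact h3 (e2.2 h)
    have h5 := h21.resolve_left h3
    rcases le_max_iff.1 h2 with h2 | h2 <;> linarith [h03.1, h03.2]
  · have h3 : d p2 p1 < m := by
      by_contra h
      exact hs (e1.2 h)
    have h4 := e2.1 h3
    have h5 := h23.resolve_left h4
    have h6 := h01.resolve_left hs
    rcases le_max_iff.1 h1 with h1 | h1 <;> linarith [h03.1, h03.2]

end Pool.Agent.R554
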