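import Pool.Agent.R554.PCGComp
import Pool.Agent.R554.Collapse
import Pool.Agent.H671R2.PolyAuto

/-!
# Generalized pairwise compatibility recognition: the reduction is a polynomial-time one
-/

set_option autoImplicit false

namespace Pool.Agent.R554.PCG

open Pool.Agent.NPC Pool.Agent.NPC.WC648 Pool.Agent.H622R2

/-- The graph on `0, ..., n - 1` whose edges are the pairs of distinct `i`, `j` such that the entry
`(i, j)` or the entry `(j, i)` of the Boolean matrix `N` is `true`. -/
def matOn (n : ℕ) (N : List (List Bool)) : SimpleGraph (Fin n) where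
  Adj i j := i ≠ j ∧ (entry N i j = true ∨ entry N j i = true)
  symm := ⟨fun _ _ h => ⟨h.1.symm, h.2.symm⟩⟩
  loopless := ⟨fun _ h => h.1 rfl⟩

/-- The generalized recognition problem.  An input is a pair of Boolean matrices; the first is the
adjacency matrix of the graph `G` on `0, ..., n - 1`, where `n` is its number of rows, the second
describes the set `S` of pairs.  It is a yes-instance when `S` is a set of non-edges of `G` and there
is a pairwise compatibility graph on the vertex set of `G` that contains every edge of `G` and no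
pair in `S`. -/
def Question (x : List (List Bool) × List (List Bool)) : Prop :=
  (∀ i j, (matOn x.1.length x.2).Adj i j → ¬ (matOn x.1.length x.1).Adj i j) ∧
    GenPCG (matOn x.1.length x.1) (matOn x.1.length x.2)

theorem genPCG_disj {V : Type} {G S : SimpleGraph V} (h : GenPCG G S) (i j : V)
    (hij : S.Adj i j) : ¬ G.Adj i j := by
  obtain ⟨P, m, M, -, -, h1, h2⟩ := h
  exact fun hG => h2 i j hij (h1 i j hG)

theorem genPCG_equiv {V V' : Type} {G S : SimpleGraph V} {G' S' : SimpleGraph V'} (e : V ≃ V')
    (hG : ∀ u v, G.Adj u v ↔ G'.Adj (e u) (e v)) (hS : ∀ u v, S.Adj u v ↔ S'.Adj (e u) (e v))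
    (h : GenPCG G' S') : GenPCG G S := by
  obtain ⟨P, m, M, h0, h1, h2, h3⟩ := h
  refine ⟨P.map e, m, M, h0, h1, fun u v huv => ?_, fun u v huv hcon => ?_⟩
  · obtain ⟨-, h5⟩ := h2 _ _ ((hG u v).1 huv)
    exact ⟨G.ne_of_adj huv, h5⟩
  · exact h3 _ _ ((hS u v).1 huv) ⟨fun h => hcon.1 (e.injective h), hcon.2⟩

/-- The rows of the matrix and the labels. -/
def rowEquiv {α : Type} [DecidableEq α] (vs : List α) (adj : α → α → Bool) (hnd : vs.Nodup) :
    Fin (mat vs adj).length ≃ {x // x ∈ vs} :=
  (finCongr (mat_length vs adj)).trans (List.Nodup.getEquiv vs hnd)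

theorem rowEquiv_adj {α : Type} [DecidableEq α] (vs : List α) (adj adj' : α → α → Bool)
    (hnd : vs.Nodup) (a b : Fin (mat vs adj).length) :
    (matOn (mat vs adj).length (mat vs adj')).Adj a b ↔
      (labGraph vs adj').Adj (rowEquiv vs adj hnd a) (rowEquiv vs adj hnd b) := by
  simp only [labGraph, matOn, rowEquiv, Equiv.trans_apply, List.Nodup.getEquiv, Equiv.coe_fn_mk,
    finCongr_apply]
  have ha : a.1 < vs.length := lt_of_lt_of_eq a.2 (mat_length vs adj)
  have hb : b.1 < vs.length := lt_of_lt_of_eq b.2 (mat_length vs adj)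
  rw [entry_mat _ _ _ _ ha hb, entry_mat _ _ _ _ hb ha]
  have h1 : (⟨vs.get (Fin.cast (mat_length vs adj) a), List.get_mem _ _⟩ : {x // x ∈ vs}) ≠
      ⟨vs.get (Fin.cast (mat_length vs adj) b), List.get_mem _ _⟩ ↔ a ≠ b := by
    rw [not_iff_not, Subtype.mk.injEq, hnd.injective_get.eq_iff]
    simp [Fin.ext_iff]
  constructor
  · rintro ⟨h, h'⟩
    exact ⟨h1.2 h, h'⟩
  · rintro ⟨h, h'⟩
    exact ⟨h1.1 h, h'⟩

theorem mat_correct {α : Type} [DecidableEq α] (vs : List α) (adj adj' : α → α → Bool)
    (hnd : vs.Nodup) : GenPCG (labGraph vs adj) (labGraph vs adj') ↔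
      Question (mat vs adj, mat vs adj') := by
  have key : GenPCG (labGraph vs adj) (labGraph vs adj') ↔
      GenPCG (matOn (mat vs adj).length (mat vs adj))
        (matOn (mat vs adj).length (mat vs adj')) := by
    constructor
    · exact genPCG_equiv (rowEquiv vs adj hnd)
        (rowEquiv_adj vs adj adj hnd) (rowEquiv_adj vs adj adj' hnd)
    · refine genPCG_equiv (rowEquiv vs adj hnd).symm (fun u v => ?_) (fun u v => ?_)
      · rw [rowEquiv_adj vs adj adj hnd, Equiv.apply_symm_apply,
          Equiv.apply_symm_apply]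
      · rw [rowEquiv_adj vs adj adj' hnd, Equiv.apply_symm_apply,
          Equiv.apply_symm_apply]
  rw [key]
  exact ⟨fun h => ⟨fun i j hij => genPCG_disj h i j hij, h⟩, fun h => h.2⟩

/-- The reduction. -/
def red (φ : Fm) : List (List Bool) × List (List Bool) :=
  (mat (labs φ) (adjG φ), mat (labs φ) (adjS φ))

theorem red_correct (φ : Fm) : NAE φ ↔ Question (red φ) :=
  (inst_correct φ).trans (mat_correct (labs φ) (adjG φ) (adjS φ) (ddup_nodup _))

/-! ### Polynomial time -/

section PolyTime

open Poly

theorem vars_poly : Poly vars := by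
  unfold vars
  fun_prop

theorem eL_poly : Poly eL := by
  have := vars_poly
  unfold eL vE cE q
  fun_prop

theorem sL_poly : Poly sL := by
  have := vars_poly
  unfold sL vS cS q
  fun_prop

theorem fL_poly : Poly fL := by
  have := vars_poly
  unfold fL vF cF q
  fun_prop

theorem ptsL_poly : Poly ptsL := by
  have := vars_poly
  unfold ptsL q
  fun_prop

theorem labs_poly : Poly labs := by
  have := ptsL_poly
  have := fL_poly
  unfold labs
  refine ddup_poly ?_
  fun_prop

theorem adjG_poly : Poly (fun p : (Fm × Lb) × Lb => adjG p.1.1 p.1.2 p.2) := by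
  have := eL_poly
  unfold adjG
  fun_prop

theorem adjS_poly : Poly (fun p : (Fm × Lb) × Lb => adjS p.1.1 p.1.2 p.2) := by
  have := sL_poly
  have := fL_poly
  unfold adjS
  fun_prop

theorem red_poly : Poly red :=
  Poly.pair (mat_poly labs_poly adjG_poly) (mat_poly labs_poly adjS_poly)

end PolyTime

theorem hardI_Question : HardI Question := hardI_NAE.trans red_poly red_correct

end Pool.Agent.R554.PCG
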