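import Pool.Agent.R554.PCGTree
import Pool.Agent.R554.PCGGadget
import Pool.Agent.H622R2.Base
import Pool.Agent.H648R3.WC.Nae

/-!
# The instance of generalized pairwise compatibility for a not-all-equal formula
-/

set_option autoImplicit false

namespace Pool.Agent.R554.PCG

open Pool.Agent.NPC Pool.Agent.NPC.WC648 Pool.Agent.H622R2

/-- Points. -/
abbrev Pt : Type := ℕ × NV

/-- Labels of the vertices. -/
abbrev Lb : Type := Pt ⊕ ((Pt × Pt) × Bool × Bool)

instance : DecidableEq ((Pt × Pt) × Bool × Bool) :=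
  @instDecidableEqProd (Pt × Pt) (Bool × Bool) inferInstance inferInstance

instance : DecidableEq Lb := @instDecidableEqSum Pt ((Pt × Pt) × Bool × Bool) inferInstance
  inferInstance

/-- Formulas -/
abbrev Fm : Type := List (NV × NV × NV)

/-- A point of a clause. -/
def q (i j : ℕ) : Pt := (i, (j, 0, false))

/-- The variables. -/
def vars (φ : Fm) : List NV := (0, 0, false) :: φ.flatMap fun t => [t.1, t.2.1, t.2.2]

/-- pairs that must be edges, for a variable -/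
def vE (v : NV) : List (Pt × Pt) := [((0, v), (3, v)), ((2, v), (1, v))]
/-- pairs that must not be edges, for a variable -/
def vS (v : NV) : List (Pt × Pt) := [((0, v), (1, v)), ((2, v), (3, v))]
/-- pairs that must be small, for a variable -/
def vF (v : NV) : List (Pt × Pt) := [((0, v), (2, v)), ((1, v), (3, v))]
/-- pairs that must be edges, for a clause -/
def cE (t : NV × NV × NV) (j : ℕ) : List (Pt × Pt) :=
  [(q 4 j, q 7 j), ((0, t.1), q 5 j), (q 4 j, (1, t.1)), ((2, t.2.1), q 5 j),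
    (q 6 j, (3, t.2.1)), ((0, t.2.2), q 7 j), (q 6 j, (1, t.2.2))]
/-- pairs that must not be edges, for a clause -/
def cS (j : ℕ) : List (Pt × Pt) := [(q 4 j, q 5 j), (q 6 j, q 5 j), (q 6 j, q 7 j)]
/-- pairs that must be small, for a clause -/
def cF (t : NV × NV × NV) (j : ℕ) : List (Pt × Pt) :=
  [(q 4 j, q 6 j), (q 5 j, q 7 j), ((0, t.1), q 4 j), ((1, t.1), q 5 j), ((2, t.2.1), q 6 j),
    ((3, t.2.1), q 5 j), ((0, t.2.2), q 6 j), ((1, t.2.2), q 7 j)]

/-- the points -/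
def ptsL (φ : Fm) : List Pt :=
  (vars φ).flatMap (fun v => [(0, v), (1, v), (2, v), (3, v)]) ++
    φ.zipIdx.flatMap (fun p => [q 4 p.2, q 5 p.2, q 6 p.2, q 7 p.2])
/-- pairs that must be edges -/
def eL (φ : Fm) : List (Pt × Pt) :=
  (vars φ).flatMap vE ++ φ.zipIdx.flatMap (fun p => cE p.1 p.2)
/-- pairs that must not be edges -/
def sL (φ : Fm) : List (Pt × Pt) :=
  (vars φ).flatMap vS ++ φ.zipIdx.flatMap (fun p => cS p.2)
/-- pairs that must be small -/
def fL (φ : Fm) : List (Pt × Pt) :=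
  (vars φ).flatMap vF ++ φ.zipIdx.flatMap (fun p => cF p.1 p.2)

/-- the vertices -/
def labs (φ : Fm) : List Lb :=
  ddup ((ptsL φ).map Sum.inl ++ (fL φ).flatMap fun k =>
    [Sum.inr (k, false, false), Sum.inr (k, false, true), Sum.inr (k, true, false),
      Sum.inr (k, true, true)])

/-- adjacency of the graph -/
def adjG (φ : Fm) (a b : Lb) : Bool :=
  Sum.elim (fun x => Sum.elim (fun y => decide ((x, y) ∈ eL φ))
      (fun h => decide (x = h.1.1 ∨ x = h.1.2)) b)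
    (fun g => Sum.elim (fun _ => false) (fun h => decide (g.1 = h.1 ∧ g.2.1 = h.2.1)) b) a

/-- the forbidden pairs -/
def adjS (φ : Fm) (a b : Lb) : Bool :=
  Sum.elim (fun x => Sum.elim (fun y => decide ((x, y) ∈ sL φ ∨ (x, y) ∈ fL φ))
      (fun _ => false) b)
    (fun g => Sum.elim (fun _ => false) (fun h => decide (g.1 = h.1 ∧ ¬ g.2.1 = h.2.1)) b) a

theorem mem_labs_inl (φ : Fm) (x : Pt) : (Sum.inl x : Lb) ∈ labs φ ↔ x ∈ ptsL φ := by
  simp [labs, mem_ddup]

theorem mem_labs_inr (φ : Fm) (k : Pt × Pt) (j i : Bool) :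
    (Sum.inr (k, j, i) : Lb) ∈ labs φ ↔ k ∈ fL φ := by
  simp only [labs, mem_ddup, List.mem_append, List.mem_map, reduceCtorEq, and_false,
    exists_false, false_or, List.mem_flatMap]
  constructor
  · rintro ⟨k', hk, h⟩
    simp only [List.mem_cons, Sum.inr.injEq, Prod.mk.injEq, List.not_mem_nil, or_false] at h
    rcases h with h | h | h | h <;> (rw [h.1]; exact hk)
  · intro h
    refine ⟨k, h, ?_⟩
    cases j <;> cases i <;> simp

theorem mem_pts_iff (φ : Fm) (x : Pt) : x ∈ ptsL φ ↔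
    (∃ v ∈ vars φ, x ∈ ([(0, v), (1, v), (2, v), (3, v)] : List Pt)) ∨
    (∃ t j, φ[j]? = some t ∧ x ∈ [q 4 j, q 5 j, q 6 j, q 7 j]) := by
  simp only [ptsL, List.mem_append, List.mem_flatMap, Prod.exists, List.mem_zipIdx_iff_getElem?]

theorem mem_eL_iff (φ : Fm) (x : Pt × Pt) : x ∈ eL φ ↔
    (∃ v ∈ vars φ, x ∈ vE v) ∨ (∃ t j, φ[j]? = some t ∧ x ∈ cE t j) := by
  simp only [eL, List.mem_append, List.mem_flatMap, Prod.exists, List.mem_zipIdx_iff_getElem?]

theorem mem_sL_iff (φ : Fm) (x : Pt × Pt) : x ∈ sL φ ↔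
    (∃ v ∈ vars φ, x ∈ vS v) ∨ (∃ t j, φ[j]? = some t ∧ x ∈ cS j) := by
  simp only [sL, List.mem_append, List.mem_flatMap, Prod.exists, List.mem_zipIdx_iff_getElem?]

theorem mem_fL_iff (φ : Fm) (x : Pt × Pt) : x ∈ fL φ ↔
    (∃ v ∈ vars φ, x ∈ vF v) ∨ (∃ t j, φ[j]? = some t ∧ x ∈ cF t j) := by
  simp only [fL, List.mem_append, List.mem_flatMap, Prod.exists, List.mem_zipIdx_iff_getElem?]

theorem vars1 {φ : Fm} {t : NV × NV × NV} (h : t ∈ φ) : t.1 ∈ vars φ := by
  simp only [vars, List.mem_cons, List.mem_flatMap]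
  exact Or.inr ⟨t, h, by simp⟩

theorem vars2 {φ : Fm} {t : NV × NV × NV} (h : t ∈ φ) : t.2.1 ∈ vars φ := by
  simp only [vars, List.mem_cons, List.mem_flatMap]
  exact Or.inr ⟨t, h, by simp⟩

theorem vars3 {φ : Fm} {t : NV × NV × NV} (h : t ∈ φ) : t.2.2 ∈ vars φ := by
  simp only [vars, List.mem_cons, List.mem_flatMap]
  exact Or.inr ⟨t, h, by simp⟩

theorem pts_v {φ : Fm} {v : NV} (hv : v ∈ vars φ) {i : ℕ} (hi : i < 4) :
    ((i, v) : Pt) ∈ ptsL φ := by
  rw [mem_pts_iff]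
  refine Or.inl ⟨v, hv, ?_⟩
  interval_cases i <;> simp

theorem pts_q {φ : Fm} {t : NV × NV × NV} {j : ℕ} (ht : φ[j]? = some t) {i : ℕ} (hi : i < 8)
    (hi' : 4 ≤ i) : q i j ∈ ptsL φ := by
  rw [mem_pts_iff]
  refine Or.inr ⟨t, j, ht, ?_⟩
  interval_cases i <;> simp

/-- the class of a point -/
def cls (x : Pt) : Bool := decide (x.1 % 2 = 1)

theorem fL_pts {φ : Fm} {x : Pt × Pt} (hx : x ∈ fL φ) :
    x.1 ∈ ptsL φ ∧ x.2 ∈ ptsL φ ∧ cls x.1 = cls x.2 ∧ x.1 ≠ x.2 := by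
  rw [mem_fL_iff] at hx
  rcases hx with ⟨v, hv, hx⟩ | ⟨t, j, ht, hx⟩
  · simp only [vF, List.mem_cons, List.not_mem_nil, or_false] at hx
    rcases hx with rfl | rfl
    · exact ⟨pts_v hv (by omega), pts_v hv (by omega), by simp [cls], by simp⟩
    · exact ⟨pts_v hv (by omega), pts_v hv (by omega), by simp [cls], by simp⟩
  · have ht' := List.mem_of_getElem? ht
    have h1 := vars1 ht'
    have h2 := vars2 ht'
    have h3 := vars3 ht'
    simp only [cF, List.mem_cons, List.not_mem_nil, or_false] at hx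
    rcases hx with rfl | rfl | rfl | rfl | rfl | rfl | rfl | rfl
    · exact ⟨pts_q ht (by omega) (by omega), pts_q ht (by omega) (by omega), by simp [cls, q],
        by simp [q]⟩
    · exact ⟨pts_q ht (by omega) (by omega), pts_q ht (by omega) (by omega), by simp [cls, q],
        by simp [q]⟩
    · exact ⟨pts_v h1 (by omega), pts_q ht (by omega) (by omega), by simp [cls, q],
        by simp [q]⟩
    · exact ⟨pts_v h1 (by omega), pts_q ht (by omega) (by omega), by simp [cls, q],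
        by simp [q]⟩
    · exact ⟨pts_v h2 (by omega), pts_q ht (by omega) (by omega), by simp [cls, q],
        by simp [q]⟩
    · exact ⟨pts_v h2 (by omega), pts_q ht (by omega) (by omega), by simp [cls, q],
        by simp [q]⟩
    · exact ⟨pts_v h3 (by omega), pts_q ht (by omega) (by omega), by simp [cls, q],
        by simp [q]⟩
    · exact ⟨pts_v h3 (by omega), pts_q ht (by omega) (by omega), by simp [cls, q],
        by simp [q]⟩

/-! ### From a tree to an assignment -/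

section sound

variable {φ : Fm} {D : Lb → Lb → ℝ} (hd : Four D) {m M : ℝ}
  (hE : ∀ a ∈ labs φ, ∀ b ∈ labs φ, a ≠ b → adjG φ a b = true → m ≤ D a b ∧ D a b ≤ M)
  (hS : ∀ a ∈ labs φ, ∀ b ∈ labs φ, a ≠ b → adjS φ a b = true → D a b < m ∨ M < D a b)

include hd hE hS in
theorem fpair {k : Pt × Pt} (hk : k ∈ fL φ) : D (Sum.inl k.1) (Sum.inl k.2) < m := by
  obtain ⟨h1, h2, -, hne⟩ := fL_pts hk
  have l1 := (mem_labs_inl φ k.1).2 h1
  have l2 := (mem_labs_inl φ k.2).2 h2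
  have lg : ∀ j i, (Sum.inr (k, j, i) : Lb) ∈ labs φ := fun j i => (mem_labs_inr φ k j i).2 hk
  refine hd.forced (fun j i => Sum.inr (k, j, i)) (M := M) ?_ ?_ ?_ ?_ ?_
  · exact hS _ l1 _ l2 (by simpa using hne) (by simp [adjS, hk])
  · intro j i
    exact hE _ l1 _ (lg j i) (by simp) (by simp [adjG])
  · intro j i
    exact hE _ l2 _ (lg j i) (by simp) (by simp [adjG])
  · intro j
    exact (hE _ (lg _ _) _ (lg _ _) (by simp) (by simp [adjG])).1
  · intro i i'
    exact hS _ (lg _ _) _ (lg _ _) (by simp) (by simp [adjS])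

include hE in
theorem epair {k : Pt × Pt} (hk : k ∈ eL φ) (h1 : k.1 ∈ ptsL φ) (h2 : k.2 ∈ ptsL φ)
    (hne : k.1 ≠ k.2) : m ≤ D (Sum.inl k.1) (Sum.inl k.2) ∧ D (Sum.inl k.1) (Sum.inl k.2) ≤ M :=
  hE _ ((mem_labs_inl φ k.1).2 h1) _ ((mem_labs_inl φ k.2).2 h2) (by simpa using hne)
    (by simp [adjG, hk])

include hS in
theorem spair {k : Pt × Pt} (hk : k ∈ sL φ) (h1 : k.1 ∈ ptsL φ) (h2 : k.2 ∈ ptsL φ)
    (hne : k.1 ≠ k.2) : D (Sum.inl k.1) (Sum.inl k.2) < m ∨ M < D (Sum.inl k.1) (Sum.inl k.2) :=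
  hS _ ((mem_labs_inl φ k.1).2 h1) _ ((mem_labs_inl φ k.2).2 h2) (by simpa using hne)
    (by simp [adjS, hk])

include hd hE hS in
theorem nae_of : NAE φ := by
  classical
  refine ⟨fun v => decide (D (Sum.inl (0, v)) (Sum.inl (1, v)) < m), fun t ht => ?_⟩
  obtain ⟨j, hj⟩ := List.getElem?_of_mem ht
  have hv1 := vars1 ht
  have hv2 := vars2 ht
  have hv3 := vars3 ht
  -- the pairs of a variable
  have hvS : ∀ v ∈ vars φ, ∀ k ∈ vS v, D (Sum.inl k.1) (Sum.inl k.2) < m ∨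
      M < D (Sum.inl k.1) (Sum.inl k.2) := by
    intro v hv k hk
    refine spair hS ((mem_sL_iff φ k).2 (Or.inl ⟨v, hv, hk⟩)) ?_ ?_ ?_ <;>
    · simp only [vS, List.mem_cons, List.not_mem_nil, or_false] at hk
      rcases hk with rfl | rfl <;> first | exact pts_v hv (by omega) | simp
  have hvE : ∀ v ∈ vars φ, ∀ k ∈ vE v, m ≤ D (Sum.inl k.1) (Sum.inl k.2) ∧
      D (Sum.inl k.1) (Sum.inl k.2) ≤ M := by
    intro v hv k hk
    refine epair hE ((mem_eL_iff φ k).2 (Or.inl ⟨v, hv, hk⟩)) ?_ ?_ ?_ <;>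
    · simp only [vE, List.mem_cons, List.not_mem_nil, or_false] at hk
      rcases hk with rfl | rfl <;> first | exact pts_v hv (by omega) | simp
  have hvF : ∀ v ∈ vars φ, ∀ k ∈ vF v, D (Sum.inl k.1) (Sum.inl k.2) < m :=
    fun v hv k hk => fpair hd hE hS ((mem_fL_iff φ k).2 (Or.inl ⟨v, hv, hk⟩))
  have hcS : ∀ k ∈ cS j, D (Sum.inl k.1) (Sum.inl k.2) < m ∨
      M < D (Sum.inl k.1) (Sum.inl k.2) := by
    intro k hk
    refine spair hS ((mem_sL_iff φ k).2 (Or.inr ⟨t, j, hj, hk⟩)) ?_ ?_ ?_ <;>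
    · simp only [cS, List.mem_cons, List.not_mem_nil, or_false] at hk
      rcases hk with rfl | rfl | rfl <;>
        first | exact pts_q hj (by omega) (by omega) | simp [q]
  have hcE : ∀ k ∈ cE t j, m ≤ D (Sum.inl k.1) (Sum.inl k.2) ∧
      D (Sum.inl k.1) (Sum.inl k.2) ≤ M := by
    intro k hk
    refine epair hE ((mem_eL_iff φ k).2 (Or.inr ⟨t, j, hj, hk⟩)) ?_ ?_ ?_ <;>
    · simp only [cE, List.mem_cons, List.not_mem_nil, or_false] at hk
      rcases hk with rfl | rfl | rfl | rfl | rfl | rfl | rfl <;>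
        first
        | exact pts_q hj (by omega) (by omega)
        | exact pts_v hv1 (by omega)
        | exact pts_v hv2 (by omega)
        | exact pts_v hv3 (by omega)
        | simp [q]
  have hcF : ∀ k ∈ cF t j, D (Sum.inl k.1) (Sum.inl k.2) < m :=
    fun k hk => fpair hd hE hS ((mem_fL_iff φ k).2 (Or.inr ⟨t, j, hj, hk⟩))
  have near' : ∀ v ∈ vars φ, (D (Sum.inl (2, v)) (Sum.inl (3, v)) < m ↔
      ¬ D (Sum.inl (0, v)) (Sum.inl (1, v)) < m) := by
    intro v hv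
    refine hd.transfer (hvS v hv ((0, v), (1, v)) (by simp [vS]))
      (hvS v hv ((2, v), (3, v)) (by simp [vS]))
      (hvE v hv ((0, v), (3, v)) (by simp [vE])) ?_ (hvF v hv ((0, v), (2, v)) (by simp [vF]))
      (hvF v hv ((1, v), (3, v)) (by simp [vF]))
    rw [hd.symm]
    exact hvE v hv ((2, v), (1, v)) (by simp [vE])
  have P1 : D (Sum.inl (q 4 j)) (Sum.inl (q 5 j)) < m ↔
      ¬ D (Sum.inl (0, t.1)) (Sum.inl (1, t.1)) < m := by
    refine hd.transfer (hvS _ hv1 ((0, t.1), (1, t.1)) (by simp [vS]))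
      (hcS (q 4 j, q 5 j) (by simp [cS]))
      (hcE ((0, t.1), q 5 j) (by simp [cE])) ?_ (hcF ((0, t.1), q 4 j) (by simp [cF]))
      (hcF ((1, t.1), q 5 j) (by simp [cF]))
    rw [hd.symm]
    exact hcE (q 4 j, (1, t.1)) (by simp [cE])
  have P2 : D (Sum.inl (q 6 j)) (Sum.inl (q 5 j)) < m ↔
      ¬ D (Sum.inl (2, t.2.1)) (Sum.inl (3, t.2.1)) < m := by
    refine hd.transfer (hvS _ hv2 ((2, t.2.1), (3, t.2.1)) (by simp [vS]))
      (hcS (q 6 j, q 5 j) (by simp [cS]))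
      (hcE ((2, t.2.1), q 5 j) (by simp [cE])) ?_ (hcF ((2, t.2.1), q 6 j) (by simp [cF]))
      (hcF ((3, t.2.1), q 5 j) (by simp [cF]))
    rw [hd.symm]
    exact hcE (q 6 j, (3, t.2.1)) (by simp [cE])
  have P3 : D (Sum.inl (q 6 j)) (Sum.inl (q 7 j)) < m ↔
      ¬ D (Sum.inl (0, t.2.2)) (Sum.inl (1, t.2.2)) < m := by
    refine hd.transfer (hvS _ hv3 ((0, t.2.2), (1, t.2.2)) (by simp [vS]))
      (hcS (q 6 j, q 7 j) (by simp [cS]))
      (hcE ((0, t.2.2), q 7 j) (by simp [cE])) ?_ (hcF ((0, t.2.2), q 6 j) (by simp [cF]))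
      (hcF ((1, t.2.2), q 7 j) (by simp [cF]))
    rw [hd.symm]
    exact hcE (q 6 j, (1, t.2.2)) (by simp [cE])
  have hcl := hd.clause (m := m) (M := M) (hcS (q 4 j, q 5 j) (by simp [cS]))
    (hcS (q 6 j, q 5 j) (by simp [cS])) (hcS (q 6 j, q 7 j) (by simp [cS]))
    (hcE (q 4 j, q 7 j) (by simp [cE])) (hcF (q 4 j, q 6 j) (by simp [cF]))
    (hcF (q 5 j, q 7 j) (by simp [cF]))
  have n2 := near' t.2.1 hv2
  simp only at hcl
  rw [decide_eq_decide, decide_eq_decide]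
  tauto

end sound

end Pool.Agent.R554.PCG
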