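import Pool.Agent.R554.LeafTree

/-!
# A weighted tree for the reduction to generalized pairwise compatibility
-/

set_option autoImplicit false

namespace Pool.Agent.R554

open SimpleGraph

/-- Renaming the leaves. -/
def LeafTree.map {V V' : Type} (P : LeafTree V') (e : V ≃ V') : LeafTree V where
  W := P.W
  fin := P.fin
  T := P.T
  tree := P.tree
  w := P.w
  pos := P.pos
  leaf := P.leaf ∘ e
  inj := P.inj.comp e.injective
  range x := by
    rw [← P.range x]
    exact ⟨fun ⟨v, h⟩ => ⟨e v, h⟩, fun ⟨v, h⟩ => ⟨e.symm v, by simpa using h⟩⟩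

theorem LeafTree.map_dist {V V' : Type} (P : LeafTree V') (e : V ≃ V') (u v : V) :
    (P.map e).dist u v = P.dist (e u) (e v) := rfl

/-- The vertices of the tree. -/
inductive TW (X K : Type) : Type
  /-- one of the two hubs -/
  | hub (c : Bool) : TW X K
  /-- the neighbour of a leaf for a point -/
  | sub (x : X) : TW X K
  /-- the leaf of a point -/
  | pt (x : X) : TW X K
  /-- the neighbour of a pair of leaves of a gadget -/
  | stem (k : K) (j : Bool) : TW X K
  /-- a leaf of a gadget -/
  | gl (k : K) (j i : Bool) : TW X K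

namespace TW

variable {X K : Type}

/-- an injective code -/
def code : TW X K → Bool ⊕ X ⊕ X ⊕ (K × Bool) ⊕ (K × Bool × Bool)
  | hub c => Sum.inl c
  | sub x => Sum.inr (Sum.inl x)
  | pt x => Sum.inr (Sum.inr (Sum.inl x))
  | stem k j => Sum.inr (Sum.inr (Sum.inr (Sum.inl (k, j))))
  | gl k j i => Sum.inr (Sum.inr (Sum.inr (Sum.inr (k, j, i))))

theorem code_inj : Function.Injective (code : TW X K → _) := by
  intro a b h
  cases a <;> cases b <;> simp_all [code]

instance [Finite X] [Finite K] : Finite (TW X K) := Finite.of_injective _ code_inj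

/-- the parent -/
def par (cls : X → Bool) (att : K → X) : TW X K → TW X K
  | hub _ => hub false
  | sub x => hub (cls x)
  | pt x => sub x
  | stem k _ => sub (att k)
  | gl k j _ => stem k j

/-- the rank -/
def rk : TW X K → ℕ
  | hub false => 0
  | hub true => 1
  | sub _ => 2
  | pt _ => 3
  | stem _ _ => 3
  | gl _ _ _ => 4

/-- the tree -/
def tr (cls : X → Bool) (att : K → X) : SimpleGraph (TW X K) where
  Adj a b := a ≠ b ∧ (par cls att a = b ∨ par cls att b = a)
  symm := ⟨fun _ _ h => ⟨h.1.symm, h.2.symm⟩⟩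
  loopless := ⟨fun _ h => h.1 rfl⟩

variable (cls : X → Bool) (att : K → X)

theorem isTree [Finite X] [Finite K] : (tr cls att).IsTree := by
  refine isTree_of_parent (hub false) (par cls att) rk ?_ ?_
  · rintro (c | x | x | ⟨k, j⟩ | ⟨k, j, i⟩) hx
    · cases c
      · exact absurd rfl hx
      · simp [tr, par, rk]
    · cases h : cls x <;> simp [tr, par, rk, h]
    · simp [tr, par, rk]
    · simp [tr, par, rk]
    · simp [tr, par, rk]
  · rintro x y ⟨h, h' | h'⟩
    · left
      refine ⟨?_, h'⟩
      rintro rfl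
      exact h h'
    · right
      refine ⟨?_, h'⟩
      rintro rfl
      exact h h'.symm

/-- the weight of an edge, from the child -/
def wgt (α : X → ℝ) (L : ℝ) (s : K → ℝ) (g : ℝ) : TW X K → ℝ
  | hub false => 0
  | hub true => L
  | sub _ => 1
  | pt x => α x - 1
  | stem k _ => s k
  | gl _ _ _ => g

/-- the weight of an edge -/
def ew (α : X → ℝ) (L : ℝ) (s : K → ℝ) (g : ℝ) : Sym2 (TW X K) → ℝ :=
  Sym2.lift ⟨fun a b => if rk a < rk b then wgt α L s g b else if rk b < rk a then
    wgt α L s g a else 0, by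
      intro a b
      dsimp only
      split_ifs <;> first | rfl | omega⟩


variable (α : X → ℝ) (L : ℝ) (s : K → ℝ) (g : ℝ)

theorem ew_sub_hub (x : X) (c : Bool) : ew α L s g s(sub x, hub c) = 1 := by
  cases c <;> simp [ew, rk, wgt]

theorem ew_hub_sub (x : X) (c : Bool) : ew α L s g s(hub c, sub x) = 1 := by
  cases c <;> simp [ew, rk, wgt]

theorem ew_hub_hub : ew α L s g s(hub false, hub true) = L := by
  simp [ew, rk, wgt]

theorem ew_pt_sub (x y : X) : ew α L s g s(pt x, sub y) = α x - 1 := by
  simp [ew, rk, wgt]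

theorem ew_sub_pt (x y : X) : ew α L s g s(sub y, pt x) = α x - 1 := by
  simp [ew, rk, wgt]

theorem ew_sub_stem (y : X) (k : K) (j : Bool) : ew α L s g s(sub y, stem k j) = s k := by
  simp [ew, rk, wgt]

theorem ew_stem_sub (y : X) (k : K) (j : Bool) : ew α L s g s(stem k j, sub y) = s k := by
  simp [ew, rk, wgt]

theorem ew_stem_gl (k k' : K) (j j' i : Bool) : ew α L s g s(stem k j, gl k' j' i) = g := by
  simp [ew, rk, wgt]

theorem ew_gl_stem (k k' : K) (j j' i : Bool) : ew α L s g s(gl k' j' i, stem k j) = g := by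
  simp [ew, rk, wgt]

theorem ew_pos (hα : ∀ x, 1 < α x) (hL : 0 < L) (hs : ∀ k, 0 < s k) (hg : 0 < g) :
    ∀ e ∈ (tr cls att).edgeSet, 0 < ew α L s g e := by
  have key : ∀ b : TW X K, b ≠ hub false → 0 < wgt α L s g b := by
    rintro (c | x | x | ⟨k, j⟩ | ⟨k, j, i⟩) hx
    · cases c
      · exact absurd rfl hx
      · exact hL
    · exact one_pos
    · have := hα x
      simp only [wgt]; linarith
    · exact hs k
    · exact hg
  have rk0 : ∀ b : TW X K, 0 < rk b → b ≠ hub false := by
    rintro b hb rfl
    simp [rk] at hb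
  have rkp : ∀ b : TW X K, b ≠ hub false → rk (par cls att b) < rk b := by
    rintro (c | x | x | ⟨k, j⟩ | ⟨k, j, i⟩) hx
    · cases c
      · exact absurd rfl hx
      · simp [par, rk]
    · cases h : cls x <;> simp [par, rk, h]
    · simp [par, rk]
    · simp [par, rk]
    · simp [par, rk]
  intro e he
  induction e with
  | h a b =>
    obtain ⟨hne, h⟩ : a ≠ b ∧ (par cls att a = b ∨ par cls att b = a) := he
    have hlt : rk a < rk b ∨ rk b < rk a := by
      rcases h with h | h
      · right
        rw [← h]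
        apply rkp
        rintro rfl
        exact hne h
      · left
        rw [← h]
        apply rkp
        rintro rfl
        exact hne h.symm
    simp only [ew, Sym2.lift_mk]
    split_ifs with h1 h2
    · exact key b (rk0 b (by omega))
    · exact key a (rk0 a (by omega))
    · omega

theorem adj_hub : (tr cls att).Adj (hub false) (hub true) := by simp [tr, par]

theorem adj_sub (x : X) : (tr cls att).Adj (hub (cls x)) (sub x) := by simp [tr, par]

theorem adj_pt (x : X) : (tr cls att).Adj (sub x) (pt x) := by simp [tr, par]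

theorem adj_stem (k : K) (j : Bool) : (tr cls att).Adj (sub (att k)) (stem k j) := by
  simp [tr, par]

theorem adj_gl (k : K) (j i : Bool) : (tr cls att).Adj (stem k j) (gl k j i) := by
  simp [tr, par]

/-- the leaves -/
def leafMap : X ⊕ K × Bool × Bool → TW X K
  | Sum.inl x => pt x
  | Sum.inr (k, j, i) => gl k j i

theorem leafMap_inj : Function.Injective (leafMap (X := X) (K := K)) := by
  rintro (x | ⟨k, j, i⟩) (y | ⟨k', j', i'⟩) h <;> simp_all [leafMap]

theorem leafMap_range (hx : ∀ c, ∃ x, cls x = c) (a : TW X K) :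
    (∃ v, leafMap v = a) ↔ ∃! y, (tr cls att).Adj a y := by
  rcases a with c | x | x | ⟨k, j⟩ | ⟨k, j, i⟩
  · constructor
    · rintro ⟨x | ⟨k, j, i⟩, h⟩ <;> simp [leafMap] at h
    · rintro ⟨y, -, hy⟩
      exfalso
      obtain ⟨x, hxc⟩ := hx c
      have h1 := hy (sub x) (by rw [← hxc]; exact adj_sub cls att x)
      have h2 := hy (hub (!c)) (by
        cases c
        · exact adj_hub cls att
        · exact (adj_hub cls att).symm)
      rw [← h1] at h2
      simp at h2
  · constructor
    · rintro ⟨x | ⟨k, j, i⟩, h⟩ <;> simp [leafMap] at h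
    · rintro ⟨y, -, hy⟩
      exfalso
      have h1 := hy (pt x) (adj_pt cls att x)
      have h2 := hy (hub (cls x)) (adj_sub cls att x).symm
      rw [← h1] at h2
      simp at h2
  · constructor
    · intro _
      refine ⟨sub x, (adj_pt cls att x).symm, ?_⟩
      rintro y ⟨h1, h2 | h2⟩
      · exact h2.symm
      · rcases y with c | x | x | ⟨k, j⟩ | ⟨k, j, i⟩ <;> simp [par] at h2
    · intro _
      exact ⟨Sum.inl x, rfl⟩
  · constructor
    · rintro ⟨x | ⟨k, j, i⟩, h⟩ <;> simp [leafMap] at h
    · rintro ⟨y, -, hy⟩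
      exfalso
      have h1 := hy (gl k j false) (adj_gl cls att k j false)
      have h2 := hy (gl k j true) (adj_gl cls att k j true)
      rw [← h1] at h2
      simp at h2
  · constructor
    · intro _
      refine ⟨stem k j, (adj_gl cls att k j i).symm, ?_⟩
      rintro y ⟨h1, h2 | h2⟩
      · exact h2.symm
      · rcases y with c | x | x | ⟨k, j⟩ | ⟨k, j, i⟩ <;> simp [par] at h2
    · intro _
      exact ⟨Sum.inr (k, j, i), rfl⟩

/-- The tree with its weights and its leaves. -/
def leafTree [Finite X] [Finite K] (hx : ∀ c, ∃ x, cls x = c)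
    (hα : ∀ x, 1 < α x) (hL : 0 < L) (hs : ∀ k, 0 < s k) (hg : 0 < g) :
    LeafTree (X ⊕ K × Bool × Bool) where
  W := TW X K
  fin := inferInstance
  T := tr cls att
  tree := isTree cls att
  w := ew α L s g
  pos := ew_pos cls att α L s g hα hL hs hg
  leaf := leafMap
  inj := leafMap_inj
  range := leafMap_range cls att hx

section dist

variable [Finite X] [Finite K] (hx : ∀ c, ∃ x, cls x = c)
    (hα : ∀ x, 1 < α x) (hL : 0 < L) (hs : ∀ k, 0 < s k) (hg : 0 < g)

theorem dist_of_path {a b : X ⊕ K × Bool × Bool} {a' b' : TW X K}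
    (p : (tr cls att).Walk a' b') (hp : p.IsPath) (ha : leafMap a = a') (hb : leafMap b = b') :
    (leafTree cls att α L s g hx hα hL hs hg).dist a b = wt (ew α L s g) p := by
  subst ha hb
  exact tdist_eq (isTree cls att) (ew α L s g) hp

theorem dist_same (x y : X) (hxy : x ≠ y) (hc : cls x = cls y) :
    (leafTree cls att α L s g hx hα hL hs hg).dist (Sum.inl x) (Sum.inl y) = α x + α y := by
  have h2 : (tr cls att).Adj (hub (cls x)) (sub y) := hc ▸ adj_sub cls att y
  rw [dist_of_path cls att α L s g hx hα hL hs hg (a := Sum.inl x) (b := Sum.inl y)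
    (Walk.cons (adj_pt cls att x).symm (Walk.cons (adj_sub cls att x).symm
      (Walk.cons h2 (Walk.cons (adj_pt cls att y) Walk.nil))))
    (by
      rw [Walk.isPath_def]
      simp [hxy]) rfl rfl]
  simp only [wt, Walk.edges_cons, Walk.edges_nil, List.map_cons, List.map_nil, List.sum_cons,
    List.sum_nil, ew_pt_sub, ew_sub_pt, ew_sub_hub, ew_hub_sub]
  ring

theorem dist_diff (x y : X) (hcx : cls x = false) (hcy : cls y = true) :
    (leafTree cls att α L s g hx hα hL hs hg).dist (Sum.inl x) (Sum.inl y) = α x + α y + L := by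
  have hxy : x ≠ y := by rintro rfl; rw [hcx] at hcy; simp at hcy
  have h1 : (tr cls att).Adj (hub false) (sub x) := hcx ▸ adj_sub cls att x
  have h2 : (tr cls att).Adj (hub true) (sub y) := hcy ▸ adj_sub cls att y
  rw [dist_of_path cls att α L s g hx hα hL hs hg (a := Sum.inl x) (b := Sum.inl y)
    (Walk.cons (adj_pt cls att x).symm (Walk.cons h1.symm (Walk.cons (adj_hub cls att)
      (Walk.cons h2 (Walk.cons (adj_pt cls att y) Walk.nil)))))
    (by
      rw [Walk.isPath_def]
      simp [hxy]) rfl rfl]
  simp only [wt, Walk.edges_cons, Walk.edges_nil, List.map_cons, List.map_nil, List.sum_cons,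
    List.sum_nil, ew_pt_sub, ew_sub_pt, ew_sub_hub, ew_hub_sub, ew_hub_hub]
  ring

theorem dist_att (k : K) (j i : Bool) :
    (leafTree cls att α L s g hx hα hL hs hg).dist (Sum.inl (att k)) (Sum.inr (k, j, i)) =
      α (att k) - 1 + s k + g := by
  rw [dist_of_path cls att α L s g hx hα hL hs hg (a := Sum.inl (att k)) (b := Sum.inr (k, j, i))
    (Walk.cons (adj_pt cls att (att k)).symm (Walk.cons (adj_stem cls att k j)
      (Walk.cons (adj_gl cls att k j i) Walk.nil)))
    (by
      rw [Walk.isPath_def]
      simp) rfl rfl]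
  simp only [wt, Walk.edges_cons, Walk.edges_nil, List.map_cons, List.map_nil, List.sum_cons,
    List.sum_nil, ew_pt_sub, ew_sub_stem, ew_stem_gl]
  ring

theorem dist_oth (x : X) (k : K) (j i : Bool) (hxk : x ≠ att k) (hc : cls x = cls (att k)) :
    (leafTree cls att α L s g hx hα hL hs hg).dist (Sum.inl x) (Sum.inr (k, j, i)) =
      α x + 1 + s k + g := by
  have h2 : (tr cls att).Adj (hub (cls x)) (sub (att k)) := hc ▸ adj_sub cls att (att k)
  rw [dist_of_path cls att α L s g hx hα hL hs hg (a := Sum.inl x) (b := Sum.inr (k, j, i))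
    (Walk.cons (adj_pt cls att x).symm (Walk.cons (adj_sub cls att x).symm
      (Walk.cons h2 (Walk.cons (adj_stem cls att k j)
      (Walk.cons (adj_gl cls att k j i) Walk.nil)))))
    (by
      rw [Walk.isPath_def]
      simp [hxk]) rfl rfl]
  simp only [wt, Walk.edges_cons, Walk.edges_nil, List.map_cons, List.map_nil, List.sum_cons,
    List.sum_nil, ew_pt_sub, ew_sub_stem, ew_stem_gl, ew_sub_hub, ew_hub_sub]
  ring

theorem dist_pair (k : K) (j i i' : Bool) (hi : i ≠ i') :
    (leafTree cls att α L s g hx hα hL hs hg).dist (Sum.inr (k, j, i)) (Sum.inr (k, j, i')) =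
      2 * g := by
  rw [dist_of_path cls att α L s g hx hα hL hs hg (a := Sum.inr (k, j, i))
    (b := Sum.inr (k, j, i'))
    (Walk.cons (adj_gl cls att k j i).symm (Walk.cons (adj_gl cls att k j i') Walk.nil))
    (by
      rw [Walk.isPath_def]
      simp [hi]) rfl rfl]
  simp only [wt, Walk.edges_cons, Walk.edges_nil, List.map_cons, List.map_nil, List.sum_cons,
    List.sum_nil, ew_gl_stem, ew_stem_gl]
  ring

theorem dist_cross (k : K) (j j' i i' : Bool) (hj : j ≠ j') :
    (leafTree cls att α L s g hx hα hL hs hg).dist (Sum.inr (k, j, i)) (Sum.inr (k, j', i')) =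
      2 * (s k + g) := by
  rw [dist_of_path cls att α L s g hx hα hL hs hg (a := Sum.inr (k, j, i))
    (b := Sum.inr (k, j', i'))
    (Walk.cons (adj_gl cls att k j i).symm (Walk.cons (adj_stem cls att k j).symm
      (Walk.cons (adj_stem cls att k j') (Walk.cons (adj_gl cls att k j' i') Walk.nil))))
    (by
      rw [Walk.isPath_def]
      simp [hj]) rfl rfl]
  simp only [wt, Walk.edges_cons, Walk.edges_nil, List.map_cons, List.map_nil, List.sum_cons,
    List.sum_nil, ew_gl_stem, ew_stem_gl, ew_stem_sub, ew_sub_stem]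
  ring

end dist

end TW

end Pool.Agent.R554
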