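import Mathlib

/-!
# Clique graphs, blow-ups and split graphs with a bounded stable side
-/

set_option autoImplicit false

namespace Pool.Agent.R554.SCG

/-- The maximal cliques of a graph (maximal sets of pairwise adjacent vertices; nonempty). -/
def MaxClique {W : Type} (H : SimpleGraph W) (C : Set W) : Prop :=
  C.Nonempty ∧ Maximal (fun D : Set W => H.IsClique D) C

/-- The clique graph: its vertices are the maximal cliques, two of them are adjacent when they share
a vertex. -/
def cliqueGraph {W : Type} (H : SimpleGraph W) : SimpleGraph {C : Set W // MaxClique H C} where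
  Adj C D := C ≠ D ∧ (C.1 ∩ D.1).Nonempty
  symm.symm C D h := ⟨h.1.symm, by rw [Set.inter_comm]; exact h.2⟩
  loopless.irrefl C h := h.1 rfl

/-- `G` is a clique graph: it is isomorphic to the clique graph of some finite graph. -/
def IsCliqueGraph {V : Type} (G : SimpleGraph V) : Prop :=
  ∃ (W : Type) (_ : Finite W) (H : SimpleGraph W), Nonempty (G ≃g cliqueGraph H)

theorem IsCliqueGraph.of_iso {V V' : Type} {G : SimpleGraph V} {G' : SimpleGraph V'}
    (e : G' ≃g G) (h : IsCliqueGraph G) : IsCliqueGraph G' := by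
  obtain ⟨W, hW, H, ⟨f⟩⟩ := h
  exact ⟨W, hW, H, ⟨e.trans f⟩⟩

section Blow

variable {V V' W : Type} (H : SimpleGraph W) (C : V' → Set W)

/-- The graph `H` with a new vertex for each `v`, adjacent to the vertices of `C v`. -/
def ext : SimpleGraph (W ⊕ V') where
  Adj x y := match x, y with
    | .inl a, .inl b => H.Adj a b
    | .inl a, .inr v => a ∈ C v
    | .inr v, .inl a => a ∈ C v
    | .inr _, .inr _ => False
  symm.symm x y h := by
    rcases x with a | v <;> rcases y with b | w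
    · exact h.symm
    · exact h
    · exact h
    · exact h
  loopless.irrefl x h := by
    rcases x with a | v
    · exact H.irrefl h
    · exact h

/-- The new cliques. -/
def DD (v : V') : Set (W ⊕ V') := Sum.inl '' C v ∪ {Sum.inr v}

variable {H C}

theorem DD_clique (hC : ∀ v, H.IsClique (C v)) (v : V') : (ext H C).IsClique (DD C v) := by
  rintro x (⟨a, ha, rfl⟩ | rfl) y (⟨b, hb, rfl⟩ | rfl) hxy
  · exact hC v ha hb (fun h => hxy (by rw [h]))
  · exact ha
  · exact hb
  · exact absurd rfl hxy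

theorem sub_DD {E : Set (W ⊕ V')} (hE : (ext H C).IsClique E) {v : V'} (hv : Sum.inr v ∈ E) :
    E ⊆ DD C v := by
  intro x hx
  rcases x with a | w
  · exact Or.inl ⟨a, hE hx hv (by simp), rfl⟩
  · by_cases h : w = v
    · subst h; exact Or.inr rfl
    · exact absurd (hE hx hv (by simpa using h)) (fun h => h)

theorem exists_max [Finite W] {E : Set W} (hE : H.IsClique E) :
    ∃ D, E ⊆ D ∧ Maximal (fun D : Set W => H.IsClique D) D := by
  obtain ⟨D, hD, hD'⟩ := Set.Finite.exists_le_maximal (s := {D : Set W | H.IsClique D})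
    (Set.toFinite _) hE
  exact ⟨D, hD, hD'⟩

end Blow

/-- **Replacing vertices by sets of true twins preserves clique graphs.** -/
theorem IsCliqueGraph.blow {V V' : Type} [Finite V'] {G : SimpleGraph V} {G' : SimpleGraph V'}
    (π : V' → V) (hπ : Function.Surjective π)
    (h : ∀ u v, G'.Adj u v ↔ u ≠ v ∧ (π u = π v ∨ G.Adj (π u) (π v))) (hG : IsCliqueGraph G) :
    IsCliqueGraph G' := by
  obtain ⟨W, hW, H, ⟨f⟩⟩ := hG
  set C : V' → Set W := fun v => (f (π v)).1 with hC
  have hCc : ∀ v, H.IsClique (C v) := fun v => (f (π v)).2.2.1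
  have hCn : ∀ v, (C v).Nonempty := fun v => (f (π v)).2.1
  have hmax : ∀ v, MaxClique (ext H C) (DD C v) := by
    intro v
    refine ⟨⟨Sum.inr v, Or.inr rfl⟩, DD_clique hCc v, fun E hE hDE => ?_⟩
    exact sub_DD hE (hDE (Or.inr rfl))
  have hinj : Function.Injective (fun v => (⟨DD C v, hmax v⟩ : {E // MaxClique (ext H C) E})) := by
    intro u v huv
    have h1 : DD C u = DD C v := congrArg Subtype.val huv
    have h2 : (Sum.inr u : W ⊕ V') ∈ DD C v := by rw [← h1]; exact Or.inr rfl
    rcases h2 with ⟨a, _, ha⟩ | h2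
    · simp at ha
    · exact Sum.inr_injective h2
  have hsurj : Function.Surjective
      (fun v => (⟨DD C v, hmax v⟩ : {E // MaxClique (ext H C) E})) := by
    rintro ⟨E, hE⟩
    by_cases hr : ∃ v, (Sum.inr v : W ⊕ V') ∈ E
    · obtain ⟨v, hv⟩ := hr
      have h1 := sub_DD hE.2.1 hv
      exact ⟨v, Subtype.ext (subset_antisymm (hE.2.2 (DD_clique hCc v) h1) h1)⟩
    · push Not at hr
      have h0 : H.IsClique (Sum.inl ⁻¹' E) := by
        intro a ha b hb hab
        exact hE.2.1 ha hb (fun h => hab (Sum.inl_injective h))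
      obtain ⟨D, hD1, hD2⟩ := exists_max h0
      have hDn : D.Nonempty := by
        obtain ⟨x, hx⟩ := hE.1
        rcases x with a | v
        · exact ⟨a, hD1 hx⟩
        · exact absurd hx (hr v)
      obtain ⟨x, hx⟩ := f.surjective ⟨D, hDn, hD2⟩
      obtain ⟨v, rfl⟩ := hπ x
      have h1 : E ⊆ DD C v := by
        intro y hy
        rcases y with a | w
        · refine Or.inl ⟨a, ?_, rfl⟩
          rw [hC]
          simp only
          rw [hx]
          exact hD1 hy
        · exact absurd hy (hr w)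
      exact ⟨v, Subtype.ext (subset_antisymm (hE.2.2 (DD_clique hCc v) h1) h1)⟩
  refine ⟨W ⊕ V', inferInstance, ext H C, ⟨⟨Equiv.ofBijective _ ⟨hinj, hsurj⟩, ?_⟩⟩⟩
  intro u v
  rw [h u v]
  show ((⟨DD C u, hmax u⟩ : {E // MaxClique (ext H C) E}) ≠ ⟨DD C v, hmax v⟩ ∧
    (DD C u ∩ DD C v).Nonempty) ↔ _
  have hne : ((⟨DD C u, hmax u⟩ : {E // MaxClique (ext H C) E}) ≠ ⟨DD C v, hmax v⟩) ↔ u ≠ v :=
    hinj.ne_iff
  rw [hne]
  refine and_congr_right fun huv => ?_
  have h1 : (DD C u ∩ DD C v).Nonempty ↔ (C u ∩ C v).Nonempty := by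
    constructor
    · rintro ⟨x, hx1 | hx1, hx2 | hx2⟩
      · obtain ⟨a, ha, rfl⟩ := hx1
        obtain ⟨b, hb, hab⟩ := hx2
        have : b = a := Sum.inl_injective hab
        subst this
        exact ⟨b, ha, hb⟩
      · obtain ⟨a, ha, rfl⟩ := hx1
        simp at hx2
      · obtain ⟨a, ha, rfl⟩ := hx2
        simp at hx1
      · have h2 : x = Sum.inr u := hx1
        have h3 : x = Sum.inr v := hx2
        rw [h2] at h3
        exact absurd (Sum.inr_injective h3) huv
    · rintro ⟨a, ha, hb⟩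
      exact ⟨Sum.inl a, Or.inl ⟨a, ha, rfl⟩, Or.inl ⟨a, hb, rfl⟩⟩
  rw [h1]
  constructor
  · intro h2
    by_cases h3 : π u = π v
    · exact Or.inl h3
    · right
      rw [← f.map_adj_iff]
      exact ⟨fun h4 => h3 (f.injective h4), h2⟩
  · rintro (h2 | h2)
    · rw [hC]
      simp only
      rw [h2, Set.inter_self]
      exact hCn v
    · rw [← f.map_adj_iff] at h2
      exact h2.2

/-! ### The canonical split graphs -/

/-- The split graph with stable side `Fin s` and `m A` vertices with neighbourhood `A` in the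
stable side, for all `A`. -/
def Gam (s : ℕ) (m : (Fin s → Bool) → ℕ) : SimpleGraph (Fin s ⊕ (Σ A, Fin (m A))) where
  Adj x y := match x, y with
    | .inl _, .inl _ => False
    | .inl i, .inr v => v.1 i = true
    | .inr v, .inl i => v.1 i = true
    | .inr v, .inr w => v ≠ w
  symm.symm x y h := by
    rcases x with a | v <;> rcases y with b | w
    · exact h
    · exact h
    · exact h
    · exact Ne.symm h
  loopless.irrefl x h := by
    rcases x with a | v
    · exact h
    · exact h rfl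

theorem Gam_mono {s : ℕ} {m m' : (Fin s → Bool) → ℕ} (h : m ≤ m') (h0 : ∀ A, m A = 0 → m' A = 0)
    (hm : IsCliqueGraph (Gam s m)) : IsCliqueGraph (Gam s m') := by
  have hlt : ∀ A (j : Fin (m' A)), (if (j : ℕ) < m A then (j : ℕ) else 0) < m A := by
    intro A j
    have h1 : m A ≠ 0 := by
      intro h2
      have h3 := h0 A h2
      have := j.2
      omega
    split_ifs with h2
    · exact h2
    · omega
  let π : Fin s ⊕ (Σ A, Fin (m' A)) → Fin s ⊕ (Σ A, Fin (m A)) := fun x => match x with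
    | .inl i => .inl i
    | .inr v => .inr ⟨v.1, ⟨if (v.2 : ℕ) < m v.1 then (v.2 : ℕ) else 0, hlt v.1 v.2⟩⟩
  refine hm.blow π ?_ ?_
  · rintro (i | ⟨A, j⟩)
    · exact ⟨.inl i, rfl⟩
    · refine ⟨.inr ⟨A, ⟨j, lt_of_lt_of_le j.2 (h A)⟩⟩, ?_⟩
      show Sum.inr _ = _
      congr 1
      have h2 : (⟨if (j : ℕ) < m A then (j : ℕ) else 0,
        hlt A ⟨j, lt_of_lt_of_le j.2 (h A)⟩⟩ : Fin (m A)) = j := by
        ext
        simp [j.2]
      show (⟨A, _⟩ : Σ A, Fin (m A)) = ⟨A, j⟩
      exact congrArg (Sigma.mk A) h2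
  · rintro (i | ⟨A, j⟩) (i' | ⟨A', j'⟩)
    · constructor
      · intro h1; exact absurd h1 (fun h => h)
      · rintro ⟨h1, h2 | h2⟩
        · exact absurd (congrArg Sum.inl (Sum.inl_injective h2)) h1
        · exact absurd h2 (fun h => h)
    · constructor
      · intro h1
        exact ⟨by simp, Or.inr h1⟩
      · rintro ⟨-, h2 | h2⟩
        · exact absurd h2 (by simp [π])
        · exact h2
    · constructor
      · intro h1
        exact ⟨by simp, Or.inr h1⟩
      · rintro ⟨-, h2 | h2⟩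
        · exact absurd h2 (by simp [π])
        · exact h2
    · constructor
      · intro h1
        have h1' : (⟨A, j⟩ : Σ A, Fin (m' A)) ≠ ⟨A', j'⟩ := h1
        refine ⟨fun h => h1' (Sum.inr_injective h), ?_⟩
        by_cases h2 : π (Sum.inr ⟨A, j⟩) = π (Sum.inr ⟨A', j'⟩)
        · exact Or.inl h2
        · exact Or.inr (fun h3 => h2 (congrArg Sum.inr h3))
      · rintro ⟨h1, -⟩
        show (⟨A, j⟩ : Σ A, Fin (m' A)) ≠ ⟨A', j'⟩
        exact fun h => h1 (congrArg Sum.inr h)

/-- Every split graph is canonical. -/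
theorem iso_gam {V : Type} [Finite V] {G : SimpleGraph V} {s : ℕ} (f : Fin s → V)
    (hf : Function.Injective f) (hS : ∀ i j, ¬ G.Adj (f i) (f j))
    (hK : ∀ x y, x ∉ Set.range f → y ∉ Set.range f → x ≠ y → G.Adj x y)
    (m : (Fin s → Bool) → ℕ)
    (hm : ∀ A : Fin s → Bool, Nat.card {x : V // x ∉ Set.range f ∧
      ∀ i, G.Adj x (f i) ↔ A i = true} = m A) : Nonempty (G ≃g Gam s m) := by
  classical
  let e : ∀ A : Fin s → Bool, {x : V // x ∉ Set.range f ∧ ∀ i, G.Adj x (f i) ↔ A i = true} ≃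
      Fin (m A) := fun A => Finite.equivFinOfCardEq (hm A)
  let Ψ : Fin s ⊕ (Σ A, Fin (m A)) → V := fun x => match x with
    | .inl i => f i
    | .inr v => ((e v.1).symm v.2).1
  have hr : ∀ v : Σ A, Fin (m A), Ψ (Sum.inr v) ∉ Set.range f := fun v =>
    ((e v.1).symm v.2).2.1
  have ha : ∀ (v : Σ A, Fin (m A)) i, G.Adj (Ψ (Sum.inr v)) (f i) ↔ v.1 i = true := fun v i =>
    ((e v.1).symm v.2).2.2 i
  have hinj : Function.Injective Ψ := by
    rintro (i | v) (i' | v') h
    · exact congrArg Sum.inl (hf h)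
    · exact absurd ⟨i, h⟩ (hr v')
    · exact absurd ⟨i', h.symm⟩ (hr v)
    · obtain ⟨A, j⟩ := v
      obtain ⟨A', j'⟩ := v'
      have h1 : A = A' := by
        funext i
        have h2 := ha ⟨A, j⟩ i
        have h3 := ha ⟨A', j'⟩ i
        rw [h, h3] at h2
        rw [Bool.eq_iff_iff]
        exact h2.symm
      subst h1
      have h2 : (e A).symm j = (e A).symm j' := Subtype.ext h
      rw [(e A).symm.injective h2]
  have hsurj : Function.Surjective Ψ := by
    intro x
    by_cases hx : x ∈ Set.range f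
    · obtain ⟨i, rfl⟩ := hx
      exact ⟨Sum.inl i, rfl⟩
    · let A : Fin s → Bool := fun i => decide (G.Adj x (f i))
      have hA : ∀ i, G.Adj x (f i) ↔ A i = true := fun i => by simp [A]
      refine ⟨Sum.inr ⟨A, e A ⟨x, hx, hA⟩⟩, ?_⟩
      show ((e A).symm (e A ⟨x, hx, hA⟩)).1 = x
      rw [Equiv.symm_apply_apply]
  let E : Gam s m ≃g G := ⟨Equiv.ofBijective Ψ ⟨hinj, hsurj⟩, by
    rintro (i | v) (i' | v')
    · show G.Adj (f i) (f i') ↔ False
      exact ⟨hS i i', False.elim⟩
    · show G.Adj (f i) (Ψ (Sum.inr v')) ↔ v'.1 i = true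
      rw [G.adj_comm]
      exact ha v' i
    · show G.Adj (Ψ (Sum.inr v)) (f i') ↔ v.1 i' = true
      exact ha v i'
    · show G.Adj (Ψ (Sum.inr v)) (Ψ (Sum.inr v')) ↔ v ≠ v'
      constructor
      · intro h1 h2
        subst h2
        exact G.irrefl h1
      · intro h1
        exact hK _ _ (hr v) (hr v') (fun h2 => h1 (Sum.inr_injective (hinj h2)))⟩
  exact ⟨E.symm⟩

/-! ### Dickson's lemma -/

theorem cap {ι : Type} [Finite ι] (U : Set (ι → ℕ))
    (hU : ∀ m m' : ι → ℕ, m ≤ m' → (∀ i, m i = 0 → m' i = 0) → m ∈ U → m' ∈ U) :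
    ∃ M, ∀ m : ι → ℕ, m ∈ U ↔ (fun i => min (m i) M) ∈ U := by
  classical
  let P : Set ι → (ι → ℕ) → Prop := fun σ m => m ∈ U ∧ {i | m i = 0} = σ
  have hfin : ∀ σ, {m | Minimal (P σ) m}.Finite := fun σ =>
    WellQuasiOrderedLE.finite_of_isAntichain (setOfPred_minimal_antichain (P σ))
  have hfin2 : (⋃ σ, {m | Minimal (P σ) m}).Finite := Set.finite_iUnion hfin
  obtain ⟨B, hB⟩ := hfin2.bddAbove
  obtain ⟨M, hM⟩ := (Set.finite_range B).bddAbove
  refine ⟨M + 1, fun m => ⟨fun hm => ?_, fun hm => ?_⟩⟩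
  · obtain ⟨m0, hm0, hm0'⟩ := exists_minimal_le_of_wellFoundedLT (P {i | m i = 0}) m ⟨hm, rfl⟩
    have h1 : m0 ≤ B := hB (Set.mem_iUnion.2 ⟨_, hm0'⟩)
    have h2 : ∀ i, m0 i = 0 ↔ m i = 0 := fun i => by
      have := hm0'.1.2
      exact Set.ext_iff.1 this i
    refine hU m0 _ (fun i => ?_) (fun i hi => ?_) hm0'.1.1
    · have h3 : B i ≤ M := hM ⟨i, rfl⟩
      have h4 := h1 i
      have h5 := hm0 i
      exact le_min h5 (h4.trans (h3.trans (Nat.le_succ M)))
    · show min (m i) (M + 1) = 0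
      rw [(h2 i).1 hi]
      simp
  · refine hU _ m (fun i => min_le_left _ _) (fun i hi => ?_) hm
    have hi' : min (m i) (M + 1) = 0 := hi
    omega

/-- The split graphs with stable side of size `s` that are clique graphs are determined by the
truncated multiplicities. -/
theorem exists_cap (s : ℕ) : ∃ M, ∀ m : (Fin s → Bool) → ℕ,
    IsCliqueGraph (Gam s m) ↔ IsCliqueGraph (Gam s (fun A => min (m A) M)) :=
  cap {m | IsCliqueGraph (Gam s m)} (fun _ _ h h0 hm => Gam_mono h h0 hm)

end Pool.Agent.R554.SCG
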