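import Pool.Agent.R554.SplitClique
import Pool.Agent.H495R3.Tri
import Pool.Agent.H671R2.PolyAuto

/-!
# Recognising split clique graphs with a bounded stable side is in P
-/

set_option autoImplicit false

namespace Pool.Agent.NPC.R554SCG

open Pool.Agent.NPC Pool.Agent.H622R2 Pool.Agent.H495R3 Pool.Agent.R554.SCG

/-- The normalised partition of a split graph into a clique `K`, the complement of `S`, and a stable
set `S`: the clique is the union of the neighbourhoods of the vertices in `S`. -/
structure NormSplit {V : Type} (G : SimpleGraph V) (S : Set V) : Prop where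
  stable : ∀ u ∈ S, ∀ v ∈ S, ¬ G.Adj u v
  clique : ∀ u, u ∉ S → ∀ v, v ∉ S → u ≠ v → G.Adj u v
  norm : ∀ u, u ∉ S ↔ ∃ s ∈ S, G.Adj s u

/-- `G` is a split graph with a stable side of at most `k` vertices. -/
def SplitLe (k : ℕ) {V : Type} (G : SimpleGraph V) : Prop :=
  ∃ S : Set V, NormSplit G S ∧ S.ncard ≤ k

/-! ### The algorithm -/

/-- all tuples -/
def tup (l : List ℕ) : ℕ → List (List ℕ)
  | 0 => [[]]
  | s + 1 => l.flatMap fun v => (tup l s).map fun t => v :: t

theorem mem_tup (l : List ℕ) : ∀ (s : ℕ) (t : List ℕ), t ∈ tup l s ↔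
    t.length = s ∧ ∀ x ∈ t, x ∈ l
  | 0, t => by
    simp only [tup, List.mem_singleton]
    constructor
    · rintro rfl; simp
    · rintro ⟨h, -⟩; exact List.eq_nil_of_length_eq_zero h
  | s + 1, t => by
    simp only [tup, List.mem_flatMap, List.mem_map]
    constructor
    · rintro ⟨v, hv, t', ht', rfl⟩
      rw [mem_tup l s] at ht'
      refine ⟨by simp [ht'.1], ?_⟩
      intro x hx
      rcases List.mem_cons.1 hx with rfl | hx
      · exact hv
      · exact ht'.2 x hx
    · rintro ⟨h1, h2⟩
      rcases t with _ | ⟨v, t⟩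
      · simp at h1
      · exact ⟨v, h2 v (by simp), t, (mem_tup l s t).2 ⟨by simpa using h1,
          fun x hx => h2 x (by simp [hx])⟩, rfl⟩

theorem poly_tup {α : Type} [TEnc α] {l : α → List ℕ} (hl : Poly l) :
    ∀ s, Poly (fun a => tup (l a) s)
  | 0 => Poly.const _
  | s + 1 => by
    have ih := poly_tup hl s
    refine Poly.flatMap (F := fun a v => (tup (l a) s).map fun t => v :: t) hl ?_
    exact Poly.map (F := fun (p : α × ℕ) t => p.2 :: t) (ih.comp (Poly.fst Poly.id))
      (Poly.cons (Poly.snd (Poly.fst Poly.id)) (Poly.snd Poly.id))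

/-- The neighbourhood of `x` in the tuple `t`. -/
def ty (M : List (List Bool)) (t : List ℕ) (x : ℕ) : List Bool := t.map fun v => adjB M x v

/-- The number of the vertices outside the tuple with neighbourhood `A`. -/
def cnt (M : List (List Bool)) (t : List ℕ) (A : List Bool) : ℕ :=
  ((List.range M.length).filter fun x => !decide (x ∈ t) && decide (ty M t x = A)).length

/-- All neighbourhoods. -/
noncomputable def allA (s : ℕ) : List (List Bool) :=
  (Finset.univ : Finset (Fin s → Bool)).toList.map List.ofFn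

/-- The truncated multiplicities. -/
noncomputable def vec (s K : ℕ) (M : List (List Bool)) (t : List ℕ) : List ℕ :=
  (allA s).map fun A => min (cnt M t A) K

/-- The table. -/
noncomputable def tab (s K : ℕ) : List (List ℕ) := by
  classical
  exact ((Finset.univ : Finset ((Fin s → Bool) → Fin (K + 1))).filter
    (fun c => IsCliqueGraph (Gam s (fun A => (c A : ℕ))))).toList.map
      (fun c => (Finset.univ : Finset (Fin s → Bool)).toList.map (fun A => (c A : ℕ)))

/-- The tuple is the stable side of the normalised partition. -/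
def okT (M : List (List Bool)) (t : List ℕ) : Bool :=
  (List.range t.length).all (fun i => (List.range t.length).all fun j =>
    decide (i = j) || !decide (t.getD i 0 = t.getD j 0)) &&
  (t.all fun u => t.all fun v => !adjB M u v) &&
  ((List.range M.length).all fun x => (List.range M.length).all fun y =>
    decide (x ∈ t) || (decide (y ∈ t) || (decide (x = y) || adjB M x y))) &&
  ((List.range M.length).all fun x => decide (x ∈ t) || t.any fun s => adjB M s x)

/-- The test for a stable side of size `s`. -/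
noncomputable def tst (s K : ℕ) (M : List (List Bool)) : Bool :=
  (tup (List.range M.length) s).any fun t => okT M t && decide (vec s K M t ∈ tab s K)

theorem poly_okT {α : Type} [TEnc α] {M : α → List (List Bool)} {t : α → List ℕ} (hM : Poly M)
    (ht : Poly t) : Poly (fun a => okT (M a) (t a)) := by
  have r : Poly (fun a => List.range (M a).length) := Poly.range_length hM
  have r2 : Poly (fun a => List.range (t a).length) := Poly.range_length ht
  have hi : Poly (fun p : (α × ℕ) × ℕ => p.1.2) := by fun_prop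
  have hj : Poly (fun p : (α × ℕ) × ℕ => p.2) := by fun_prop
  have hx : Poly (fun p : (α × ℕ) × ℕ => p.1.1) := by fun_prop
  have htx := ht.comp hx
  have hMx := hM.comp hx
  unfold okT
  refine Poly.and (Poly.and (Poly.and ?_ ?_) ?_) ?_
  · refine Poly.all (p := fun s i => (List.range (t s).length).all fun j =>
      decide (i = j) || !decide ((t s).getD i 0 = (t s).getD j 0)) r2 ?_
    refine Poly.all (p := fun (q : α × ℕ) j => decide (q.2 = j) ||
      !decide ((t q.1).getD q.2 0 = (t q.1).getD j 0)) (r2.comp (Poly.fst Poly.id)) ?_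
    exact Poly.or (Poly.decide_eq hi hj) (Poly.not (Poly.decide_eq
      (Poly.getD htx hi (Poly.const 0)) (Poly.getD htx hj (Poly.const 0))))
  · refine Poly.all (p := fun a u => (t a).all fun v => !adjB (M a) u v) ht ?_
    refine Poly.all (p := fun (q : α × ℕ) v => !adjB (M q.1) q.2 v) (ht.comp (Poly.fst Poly.id)) ?_
    exact Poly.not (adjB_poly hMx hi hj)
  · refine Poly.all (p := fun a x => (List.range (M a).length).all fun y =>
      decide (x ∈ t a) || (decide (y ∈ t a) || (decide (x = y) || adjB (M a) x y))) r ?_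
    refine Poly.all (p := fun (q : α × ℕ) y => decide (q.2 ∈ t q.1) ||
      (decide (y ∈ t q.1) || (decide (q.2 = y) || adjB (M q.1) q.2 y)))
      (r.comp (Poly.fst Poly.id)) ?_
    exact Poly.or (Poly.dec_mem hi htx) (Poly.or (Poly.dec_mem hj htx)
      (Poly.or (Poly.decide_eq hi hj) (adjB_poly hMx hi hj)))
  · refine Poly.all (p := fun a x => decide (x ∈ t a) || (t a).any fun s => adjB (M a) s x) r ?_
    refine Poly.or (Poly.dec_mem (Poly.snd Poly.id) (ht.comp (Poly.fst Poly.id))) ?_
    refine Poly.any (p := fun (q : α × ℕ) s => adjB (M q.1) s q.2) (ht.comp (Poly.fst Poly.id)) ?_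
    exact adjB_poly hMx hj hi

theorem poly_vec {α : Type} [TEnc α] {M : α → List (List Bool)} {t : α → List ℕ} (s K : ℕ)
    (hM : Poly M) (ht : Poly t) : Poly (fun a => vec s K (M a) (t a)) := by
  unfold vec cnt ty
  refine Poly.map (F := fun a A => min (((List.range (M a).length).filter fun x =>
    !decide (x ∈ t a) && decide ((t a).map (fun v => adjB (M a) x v) = A)).length) K)
    (Poly.const _) ?_
  refine Poly.min (Poly.length ?_) (Poly.const K)
  refine Poly.filter (p := fun (q : α × List Bool) x => !decide (x ∈ t q.1) &&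
    decide ((t q.1).map (fun v => adjB (M q.1) x v) = q.2))
    ((Poly.range_length hM).comp (Poly.fst Poly.id)) ?_
  have hx : Poly (fun p : (α × List Bool) × ℕ => p.1.1) := by fun_prop
  have hA : Poly (fun p : (α × List Bool) × ℕ => p.1.2) := by fun_prop
  have hi : Poly (fun p : (α × List Bool) × ℕ => p.2) := by fun_prop
  refine Poly.and (Poly.not (Poly.dec_mem hi (ht.comp hx))) (Poly.dec_eq ?_ hA)
  refine Poly.map (F := fun (p : (α × List Bool) × ℕ) v => adjB (M p.1.1) p.2 v)
    (ht.comp hx) ?_
  exact adjB_poly (hM.comp (hx.comp (Poly.fst Poly.id))) (hi.comp (Poly.fst Poly.id))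
    (Poly.snd Poly.id)

theorem poly_tst (s K : ℕ) : Poly (fun M : List (List Bool) => tst s K M) := by
  unfold tst
  refine Poly.any (p := fun (M : List (List Bool)) t => okT M t &&
    decide (vec s K M t ∈ tab s K)) (poly_tup (Poly.range_length Poly.id) s) ?_
  exact Poly.and (poly_okT (Poly.fst Poly.id) (Poly.snd Poly.id))
    (Poly.dec_mem (poly_vec s K (Poly.fst Poly.id) (Poly.snd Poly.id)) (Poly.const _))

/-! ### Correctness -/

theorem nodup_chk (w : List ℕ) : ((List.range w.length).all (fun i =>
    (List.range w.length).all fun j => decide (i = j) || !decide (w.getD i 0 = w.getD j 0))) = true ↔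
      w.Nodup := by
  simp only [List.all_eq_true, List.mem_range, Bool.or_eq_true, decide_eq_true_eq,
    Bool.not_eq_true', decide_eq_false_iff_not]
  rw [List.nodup_iff_injective_getElem]
  constructor
  · intro h i j hij
    rcases h i.1 i.2 j.1 j.2 with h1 | h1
    · exact Fin.ext h1
    · exfalso
      rw [List.getD_eq_getElem _ _ i.2, List.getD_eq_getElem _ _ j.2] at h1
      exact h1 hij
  · intro h i hi j hj
    by_cases hij : i = j
    · exact Or.inl hij
    · right
      rw [List.getD_eq_getElem _ _ hi, List.getD_eq_getElem _ _ hj]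
      intro h1
      exact hij (congrArg Fin.val (h (a₁ := ⟨i, hi⟩) (a₂ := ⟨j, hj⟩) h1))

/-- The set of the vertices of a tuple. -/
def vs (M : List (List Bool)) (t : List ℕ) : Set (Fin M.length) := {x | (x : ℕ) ∈ t}

theorem okT_iff {M : List (List Bool)} {t : List ℕ} (ht : ∀ x ∈ t, x < M.length) :
    okT M t = true ↔ t.Nodup ∧ NormSplit (matGraph M) (vs M t) := by
  unfold okT
  rw [Bool.and_eq_true, Bool.and_eq_true, Bool.and_eq_true, nodup_chk, and_assoc, and_assoc]
  refine and_congr_right fun _ => ?_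
  simp only [List.all_eq_true, Bool.not_eq_true', List.mem_range, Bool.or_eq_true,
    decide_eq_true_eq, List.any_eq_true]
  constructor
  · rintro ⟨h1, h2, h3⟩
    have h1' : ∀ u ∈ vs M t, ∀ v ∈ vs M t, ¬ (matGraph M).Adj u v := by
      intro u hu v hv huv
      rw [← adjB_iff, h1 _ hu _ hv] at huv
      exact absurd huv (by simp)
    refine ⟨h1', ?_, ?_⟩
    · intro u hu v hv huv
      rcases h2 u u.2 v v.2 with h4 | h4 | h4 | h4
      · exact absurd h4 hu
      · exact absurd h4 hv
      · exact absurd (Fin.ext h4) huv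
      · exact (adjB_iff M u v).1 h4
    · intro u
      constructor
      · intro hu
        rcases h3 u u.2 with h4 | ⟨s, hs, h4⟩
        · exact absurd h4 hu
        · exact ⟨⟨s, ht s hs⟩, hs, (adjB_iff M ⟨s, ht s hs⟩ u).1 h4⟩
      · rintro ⟨s, hs, h4⟩ hu
        exact h1' _ hs _ hu h4
  · intro h
    refine ⟨?_, ?_, ?_⟩
    · intro u hu v hv
      have h4 := h.stable ⟨u, ht u hu⟩ hu ⟨v, ht v hv⟩ hv
      rw [← adjB_iff] at h4
      simpa using h4
    · intro x hx y hy
      by_cases h1 : x ∈ t
      · exact Or.inl h1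
      · by_cases h2 : y ∈ t
        · exact Or.inr (Or.inl h2)
        · by_cases h3 : x = y
          · exact Or.inr (Or.inr (Or.inl h3))
          · refine Or.inr (Or.inr (Or.inr ?_))
            exact (adjB_iff M ⟨x, hx⟩ ⟨y, hy⟩).2 (h.clique ⟨x, hx⟩ h1 ⟨y, hy⟩ h2
              (fun h4 => h3 (congrArg Fin.val h4)))
    · intro x hx
      by_cases h1 : x ∈ t
      · exact Or.inl h1
      · right
        obtain ⟨s, hs, h2⟩ := (h.norm ⟨x, hx⟩).1 h1
        exact ⟨s, hs, (adjB_iff M s ⟨x, hx⟩).2 h2⟩

theorem cnt_eq (M : List (List Bool)) {t : List ℕ} (ht : ∀ x ∈ t, x < M.length)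
    (A : Fin t.length → Bool) : cnt M t (List.ofFn A) =
      Nat.card {x : Fin M.length // x ∉ Set.range (fun i : Fin t.length =>
        (⟨t[i], ht _ (List.getElem_mem _)⟩ : Fin M.length)) ∧
          ∀ i : Fin t.length, (matGraph M).Adj x ⟨t[i], ht _ (List.getElem_mem _)⟩ ↔
            A i = true} := by
  classical
  unfold cnt
  have hnd : ((List.range M.length).filter fun x =>
      !decide (x ∈ t) && decide (ty M t x = List.ofFn A)).Nodup := List.nodup_range.filter _
  rw [← List.toFinset_card_of_nodup hnd, ← Fintype.card_coe, ← Nat.card_eq_fintype_card]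
  have hmem : ∀ x, x ∈ ((List.range M.length).filter fun x =>
      !decide (x ∈ t) && decide (ty M t x = List.ofFn A)).toFinset ↔
      x < M.length ∧ x ∉ t ∧ ∀ i : Fin t.length, adjB M x t[i] = A i := by
    intro x
    rw [List.mem_toFinset, List.mem_filter, List.mem_range, Bool.and_eq_true, Bool.not_eq_true',
      decide_eq_false_iff_not, decide_eq_true_eq]
    refine and_congr_right fun _ => and_congr_right fun _ => ?_
    constructor
    · intro h i
      have h1 : (ty M t x)[(i : ℕ)]? = (List.ofFn A)[(i : ℕ)]? := by rw [h]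
      unfold ty at h1
      rw [List.getElem?_map, List.getElem?_eq_getElem i.2, List.getElem?_eq_getElem (by simp)]
        at h1
      simpa using h1
    · intro h
      unfold ty
      refine List.ext_getElem (by simp) fun i h1 h2 => ?_
      rw [List.getElem_map, List.getElem_ofFn]
      exact h ⟨i, by simpa using h1⟩
  have hrange : ∀ x : Fin M.length, x ∉ Set.range (fun i : Fin t.length =>
      (⟨t[i], ht _ (List.getElem_mem _)⟩ : Fin M.length)) ↔ (x : ℕ) ∉ t := by
    intro x
    rw [not_iff_not]
    constructor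
    · rintro ⟨i, rfl⟩
      exact List.getElem_mem _
    · intro h
      obtain ⟨i, hi, h1⟩ := List.mem_iff_getElem.1 h
      exact ⟨⟨i, hi⟩, Fin.ext h1⟩
  have hadj : ∀ (x : Fin M.length) (i : Fin t.length),
      ((matGraph M).Adj x ⟨t[i], ht _ (List.getElem_mem _)⟩ ↔ A i = true) ↔
        adjB M x t[i] = A i := by
    intro x i
    have h := adjB_iff M x ⟨t[i], ht _ (List.getElem_mem _)⟩
    constructor
    · intro h1
      rw [Bool.eq_iff_iff]
      exact h.trans h1
    · intro h1
      rw [← h]
      show adjB M x t[i] = true ↔ _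
      rw [h1]
  refine Nat.card_congr
    { toFun := fun x => ⟨⟨x.1, ((hmem x.1).1 x.2).1⟩, (hrange _).2 ((hmem x.1).1 x.2).2.1,
        fun i => (hadj _ i).2 (((hmem x.1).1 x.2).2.2 i)⟩
      invFun := fun x => ⟨x.1.1, (hmem _).2 ⟨x.1.2, (hrange _).1 x.2.1,
        fun i => (hadj _ i).1 (x.2.2 i)⟩⟩
      left_inv := fun x => rfl
      right_inv := fun x => rfl }

theorem key {M : List (List Bool)} {t : List ℕ} (ht : ∀ x ∈ t, x < M.length) (hnd : t.Nodup)
    (hN : NormSplit (matGraph M) (vs M t)) {K : ℕ}
    (hK : ∀ m : (Fin t.length → Bool) → ℕ, IsCliqueGraph (Gam t.length m) ↔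
      IsCliqueGraph (Gam t.length (fun A => min (m A) K))) :
    IsCliqueGraph (matGraph M) ↔ vec t.length K M t ∈ tab t.length K := by
  classical
  have hmem : ∀ x : Fin M.length, x ∈ Set.range (fun i : Fin t.length =>
      (⟨t[i], ht _ (List.getElem_mem _)⟩ : Fin M.length)) ↔ x ∈ vs M t := by
    intro x
    constructor
    · rintro ⟨i, rfl⟩
      exact List.getElem_mem (l := t) i.2
    · intro h
      obtain ⟨i, hi, h1⟩ := List.mem_iff_getElem.1 (show (x : ℕ) ∈ t from h)
      exact ⟨⟨i, hi⟩, Fin.ext h1⟩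
  obtain ⟨e⟩ := iso_gam (G := matGraph M) (s := t.length)
    (fun i : Fin t.length => (⟨t[i], ht _ (List.getElem_mem _)⟩ : Fin M.length))
    (by
      intro i j hij
      have h1 : t[(i : ℕ)] = t[(j : ℕ)] := congrArg Fin.val hij
      exact Fin.ext ((List.Nodup.getElem_inj_iff hnd).1 h1))
    (fun i j => hN.stable _ ((hmem _).1 ⟨i, rfl⟩) _ ((hmem _).1 ⟨j, rfl⟩))
    (fun x y hx hy hxy => hN.clique x (fun h => hx ((hmem _).2 h)) y
      (fun h => hy ((hmem _).2 h)) hxy)
    (fun A => cnt M t (List.ofFn A)) (fun A => (cnt_eq M ht A).symm)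
  have h1 : IsCliqueGraph (matGraph M) ↔
      IsCliqueGraph (Gam t.length (fun A => min (cnt M t (List.ofFn A)) K)) := by
    rw [← hK (fun A => cnt M t (List.ofFn A))]
    exact ⟨fun h => h.of_iso e.symm, fun h => h.of_iso e⟩
  rw [h1]
  unfold tab vec allA
  rw [List.map_map, List.mem_map]
  constructor
  · intro h
    refine ⟨fun A => ⟨min (cnt M t (List.ofFn A)) K, by
      have := min_le_right (cnt M t (List.ofFn A)) K
      omega⟩, ?_, rfl⟩
    rw [Finset.mem_toList, Finset.mem_filter]
    exact ⟨Finset.mem_univ _, h⟩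
  · rintro ⟨c, hc, hc'⟩
    rw [Finset.mem_toList, Finset.mem_filter] at hc
    have h2 : (fun A => (c A : ℕ)) = fun A => min (cnt M t (List.ofFn A)) K := by
      funext A
      have h3 := List.map_inj_left.1 hc' A (by simp)
      exact h3
    have h4 : ∀ m m' : (Fin t.length → Bool) → ℕ, m = m' → IsCliqueGraph (Gam t.length m) →
        IsCliqueGraph (Gam t.length m') := by
      rintro m _ rfl h
      exact h
    exact h4 _ _ h2 hc.2

theorem tst_iff {s K : ℕ} (hK : ∀ m : (Fin s → Bool) → ℕ, IsCliqueGraph (Gam s m) ↔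
      IsCliqueGraph (Gam s (fun A => min (m A) K))) (M : List (List Bool)) :
    tst s K M = true ↔ (∃ S, NormSplit (matGraph M) S ∧ S.ncard = s) ∧
      IsCliqueGraph (matGraph M) := by
  classical
  unfold tst
  rw [List.any_eq_true]
  constructor
  · rintro ⟨t, ht, h⟩
    rw [mem_tup] at ht
    obtain ⟨rfl, ht⟩ := ht
    have ht' : ∀ x ∈ t, x < M.length := fun x hx => List.mem_range.1 (ht x hx)
    rw [Bool.and_eq_true, decide_eq_true_eq, okT_iff ht'] at h
    obtain ⟨⟨h1, h2⟩, h3⟩ := h
    refine ⟨⟨vs M t, h2, ?_⟩, (key ht' h1 h2 hK).2 h3⟩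
    have h4 : (fun x : Fin M.length => (x : ℕ)) '' vs M t = (t.toFinset : Set ℕ) := by
      ext x
      rw [Finset.mem_coe, List.mem_toFinset]
      constructor
      · rintro ⟨y, hy, rfl⟩
        exact hy
      · intro hx
        exact ⟨⟨x, ht' x hx⟩, hx, rfl⟩
    rw [← Set.ncard_image_of_injective _ Fin.val_injective, h4, Set.ncard_coe_finset,
      List.toFinset_card_of_nodup h1]
  · rintro ⟨⟨S, h1, rfl⟩, h2⟩
    set t : List ℕ := (Set.toFinite S).toFinset.toList.map Fin.val with hT
    have hlen : t.length = S.ncard := by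
      rw [hT, List.length_map, Finset.length_toList, Set.ncard_eq_toFinset_card]
    have hmem : ∀ x : Fin M.length, (x : ℕ) ∈ t ↔ x ∈ S := by
      intro x
      rw [hT, List.mem_map]
      constructor
      · rintro ⟨y, hy, hxy⟩
        rw [Finset.mem_toList, Set.Finite.mem_toFinset] at hy
        rwa [← Fin.ext hxy]
      · intro hx
        exact ⟨x, by rwa [Finset.mem_toList, Set.Finite.mem_toFinset], rfl⟩
    have hlt : ∀ x ∈ t, x < M.length := by
      intro x hx
      rw [hT, List.mem_map] at hx
      obtain ⟨y, _, rfl⟩ := hx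
      exact y.2
    have hnd : t.Nodup := (Finset.nodup_toList _).map Fin.val_injective
    have hvs : vs M t = S := Set.ext fun x => hmem x
    have hN : NormSplit (matGraph M) (vs M t) := by rw [hvs]; exact h1
    clear_value t
    rw [← hlen] at hK ⊢
    refine ⟨t, (mem_tup _ _ _).2 ⟨rfl, fun x hx => List.mem_range.2 (hlt x hx)⟩, ?_⟩
    rw [Bool.and_eq_true, decide_eq_true_eq, okT_iff hlt]
    exact ⟨⟨hnd, hN⟩, (key hlt hnd hN hK).1 h2⟩

/-- **The decision problem.** -/
def RecS (k : ℕ) {V : Type} (G : SimpleGraph V) : Prop := SplitLe k G ∧ IsCliqueGraph G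

theorem exists_alg (k : ℕ) : ∃ d : List (List Bool) → Bool, Poly d ∧
    ∀ M, RecS k (matGraph M) ↔ d M = true := by
  induction k with
  | zero =>
    obtain ⟨K, hK⟩ := exists_cap 0
    refine ⟨fun M => tst 0 K M, poly_tst 0 K, fun M => ?_⟩
    rw [tst_iff hK]
    unfold RecS SplitLe
    simp only [Nat.le_zero]
  | succ k ih =>
    obtain ⟨d, hd, hd'⟩ := ih
    obtain ⟨K, hK⟩ := exists_cap (k + 1)
    refine ⟨fun M => d M || tst (k + 1) K M, Poly.or hd (poly_tst (k + 1) K), fun M => ?_⟩
    rw [Bool.or_eq_true, tst_iff hK, ← hd']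
    unfold RecS SplitLe
    constructor
    · rintro ⟨⟨S, h1, h2⟩, h3⟩
      rcases Nat.le_succ_iff.1 h2 with h4 | h4
      · exact Or.inl ⟨⟨S, h1, h4⟩, h3⟩
      · exact Or.inr ⟨⟨S, h1, h4⟩, h3⟩
    · rintro (⟨⟨S, h1, h2⟩, h3⟩ | ⟨⟨S, h1, h2⟩, h3⟩)
      · exact ⟨⟨S, h1, by omega⟩, h3⟩
      · exact ⟨⟨S, h1, by omega⟩, h3⟩

theorem inP_recS (k : ℕ) : InPP (fun M : List (List Bool) => RecS k (matGraph M)) := by
  obtain ⟨d, hd, h⟩ := exists_alg k
  exact inPP_of hd h

end Pool.Agent.NPC.R554SCG
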